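import Pool.Agent.H91.SF.Defs

/-!
# Module ALG: cocycle identities

PROOF. `orb (n + m) x = orb m (orb n x)` (`Function.iterate_add_apply`, `Nat.add_comm`), then `Finset.prod_range_add`, `Finset.sum_range_add`. For `ph_le_lm`: for `k = 0` clear; for
`k = j + 1` the last term of `cl` is `ph j / a_j`, and `ph (j+1) = ph j * a_j = (ph j / a_j) * a_j ^ 2 ≤ M ^ 2 * cl ≤ K * cl`.
-/

set_option autoImplicit false

open Finset Filter Topology Metric Set

namespace Pool.Agent.H91.SF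

variable {X : Type} {S : Fd X} {C : Finset X} {M K ρ : ℝ}

theorem orb_add (S : Fd X) (t : ℂ) (x : X) (n m : ℕ) :
    orb S t x (n + m) = orb S t (orb S t x n) m := by
  unfold orb
  rw [Nat.add_comm, Function.iterate_add_apply]

theorem ph_add (S : Fd X) (t : ℂ) (x : X) (n m : ℕ) :
    ph S t x (n + m) = ph S t x n * ph S t (orb S t x n) m := by
  unfold ph
  rw [Finset.prod_range_add]
  congr 1
  exact Finset.prod_congr rfl fun l _ => by rw [orb_add]

theorem cl_add (S : Fd X) (t : ℂ) (x : X) (n m : ℕ) :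
    cl S t x (n + m) = cl S t x n + ph S t x n * cl S t (orb S t x n) m := by
  unfold cl
  rw [Finset.sum_range_add, Finset.mul_sum]
  congr 1
  refine Finset.sum_congr rfl fun l _ => ?_
  rw [orb_add, ph_add, mul_div_assoc]

theorem ss_add (S : Fd X) (t : ℂ) (x : X) (n m : ℕ) :
    ss S t x (n + m) = ss S t x n + (ph S t x n)⁻¹ * ss S t (orb S t x n) m := by
  unfold ss
  rw [Finset.sum_range_add, Finset.mul_sum]
  congr 1
  refine Finset.sum_congr rfl fun l _ => ?_
  rw [Nat.add_assoc, ph_add, mul_inv]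

theorem lm_add (S : Fd X) (K : ℝ) (t : ℂ) (x : X) (n m : ℕ) :
    lm S K t x (n + m) = lm S K t x n + K * ph S t x n * cl S t (orb S t x n) m := by
  unfold lm
  rw [cl_add]
  ring

theorem pos_add {t : ℂ} {x : X} {n m : ℕ} (h : pos S t x n)
    (h' : pos S t (orb S t x n) m) : pos S t x (n + m) := by
  intro l hl
  rcases lt_or_ge l n with h1 | h1
  · exact h l h1
  · obtain ⟨k, rfl⟩ := Nat.exists_eq_add_of_le h1
    rw [orb_add]
    exact h' k (by omega)

theorem pos_mono {t : ℂ} {x : X} {n m : ℕ} (h : pos S t x n) (hm : m ≤ n) : pos S t x m := by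
  exact fun l hl => h l (hl.trans_le hm)

theorem ph_pos {t : ℂ} {x : X} {n : ℕ} (h : pos S t x n) : 0 < ph S t x n := by
  exact Finset.prod_pos fun l hl => h l (Finset.mem_range.1 hl)

theorem ph_nonneg (ha : ∀ t x, 0 ≤ S.a t x) (t : ℂ) (x : X) (n : ℕ) : 0 ≤ ph S t x n := by
  exact Finset.prod_nonneg fun l _ => ha _ _

theorem cl_nonneg (ha : ∀ t x, 0 ≤ S.a t x) (t : ℂ) (x : X) (n : ℕ) : 0 ≤ cl S t x n := by
  exact Finset.sum_nonneg fun l _ => div_nonneg (ph_nonneg ha _ _ _) (ha _ _)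

theorem cl_mono (ha : ∀ t x, 0 ≤ S.a t x) (t : ℂ) (x : X) {n m : ℕ} (h : n ≤ m) :
    cl S t x n ≤ cl S t x m := by
  exact Finset.sum_le_sum_of_subset_of_nonneg (Finset.range_mono h)
    fun l _ _ => div_nonneg (ph_nonneg ha _ _ _) (ha _ _)

theorem ss_nonneg (ha : ∀ t x, 0 ≤ S.a t x) (t : ℂ) (x : X) (n : ℕ) : 0 ≤ ss S t x n := by
  exact Finset.sum_nonneg fun l _ => inv_nonneg.2 (ph_nonneg ha _ _ _)

theorem ss_mono (ha : ∀ t x, 0 ≤ S.a t x) (t : ℂ) (x : X) {n m : ℕ} (h : n ≤ m) :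
    ss S t x n ≤ ss S t x m := by
  exact Finset.sum_le_sum_of_subset_of_nonneg (Finset.range_mono h)
    fun l _ _ => inv_nonneg.2 (ph_nonneg ha _ _ _)

theorem lm_mono (ha : ∀ t x, 0 ≤ S.a t x) (hK : 0 ≤ K) (t : ℂ) (x : X) {n m : ℕ}
    (h : n ≤ m) : lm S K t x n ≤ lm S K t x m := by
  unfold lm
  have := mul_le_mul_of_nonneg_left (cl_mono (S := S) ha t x h) hK
  linarith

theorem one_le_lm (ha : ∀ t x, 0 ≤ S.a t x) (hK : 0 ≤ K) (t : ℂ) (x : X) (n : ℕ) :
    1 ≤ lm S K t x n := by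
  unfold lm
  have := mul_nonneg hK (cl_nonneg (S := S) ha t x n)
  linarith

theorem ph_le_lm (hB : Bas S C M K ρ) {t : ℂ} (ht : t ∈ ball (0 : ℂ) ρ) {x : X} {n : ℕ}
    (h : pos S t x n) : ph S t x n ≤ lm S K t x n := by
  have hM := hB.hM
  have hK : M ^ 2 ≤ K := (pow_le_pow_right₀ (by linarith) (by norm_num)).trans hB.hK
  have hK0 : 0 ≤ K := (sq_nonneg M).trans hK
  rcases n with _ | j
  · have : ph S t x 0 = 1 := by simp [ph]
    rw [this]
    exact one_le_lm hB.a0 hK0 t x 0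
  · have h1 : ph S t x (j + 1) = ph S t x j * S.a t (orb S t x j) := by
      unfold ph
      rw [Finset.prod_range_succ]
    have ha : 0 < S.a t (orb S t x j) := h j (Nat.lt_succ_self j)
    have haM := hB.aM t ht (orb S t x j)
    have hp : 0 < ph S t x j := ph_pos (pos_mono h (Nat.le_succ j))
    have h2 : ph S t x j / S.a t (orb S t x j) ≤ cl S t x (j + 1) := by
      have h3 : cl S t x (j + 1) = cl S t x j + ph S t x j / S.a t (orb S t x j) := by
        unfold cl
        rw [Finset.sum_range_succ]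
      have := cl_nonneg (S := S) hB.a0 t x j
      linarith
    have h4 : ph S t x (j + 1) = (ph S t x j / S.a t (orb S t x j)) *
        (S.a t (orb S t x j)) ^ 2 := by
      rw [h1]
      field_simp
    have h5 : (S.a t (orb S t x j)) ^ 2 ≤ M ^ 2 := pow_le_pow_left₀ ha.le haM 2
    have h6 : 0 ≤ ph S t x j / S.a t (orb S t x j) := (div_pos hp ha).le
    have h7 : ph S t x (j + 1) ≤ cl S t x (j + 1) * K := by
      rw [h4]
      exact mul_le_mul h2 (h5.trans hK) (sq_nonneg _) (h6.trans h2)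
    unfold lm
    linarith

/-- going backwards -/
theorem ph_back (hB : Bas S C M K ρ) {t : ℂ} (ht : t ∈ ball (0 : ℂ) ρ) (x : X) (n m : ℕ) :
    ph S t x (n + m) ≤ ph S t x n * M ^ m := by
  rw [ph_add]
  refine mul_le_mul_of_nonneg_left ?_ (ph_nonneg hB.a0 _ _ _)
  unfold ph
  calc ∏ l ∈ Finset.range m, S.a t (orb S t (orb S t x n) l)
      ≤ ∏ _l ∈ Finset.range m, M := Finset.prod_le_prod (fun l _ => hB.a0 _ _)
        fun l _ => hB.aM t ht _
    _ = M ^ m := by rw [Finset.prod_const, Finset.card_range]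

end Pool.Agent.H91.SF
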