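import Mathlib

/-!
# Smoothed Fatou, closing (END): abstract families of maps (definitions)

`F t : X → X` is a family of maps of a set (the sphere), `a t x ≥ 0` the derivative of `F t` at `x`, `D` a distance, `T t c k` the size of the parameter
derivative of the `k`-th point of the orbit of the critical value `F t c`, divided by the phase derivative.
`orb t x l` is the orbit, `ph` the product of the derivatives, `cl` the clean sum `∑_{l<k} ph l / a l`, `ss` the sum `∑_{1≤l≤k} 1 / ph l`,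
`lm = 1 + K cl` the inverse of the radius of linearity.
-/

set_option autoImplicit false

open Finset Filter Topology Metric Set

namespace Pool.Agent.H91.SF

structure Fd (X : Type) where
  F : ℂ → X → X
  a : ℂ → X → ℝ
  D : X → X → ℝ
  T : ℂ → X → ℕ → ℝ

variable {X : Type}

/-- the orbit -/
def orb (S : Fd X) (t : ℂ) (x : X) (l : ℕ) : X := (S.F t)^[l] x

/-- product of the derivatives -/
noncomputable def ph (S : Fd X) (t : ℂ) (x : X) (k : ℕ) : ℝ :=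
  ∏ l ∈ Finset.range k, S.a t (orb S t x l)

/-- the clean sum -/
noncomputable def cl (S : Fd X) (t : ℂ) (x : X) (k : ℕ) : ℝ :=
  ∑ l ∈ Finset.range k, ph S t x l / S.a t (orb S t x l)

/-- the sum of the inverses of the derivatives -/
noncomputable def ss (S : Fd X) (t : ℂ) (x : X) (k : ℕ) : ℝ :=
  ∑ l ∈ Finset.range k, (ph S t x (l + 1))⁻¹

/-- inverse of the radius of linearity -/
noncomputable def lm (S : Fd X) (K : ℝ) (t : ℂ) (x : X) (k : ℕ) : ℝ := 1 + K * cl S t x k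

/-- no critical point among the first `k` points -/
def pos (S : Fd X) (t : ℂ) (x : X) (k : ℕ) : Prop := ∀ l < k, 0 < S.a t (orb S t x l)

/-- the freezing property at the base `t0` and the critical point `c`, up to time `k` -/
def Frz (S : Fd X) (M ρ : ℝ) (K : ℝ) (t0 : ℂ) (c : X) (k : ℕ) : Prop :=
  ∀ t ∈ ball (0 : ℂ) ρ, ∀ t' ∈ ball (0 : ℂ) ρ, ‖t - t0‖ * lm S K t0 (S.F t0 c) k ≤ 1 →
    ‖t' - t0‖ * lm S K t0 (S.F t0 c) k ≤ 1 → ∀ l ≤ k,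
      (3 / 4 * ph S t0 (S.F t0 c) l ≤ ph S t (S.F t c) l ∧
        ph S t (S.F t c) l ≤ 4 / 3 * ph S t0 (S.F t0 c) l) ∧
      (l < k → 3 / 4 * S.a t0 (orb S t0 (S.F t0 c) l) ≤ S.a t (orb S t (S.F t c) l) ∧
        S.a t (orb S t (S.F t c) l) ≤ 4 / 3 * S.a t0 (orb S t0 (S.F t0 c) l)) ∧
      |S.T t c l - S.T t0 c l| ≤ 1 / (4 * M) ∧
      ‖t - t'‖ * (S.T t0 c l - 1 / (4 * M)) * ph S t0 (S.F t0 c) l ≤
        2 * S.D (orb S t (S.F t c) l) (orb S t' (S.F t' c) l) ∧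
      S.D (orb S t (S.F t c) l) (orb S t' (S.F t' c) l) ≤
        2 * ‖t - t'‖ * (S.T t0 c l + 1 / (4 * M)) * ph S t0 (S.F t0 c) l

/-- the basic properties of the family on `ball 0 ρ` -/
structure Bas (S : Fd X) (C : Finset X) (M K ρ : ℝ) : Prop where
  hM : 16 ≤ M
  hK : M ^ 10 ≤ K
  hρ : 0 < ρ
  card : (C.card : ℝ) ≤ M
  a0 : ∀ t x, 0 ≤ S.a t x
  aM : ∀ t ∈ ball (0 : ℂ) ρ, ∀ x, S.a t x ≤ M
  D0 : ∀ x y, 0 ≤ S.D x y
  Ds : ∀ x y, S.D x y = S.D y x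
  Dt : ∀ x y z, S.D x z ≤ S.D x y + S.D y z
  lip : ∀ t ∈ ball (0 : ℂ) ρ, ∀ t' ∈ ball (0 : ℂ) ρ, ∀ x y,
    |S.a t x - S.a t' y| ≤ K * (S.D x y + ‖t - t'‖)
  near : ∀ t ∈ ball (0 : ℂ) ρ, ∀ x, ∃ c ∈ C, S.D x c ≤ M * S.a t x
  frz : ∀ t0 ∈ ball (0 : ℂ) ρ, ∀ c ∈ C, ∀ k, 1 ≤ k → pos S t0 (S.F t0 c) k →
    1 + ss S t0 (S.F t0 c) k ≤ M → Frz S M ρ K t0 c k
  T0 : ∀ t ∈ ball (0 : ℂ) ρ, ∀ c ∈ C, 0 ≤ S.T t c 0 ∧ S.T t c 0 ≤ 2
  Tt : ∀ t ∈ ball (0 : ℂ) ρ, ∀ c ∈ C, ∀ k,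
    |S.T t c (k + 1) - S.T t c k| ≤ 2 * (ph S t (S.F t c) (k + 1))⁻¹

/-- blocks for the single map `F t`: every point `x` with derivative at least `am` is the beginning of a block of length at most `L` -/
structure Blk (S : Fd X) (M δ G E am : ℝ) (L : ℕ) (t : ℂ) : Prop where
  reg : ∀ x, am ≤ S.a t x → δ ≤ S.a t x → ∃ m, 1 ≤ m ∧ m ≤ L ∧ pos S t x m ∧
    cl S t x m ≤ E ∧ ss S t x m ≤ E ∧
      (16 ≤ ph S t x m ∨ (1 ≤ M * ph S t x m ∧ S.a t (orb S t x m) < δ))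
  dee : ∀ x, am ≤ S.a t x → S.a t x < δ → ∃ m, 1 ≤ m ∧ m ≤ L ∧ pos S t x m ∧
    S.a t x * cl S t x m ≤ 2 ∧ S.a t x * ss S t x m ≤ E ∧ 1 ≤ G * S.a t x * ph S t x m ^ 2

/-- blocks for all maps near `0` -/
def BlkAll (S : Fd X) (M δ G E : ℝ) : Prop :=
  ∀ᶠ r : ℝ in 𝓝[>] 0, ∃ L : ℕ, ∀ t : ℂ, ‖t‖ ≤ r → ∀ am : ℝ, 0 < am → r ≤ am ^ 4 →
    Blk S M δ G E am L t

/-- the initial times -/
def Gde (S : Fd X) (C : Finset X) (M K G : ℝ) : Prop :=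
  ∀ᶠ R : ℝ in atTop, ∀ c ∈ C, ∃ n, 1 ≤ n ∧ pos S 0 (S.F 0 c) n ∧ lm S K 0 (S.F 0 c) n ≤ R ∧
    R ^ 7 ≤ (G * ph S 0 (S.F 0 c) n) ^ 8 ∧ 1 + ss S 0 (S.F 0 c) n ≤ M / 2 ∧ 1 / M ≤ S.T 0 c n

/-- all critical values have exponentially growing derivatives, and the orbit of `c0` is infinite -/
def CEall (S : Fd X) (C : Finset X) (c0 : X) (t : ℂ) : Prop :=
  (∀ c ∈ C, ∃ κ q : ℝ, 0 < κ ∧ 1 < q ∧ ∀ n, κ * q ^ n ≤ ph S t (S.F t c) n) ∧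
    (Set.range fun n : ℕ => orb S t c0 n).Infinite

end Pool.Agent.H91.SF
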