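import Pool.Agent.H55.SF.Inst
import Pool.Agent.H47.SF.H4
import Pool.Agent.H47.SF.Crn
import Pool.Agent.H84.SF.Grb
import Pool.Agent.H84.SF.Esh

/-!
# Module H34X: the early stage properties `H3`, `H4` of the family `fd e X` from `Good`
-/

set_option autoImplicit false

open Finset

namespace Pool.Agent.H91.SF

open Pool.H70.SF (CV UU IsU wd JJ Tt ND aa al Tt_zero fd a_fd)
open Pool.Agent.H47.SF (Good Sz qq)

variable {d : ℕ}

/-- `H4` -/
theorem h4x {n1 : ℕ} {R : ℝ} {X : CV d} {e : ℂ × ℂ} {t : ℂ} (G : Good n1 R (Tt e t X))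
    (S : Sz n1 d R) {C0 : ℕ} (hC0 : 1 ≤ C0) (hn : 4 * C0 + 8 ≤ n1) (C : Finset UU) :
    Pool.Agent.H84.SF.H4 (Pool.Agent.H84.SF.Dt (fd e X) C t) (((d : ℝ) ^ C0)⁻¹) (qq d)
      (qq d ^ 2) (n1 + 2) := by
  have hq : 1 ≤ qq d := le_trans (one_le_pow₀ (by norm_num)) S.q1
  refine ⟨hq, ?_, fun x hx => ?_⟩
  · have h1 : (2 : ℝ) ^ (n1 + 2) ≤ 4 ^ (n1 + 4) := by
      calc (2 : ℝ) ^ (n1 + 2) ≤ 4 ^ (n1 + 2) := pow_le_pow_left₀ (by norm_num) (by norm_num) _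
        _ ≤ 4 ^ (n1 + 4) := pow_le_pow_right₀ (by norm_num) (by omega)
    have h2 := S.q6
    nlinarith
  · obtain ⟨m, h1, h2, h3, -, h5⟩ :=
      Pool.Agent.H47.SF.h4 (Pool.Agent.H47.SF.abs_of_good G S) S hC0 hn (x := x) hx
    refine ⟨m, h1, h2, h3, h5.imp id fun h6 => ⟨?_, h6.2⟩⟩
    rw [one_div]
    exact h6.1

/-- products of consecutive derivatives along a critical orbit -/
theorem es_prod {n0 : ℕ} {R : ℝ} {X : CV d} (hd : 1 ≤ d) (G : Good n0 R X) {c : ℂ × ℂ}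
    (hc : IsU c) (hJ : JJ X c = 0) {l j : ℕ} (hlj : l + j ≤ n0 + 1) :
    (d : ℝ) ^ ((j : ℝ) / 2 - 1) ≤ ∏ i ∈ range j, ‖al X c (l + i)‖ := by
  have hd1 : (1 : ℝ) ≤ d := by exact_mod_cast hd
  have hd0 : (0 : ℝ) < d := by linarith
  obtain ⟨s, g, h, hs, hg, hh, -, h2, -, h4⟩ := G.es c hc hJ
  have h5 : ∑ i ∈ range j, g (l + i) ≤ 1 := by
    have h6 : ∑ i ∈ range j, g (l + i) ≤ ∑ i ∈ range (l + j), g i := by
      rw [Finset.sum_range_add]
      have : 0 ≤ ∑ x ∈ range l, g x := Finset.sum_nonneg fun i _ => hg i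
      linarith
    have h7 : ∑ i ∈ range (l + j), g i ≤ ∑ i ∈ range (n0 + 1), g i :=
      Finset.sum_le_sum_of_subset_of_nonneg (Finset.range_mono hlj) fun i _ _ => hg i
    have h8 : ∑ i ∈ range (n0 + 1), g i ≤ ∑ i ∈ range (n0 + 1), (g i + 2 * h i) :=
      Finset.sum_le_sum fun i _ => by have := hh i; linarith
    linarith
  have h6 : ∏ i ∈ range j, (d : ℝ) ^ (1 / 2 - g (l + i)) ≤ ∏ i ∈ range j, ‖al X c (l + i)‖ := by
    refine Finset.prod_le_prod (fun i _ => Real.rpow_nonneg hd0.le _) fun i hi => ?_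
    have hi' := Finset.mem_range.1 hi
    exact h2 (l + i) (by omega)
  refine le_trans ?_ h6
  rw [← Real.rpow_sum_of_pos hd0]
  refine Real.rpow_le_rpow_of_exponent_le hd1 ?_
  rw [Finset.sum_sub_distrib, Finset.sum_const, Finset.card_range, nsmul_eq_mul]
  linarith

/-- `H3` -/
theorem h3x {n0 : ℕ} {R : ℝ} {X : CV d} (hd : 4 ≤ d) (hX : ND X) (G : Good n0 R X)
    (e : ℂ × ℂ) {C : Finset UU} (hCz : ∀ c ∈ C, JJ X c.val = 0) :
    Pool.Agent.H84.SF.H3 (Pool.Agent.H84.SF.Dt (fd e X) C 0) d ((d : ℝ) ^ (1 / 2 : ℝ)) n0 := by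
  have hd4 : (4 : ℝ) ≤ d := by exact_mod_cast hd
  have hd0 : (0 : ℝ) < d := by linarith
  have ha : ∀ q : UU, ∀ l, (fd e X).a 0 (((fd e X).F 0)^[l] ((fd e X).F 0 q)) =
      ‖al X q.val l‖ := by
    intro q l
    have h1 := a_fd hX e 0 q l
    rw [Tt_zero] at h1
    exact h1
  refine ⟨by linarith, ?_, ?_, ?_⟩
  · rw [← Real.sqrt_eq_rpow]
    refine Real.le_sqrt_of_sq_le ?_
    linarith
  · rintro v ⟨q, hq, rfl⟩ l hl
    have h1 := es_prod (by omega) G q.prop (hCz q hq) (l := l) (j := 1) (by omega)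
    rw [Finset.prod_range_one, add_zero] at h1
    show 1 / (d : ℝ) ≤ (fd e X).a 0 (((fd e X).F 0)^[l] ((fd e X).F 0 q))
    rw [ha]
    refine le_trans ?_ h1
    rw [one_div, ← Real.rpow_neg_one]
    refine Real.rpow_le_rpow_of_exponent_le (by linarith) ?_
    norm_num
  · rintro v ⟨q, hq, rfl⟩ l j hlj
    have h1 := es_prod (by omega) G q.prop (hCz q hq) (l := l) (j := j) (by omega)
    have h2 : Pool.Agent.H84.SF.Ph (Pool.Agent.H84.SF.Dt (fd e X) C 0) j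
        ((Pool.Agent.H84.SF.Dt (fd e X) C 0).f^[l] ((fd e X).F 0 q)) =
        ∏ i ∈ range j, ‖al X q.val (l + i)‖ := by
      unfold Pool.Agent.H84.SF.Ph
      refine Finset.prod_congr rfl fun i _ => ?_
      rw [← Function.iterate_add_apply, add_comm i l]
      exact ha q (l + i)
    rw [h2]
    refine le_trans (le_of_eq ?_) h1
    rw [Real.rpow_sub hd0, Real.rpow_one, ← Real.rpow_natCast ((d : ℝ) ^ (1 / 2 : ℝ)) j,
      ← Real.rpow_mul hd0.le]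
    congr 2
    ring

end Pool.Agent.H91.SF
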