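import Pool.Agent.H91.SF.ALG

/-!
# Module FRZU: consequences of the freezing property

PROOF. `frz_lm`: `cl` at `t`: each term `ph l / a l` (`l < k`) is at most `(4/3 ph) / (3/4 a) = 16/9` times the term at `t0` (where `a > 0` by `pos`), `lm = 1 + K cl`. `frz_ss`: for `n ≤ k`: `ss k - ss n = ∑_{n ≤ l < k} (ph (l+1))⁻¹` (`Finset.sum_range_sub_sum_range` or `Finset.sum_Ico_eq_sub`), each term at `t` is
at most `4/3` times the one at `t0` (`ph > 0` at `t0`). `T_le`: induction from `Bas.T0`, `Bas.Tt`: `T k ≤ 2 + 2 ss k`. `T_sub`: `|T k - T n| ≤ 2 (ss k - ss n)` for `n ≤ k`. `ph_inv_le`: for `1 ≤ k`, `(ph k)⁻¹` is the last term of `ss k`, so `(ph k)⁻¹ ≤ ss k ≤ M`.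
-/

set_option autoImplicit false

open Finset Filter Topology Metric Set

namespace Pool.Agent.H91.SF

variable {X : Type} {S : Fd X} {C : Finset X} {M K ρ : ℝ}

theorem frz_pos (hB : Bas S C M K ρ) {t0 t : ℂ} {c : X} {k : ℕ}
    (ht : t ∈ ball (0 : ℂ) ρ) (hf : Frz S M ρ K t0 c k) (hp : pos S t0 (S.F t0 c) k)
    (hd : ‖t - t0‖ * lm S K t0 (S.F t0 c) k ≤ 1) : pos S t (S.F t c) k := by
  intro l hl
  obtain ⟨-, h2, -⟩ := hf t ht t ht hd hd l hl.le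
  have h3 := hp l hl
  have h4 := (h2 hl).1
  linarith

theorem frz_lm (hB : Bas S C M K ρ) {t0 t : ℂ} {c : X} {k : ℕ}
    (ht : t ∈ ball (0 : ℂ) ρ) (hf : Frz S M ρ K t0 c k) (hp : pos S t0 (S.F t0 c) k)
    (hd : ‖t - t0‖ * lm S K t0 (S.F t0 c) k ≤ 1) :
    lm S K t (S.F t c) k ≤ 16 / 9 * lm S K t0 (S.F t0 c) k := by
  have hK : 0 ≤ K := (pow_nonneg (by linarith [hB.hM] : (0:ℝ) ≤ M) 10).trans hB.hK
  have h1 : cl S t (S.F t c) k ≤ 16 / 9 * cl S t0 (S.F t0 c) k := by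
    unfold cl
    rw [Finset.mul_sum]
    refine Finset.sum_le_sum fun l hl => ?_
    have hl' := Finset.mem_range.1 hl
    obtain ⟨h1, h2, -⟩ := hf t ht t ht hd hd l hl'.le
    have h3 := hp l hl'
    have h4 := h2 hl'
    have h5 : 0 < ph S t0 (S.F t0 c) l := ph_pos (pos_mono hp hl'.le)
    have h6 : 0 < S.a t (orb S t (S.F t c) l) := by linarith [h4.1]
    rw [div_le_iff₀ h6]
    have h7 : ph S t0 (S.F t0 c) l / S.a t0 (orb S t0 (S.F t0 c) l) *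
        S.a t0 (orb S t0 (S.F t0 c) l) = ph S t0 (S.F t0 c) l := div_mul_cancel₀ _ h3.ne'
    have h8 : 0 < ph S t0 (S.F t0 c) l / S.a t0 (orb S t0 (S.F t0 c) l) := div_pos h5 h3
    calc ph S t (S.F t c) l ≤ 4 / 3 * ph S t0 (S.F t0 c) l := h1.2
      _ = 16 / 9 * (ph S t0 (S.F t0 c) l / S.a t0 (orb S t0 (S.F t0 c) l)) *
          (3 / 4 * S.a t0 (orb S t0 (S.F t0 c) l)) := by
          linear_combination (-(4:ℝ) / 3) * h7
      _ ≤ 16 / 9 * (ph S t0 (S.F t0 c) l / S.a t0 (orb S t0 (S.F t0 c) l)) *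
          S.a t (orb S t (S.F t c) l) :=
          mul_le_mul_of_nonneg_left h4.1 (by positivity)
  unfold lm
  have h2 := mul_le_mul_of_nonneg_left h1 hK
  linarith

theorem frz_ss (hB : Bas S C M K ρ) {t0 t : ℂ} {c : X} {k n : ℕ} (hn : n ≤ k)
    (ht : t ∈ ball (0 : ℂ) ρ) (hf : Frz S M ρ K t0 c k) (hp : pos S t0 (S.F t0 c) k)
    (hd : ‖t - t0‖ * lm S K t0 (S.F t0 c) k ≤ 1) :
    ss S t (S.F t c) k - ss S t (S.F t c) n ≤
      4 / 3 * (ss S t0 (S.F t0 c) k - ss S t0 (S.F t0 c) n) := by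
  have e : ∀ s : ℂ, ss S s (S.F s c) k - ss S s (S.F s c) n =
      ∑ l ∈ Finset.Ico n k, (ph S s (S.F s c) (l + 1))⁻¹ := fun s => by
    unfold ss
    rw [Finset.sum_Ico_eq_sub _ hn]
  rw [e t, e t0, Finset.mul_sum]
  refine Finset.sum_le_sum fun l hl => ?_
  have hl' := (Finset.mem_Ico.1 hl).2
  obtain ⟨h1, -, -⟩ := hf t ht t ht hd hd (l + 1) hl'
  have h5 : 0 < ph S t0 (S.F t0 c) (l + 1) := ph_pos (pos_mono hp hl')
  have h6 : 0 < 3 / 4 * ph S t0 (S.F t0 c) (l + 1) := by positivity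
  calc (ph S t (S.F t c) (l + 1))⁻¹ ≤ (3 / 4 * ph S t0 (S.F t0 c) (l + 1))⁻¹ :=
        inv_anti₀ h6 h1.1
    _ = 4 / 3 * (ph S t0 (S.F t0 c) (l + 1))⁻¹ := by
        rw [mul_inv]
        norm_num

theorem T_le (hB : Bas S C M K ρ) {t : ℂ} (ht : t ∈ ball (0 : ℂ) ρ) {c : X} (hc : c ∈ C)
    (k : ℕ) : S.T t c k ≤ 2 * (1 + ss S t (S.F t c) k) := by
  induction k with
  | zero =>
    have h1 := (hB.T0 t ht c hc).2
    have h2 := ss_nonneg (S := S) hB.a0 t (S.F t c) 0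
    linarith
  | succ k ih =>
    have h1 := (abs_le.1 (hB.Tt t ht c hc k)).2
    have h2 : ss S t (S.F t c) (k + 1) = ss S t (S.F t c) k +
        (ph S t (S.F t c) (k + 1))⁻¹ := by
      unfold ss
      rw [Finset.sum_range_succ]
    rw [h2]
    linarith

theorem T_sub (hB : Bas S C M K ρ) {t : ℂ} (ht : t ∈ ball (0 : ℂ) ρ) {c : X} (hc : c ∈ C)
    {n k : ℕ} (hn : n ≤ k) :
    |S.T t c k - S.T t c n| ≤ 2 * (ss S t (S.F t c) k - ss S t (S.F t c) n) := by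
  induction k, hn using Nat.le_induction with
  | base => simp
  | succ k hk ih =>
    have h1 := hB.Tt t ht c hc k
    have h2 : ss S t (S.F t c) (k + 1) = ss S t (S.F t c) k +
        (ph S t (S.F t c) (k + 1))⁻¹ := by
      unfold ss
      rw [Finset.sum_range_succ]
    rw [h2]
    have h3 := abs_sub_le (S.T t c (k + 1)) (S.T t c k) (S.T t c n)
    linarith

theorem ph_inv_le (hB : Bas S C M K ρ) {t : ℂ} {x : X} {k : ℕ} (hk : 1 ≤ k)
    (hs : 1 + ss S t x k ≤ M) : (ph S t x k)⁻¹ ≤ M := by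
  obtain ⟨j, rfl⟩ := Nat.exists_eq_add_of_le hk
  have h2 : ss S t x (1 + j) = ss S t x j + (ph S t x (1 + j))⁻¹ := by
    unfold ss
    rw [Nat.add_comm 1 j, Finset.sum_range_succ]
  have h3 := ss_nonneg (S := S) hB.a0 t x j
  linarith

end Pool.Agent.H91.SF
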