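import Pool.Agent.H91.SF.NUM
import Pool.Agent.H91.SF.FRZU

/-!
# Module INI: the first stage

PROOF. `hg` at `R = 1 / r0` gives the times `n c` (choose; for `c ∉ C` put `0`). `lmr`: `r0 lm ≤ r0 R = 1`. `Frz` at the base `0`, time `n c` (`1 + ss ≤ M / 2 ≤ M`): for `s ∈ closedBall 0 r0`, `‖s - 0‖ lm ≤ 1`; `frz_ss` with `n = 0` (`ss _ 0 = 0`): `1 + ss s ≤ 1 + 4/3 ss 0 ≤ 2 M / 3 ≤ M - Bs r0` (`n6`: `Bs r0 ≤ 1 / (4M)`).
`T s ≥ T 0 - 1/(4M) ≥ 3/(4M) ≥ 1/(2M) + Bs r0`. `siz`: `R^7 ≤ (G ph)^8` and `r0 = (G b)^8`, so `(G r0 ph)^8 = r0^8 (G ph)^8 ≥ r0^8 R^7 = r0 = (G b)^8`, hence `r0 ph ≥ b` (`pow_le_pow_left₀` / `le_of_pow_le_pow_left`).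
-/

set_option autoImplicit false

open Finset Filter Topology Metric Set

namespace Pool.Agent.H91.SF

variable {X : Type} {S : Fd X} {C : Finset X} {M K ρ : ℝ}

theorem ini {δ G E b θ η bK am Bs r0 : ℝ} (hB : Bas S C M K ρ)
    (hN : Nm M K δ G E b θ η bK am Bs r0) (hr0 : r0 < ρ)
    (hg : ∀ c ∈ C, ∃ n, 1 ≤ n ∧ pos S 0 (S.F 0 c) n ∧ lm S K 0 (S.F 0 c) n ≤ 1 / r0 ∧
      (1 / r0) ^ 7 ≤ (G * ph S 0 (S.F 0 c) n) ^ 8 ∧ 1 + ss S 0 (S.F 0 c) n ≤ M / 2 ∧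
      1 / M ≤ S.T 0 c n) :
    ∃ n : X → ℕ, Stg S C M K δ b bK Bs r0 0 r0 n := by
  obtain ⟨hM0, hK0, hK1, hθ, hθ1, hη, hη1, hbK, hbKb, ham, hambK, hBs, hr00, _⟩ := nm_pos hN
  choose! n hn using hg
  have hM := hN.hM
  have h0ρ : (0 : ℂ) ∈ ball (0 : ℂ) ρ := mem_ball_self hB.hρ
  have hn6 := hN.n6
  have h4M : 1 / (4 * M) ≤ 1 / 64 := by
    rw [div_le_div_iff₀ (by positivity) (by norm_num)]
    linarith
  have hlm : ∀ c ∈ C, r0 * lm S K 0 (S.F 0 c) (n c) ≤ 1 := by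
    intro c hc
    obtain ⟨_, _, h3, _⟩ := hn c hc
    rw [le_div_iff₀ hr00] at h3
    linarith
  have hfz : ∀ c ∈ C, Frz S M ρ K 0 c (n c) := by
    intro c hc
    obtain ⟨h1, h2, _, _, h5, _⟩ := hn c hc
    exact hB.frz 0 h0ρ c hc (n c) h1 h2 (by linarith)
  have hs : ∀ s ∈ closedBall (0 : ℂ) r0, s ∈ ball (0 : ℂ) ρ := by
    intro s hs
    exact closedBall_subset_ball hr0 hs
  have hd : ∀ c ∈ C, ∀ s ∈ closedBall (0 : ℂ) r0, ‖s - 0‖ * lm S K 0 (S.F 0 c) (n c) ≤ 1 := by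
    intro c hc s hs'
    have h1 : ‖s - 0‖ ≤ r0 := by
      rw [sub_zero]
      exact mem_closedBall_zero_iff.1 hs'
    exact (mul_le_mul_of_nonneg_right h1
      (zero_le_one.trans (one_le_lm hB.a0 hK0.le _ _ _))).trans (hlm c hc)
  refine ⟨n, ⟨hr00, subset_rfl, fun c hc => (hn c hc).1, fun c hc => (hn c hc).2.1, hlm, ?_, ?_, ?_⟩⟩
  · intro c hc s hs'
    obtain ⟨h1, h2, _, _, h5, _⟩ := hn c hc
    have h6 := frz_ss (n := 0) hB (Nat.zero_le _) (hs s hs') (hfz c hc) h2 (hd c hc s hs')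
    have h7 : ss S s (S.F s c) 0 = 0 := by simp [ss]
    have h8 : ss S 0 (S.F 0 c) 0 = 0 := by simp [ss]
    rw [h7, h8] at h6
    linarith
  · intro c hc s hs'
    obtain ⟨h1, h2, _, _, h5, h6⟩ := hn c hc
    obtain ⟨_, _, h7, _⟩ := hfz c hc s (hs s hs') s (hs s hs') (hd c hc s hs') (hd c hc s hs')
      (n c) le_rfl
    have h8 := (abs_le.1 h7).1
    have h9 : 1 / M = 4 * (1 / (4 * M)) := by
      field_simp
    have h10 : 1 / (2 * M) = 2 * (1 / (4 * M)) := by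
      field_simp
      norm_num
    rw [h9] at h6
    rw [h10]
    linarith
  · intro c hc
    left
    obtain ⟨_, h2, _, h4, _⟩ := hn c hc
    have hp : 0 ≤ ph S 0 (S.F 0 c) (n c) := ph_nonneg hB.a0 _ _ _
    have hG := hN.hG
    have hG0 : 0 < G := by linarith
    have hb := hN.hb
    have h5 : (G * b) ^ 8 ≤ (G * (r0 * ph S 0 (S.F 0 c) (n c))) ^ 8 := by
      rw [← hN.er]
      calc r0 = r0 ^ 8 * (1 / r0) ^ 7 := by
            field_simp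
        _ ≤ r0 ^ 8 * (G * ph S 0 (S.F 0 c) (n c)) ^ 8 :=
            mul_le_mul_of_nonneg_left h4 (by positivity)
        _ = _ := by ring
    have h6 := (pow_le_pow_iff_left₀ (by positivity) (by positivity) (by norm_num)).1 h5
    exact le_of_mul_le_mul_left h6 hG0

end Pool.Agent.H91.SF
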