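import Pool.Agent.H91.SF.NDefs

/-!
# Module NUM: the constants

PROOF. With `θ = 1 / (K^2 E)`, `η = 1 / M^6` fixed, `bK = θ b / (2 M^2)` and `am = η bK` are constant multiples of `b`, `Bs = const / b^2`, `r0 = G^8 b^8`: all the
inequalities `n1`, ..., `n7` hold for small `b` (`n1`: `G^8 b^8 ≤ const b^4`; `n2`: `const b^2 ≤ const b`; `n6`: `const b^6 ≤ 1/(4M)`; `n4`, `n5`, `n3`, `n7`: `const b ≤ const`).
Suggestion: a private lemma: for `α > 0`, `β` and `k ≥ 1`, `∀ᶠ b in 𝓝[>] 0, β * b ^ k ≤ α` (continuity), and then filter_upwards; write `n1` as `(G^8 * b^4) * b^4 ≤ (η θ / (2 M^2))^4 * b^4`.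
-/

set_option autoImplicit false

open Finset Filter Topology Metric Set

namespace Pool.Agent.H91.SF

private theorem num_ev (β : ℝ) {α : ℝ} (hα : 0 < α) {k : ℕ} (hk : k ≠ 0) :
    ∀ᶠ b : ℝ in 𝓝[>] 0, β * b ^ k ≤ α := by
  have h1 : Tendsto (fun b : ℝ => β * b ^ k) (𝓝 0) (𝓝 (β * 0 ^ k)) :=
    (Continuous.tendsto (by fun_prop) 0)
  rw [zero_pow hk, mul_zero] at h1
  exact ((h1.eventually (gt_mem_nhds hα)).filter_mono nhdsWithin_le_nhds).mono fun b hb => hb.le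

theorem num {M K δ G E : ℝ} (hM : 16 ≤ M) (hK : M ^ 10 ≤ K) (hG : 1 ≤ G) (hE : 1 ≤ E)
    (hδ : 0 < δ) (hδ1 : δ ≤ 1) (hδG : G * δ * (16 * M ^ 2) ^ 2 ≤ 1) :
    ∀ᶠ b : ℝ in 𝓝[>] 0, ∃ θ η bK am Bs r0 : ℝ, Nm M K δ G E b θ η bK am Bs r0 := by
  have hM0 : 0 < M := by linarith
  have hK0 : 0 < K := lt_of_lt_of_le (pow_pos hM0 10) hK
  have hE0 : 0 < E := by linarith
  have hG0 : 0 < G := by linarith
  set θ : ℝ := 1 / (K ^ 2 * E) with hθ
  have hθ0 : 0 < θ := by positivity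
  set η : ℝ := 1 / M ^ 6 with hη
  have hη0 : 0 < η := by positivity
  set κ : ℝ := θ / (2 * M ^ 2) with hκ
  have hκ0 : 0 < κ := by positivity
  filter_upwards [self_mem_nhdsWithin, num_ev 1 one_pos (k := 1) one_ne_zero,
    num_ev (G ^ 8) (show 0 < (η * κ) ^ 4 by positivity) (k := 4) (by norm_num),
    num_ev ((16 * K * (E + G) * M ^ 2) ^ 2) (show 0 < η * κ by positivity) (k := 1) one_ne_zero,
    num_ev (2 * K * E) one_pos (k := 1) one_ne_zero,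
    num_ev ((2 * M ^ 2 * K) ^ 2 * G * κ) (show 0 < θ ^ 2 by positivity) (k := 1) one_ne_zero,
    num_ev (2 * M ^ 2 * K ^ 2 * κ) (show 0 < θ * δ by positivity) (k := 1) one_ne_zero,
    num_ev (12 * E * M ^ 2 * G ^ 8 / (η * κ ^ 2)) (show 0 < 1 / (4 * M) by positivity)
      (k := 6) (by norm_num),
    num_ev (η * κ) (show 0 < δ / 2 by positivity) (k := 1) one_ne_zero]
    with b hb h1 h2 h3 h4 h5 h6 h7 h8
  have hb0 : 0 < b := hb
  rw [pow_one] at h1 h3 h4 h5 h6 h8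
  rw [one_mul] at h1
  have ebK : θ * b / (2 * M ^ 2) = κ * b := by
    rw [hκ]
    ring
  refine ⟨θ, η, κ * b, η * (κ * b), 12 * E * M ^ 2 / (η * (κ * b) * (κ * b)), (G * b) ^ 8,
    ⟨hM, hK, hG, hE, hδ, hδ1, hδG, hb0, h1, rfl, rfl, ebK.symm, rfl, rfl, rfl,
      ?_, ?_, h4, ?_, ?_, ?_, ?_⟩⟩
  · have e1 : (G * b) ^ 8 = (G ^ 8 * b ^ 4) * b ^ 4 := by ring
    have e2 : (η * (κ * b)) ^ 4 = (η * κ) ^ 4 * b ^ 4 := by ring
    rw [e1, e2]
    exact mul_le_mul_of_nonneg_right h2 (by positivity)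
  · have e1 : (16 * K * (E + G) * M ^ 2) ^ 2 * b ^ 2 =
        ((16 * K * (E + G) * M ^ 2) ^ 2 * b) * b := by ring
    rw [e1, ← mul_assoc]
    exact mul_le_mul_of_nonneg_right h3 hb0.le
  · rw [← mul_assoc]
    exact h5
  · rw [← mul_assoc]
    exact h6
  · have e1 : 12 * E * M ^ 2 / (η * (κ * b) * (κ * b)) * (G * b) ^ 8 =
        12 * E * M ^ 2 * G ^ 8 / (η * κ ^ 2) * b ^ 6 := by
      field_simp
    rw [e1]
    exact h7
  · rw [← mul_assoc]
    linarith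

/-- the radius `r0 = (G b)^8` tends to zero -/
theorem num_r0 {G : ℝ} {P : ℝ → Prop} (hG : 1 ≤ G) (hP : ∀ᶠ r : ℝ in 𝓝[>] 0, P r) :
    ∀ᶠ b : ℝ in 𝓝[>] 0, P ((G * b) ^ 8) := by
  have h1 : Tendsto (fun b : ℝ => (G * b) ^ 8) (𝓝[>] 0) (𝓝[>] 0) := by
    rw [tendsto_nhdsWithin_iff]
    refine ⟨?_, ?_⟩
    · have h2 : Tendsto (fun b : ℝ => (G * b) ^ 8) (𝓝 0) (𝓝 ((G * 0) ^ 8)) :=
        (Continuous.tendsto (by fun_prop) 0)
      rw [mul_zero, zero_pow (by norm_num)] at h2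
      exact h2.mono_left nhdsWithin_le_nhds
    · filter_upwards [self_mem_nhdsWithin] with b hb
      have hb0 : 0 < b := hb
      have hG0 : 0 < G := by linarith
      exact pow_pos (mul_pos hG0 hb0) 8
  exact h1.eventually hP

/-- basic consequences used everywhere -/
theorem nm_pos {M K δ G E b θ η bK am Bs r0 : ℝ} (h : Nm M K δ G E b θ η bK am Bs r0) :
    0 < M ∧ 0 < K ∧ 1 ≤ K ∧ 0 < θ ∧ θ ≤ 1 / 256 ∧ 0 < η ∧ η ≤ 1 ∧ 0 < bK ∧ bK ≤ b ∧ 0 < am ∧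
      am ≤ bK ∧ 0 < Bs ∧ 0 < r0 ∧ θ * (8 + 12 * K * M ^ 6 + 8 * K * E) ≤ 1 := by
  have hM16 := h.hM
  have hM0 : 0 < M := by linarith
  have hM1 : 1 ≤ M := by linarith
  have hE1 := h.hE
  have hE0 : 0 < E := by linarith
  have hM10 : (1 : ℝ) ≤ M ^ 10 := one_le_pow₀ hM1
  have hK1 : 1 ≤ K := hM10.trans h.hK
  have hK0 : 0 < K := by linarith
  have hKM : 16 * M ^ 6 * 16 ≤ K := by
    refine le_trans ?_ h.hK
    have h1 : (16 : ℝ) ^ 4 ≤ M ^ 4 := pow_le_pow_left₀ (by norm_num) hM16 4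
    have h2 : M ^ 10 = M ^ 6 * M ^ 4 := by ring
    rw [h2]
    have h3 : 0 ≤ M ^ 6 := by positivity
    nlinarith
  have hM6 : 1 ≤ M ^ 6 := one_le_pow₀ hM1
  have hK256 : 256 ≤ K := by nlinarith
  have hKE : 0 < K ^ 2 * E := by positivity
  have hθ0 : 0 < θ := by
    rw [h.eθ]
    positivity
  have hη0 : 0 < η := by
    rw [h.eη]
    positivity
  have hη1 : η ≤ 1 := by
    rw [h.eη, div_le_one (by positivity)]
    exact hM6
  have hKE1 : 256 ≤ K ^ 2 * E := by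
    have h1 : K * 1 ≤ K * K := mul_le_mul_of_nonneg_left hK1 hK0.le
    have h2 : K ^ 2 * 1 ≤ K ^ 2 * E := mul_le_mul_of_nonneg_left hE1 (by positivity)
    nlinarith
  have hθ1 : θ ≤ 1 / 256 := by
    rw [h.eθ]
    exact one_div_le_one_div_of_le (by norm_num) hKE1
  have hb := h.hb
  have hbK0 : 0 < bK := by
    rw [h.ebK]
    positivity
  have hbKb : bK ≤ b := by
    rw [h.ebK, div_le_iff₀ (by positivity)]
    have h1 : 1 ≤ 2 * M ^ 2 := by nlinarith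
    have h2 : θ * b ≤ 1 * b := mul_le_mul_of_nonneg_right (by linarith) hb.le
    nlinarith
  have ham0 : 0 < am := by
    rw [h.eam]
    positivity
  have ham1 : am ≤ bK := by
    rw [h.eam]
    exact mul_le_of_le_one_left hbK0.le hη1
  have hBs0 : 0 < Bs := by
    rw [h.eBs]
    positivity
  have hr0 : 0 < r0 := by
    have hG := h.hG
    have hG0 : 0 < G := by linarith
    rw [h.er]
    positivity
  refine ⟨hM0, hK0, hK1, hθ0, hθ1, hη0, hη1, hbK0, hbKb, ham0, ham1, hBs0, hr0, ?_⟩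
  rw [h.eθ, div_mul_eq_mul_div, one_mul, div_le_one hKE]
  have h1 : 8 ≤ K * (1 * 1) := by nlinarith
  have h2 : K * (12 * M ^ 6) ≤ K * K := mul_le_mul_of_nonneg_left (by nlinarith) hK0.le
  have h3 : 256 * (K * E) ≤ K * (K * E) := mul_le_mul_of_nonneg_right hK256 (by positivity)
  have h4 : K * K * 1 ≤ K * K * E := mul_le_mul_of_nonneg_left hE1 (by positivity)
  have h5 : 4 * (12 * K * M ^ 6) ≤ K * (K * E) := by
    have h6 : K * (4 * (12 * M ^ 6)) ≤ K * K := mul_le_mul_of_nonneg_left (by nlinarith) hK0.le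
    nlinarith
  have h7 : K * 1 ≤ K * E := mul_le_mul_of_nonneg_left hE1 hK0.le
  nlinarith

end Pool.Agent.H91.SF
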