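import Pool.Agent.H91.SF.FRZU
import Pool.Agent.H91.SF.NUM

/-!
# Module LIM: the limit parameter

PROOF. `t m` is a Cauchy sequence (`‖t (m+1) - t m‖ ≤ θ^m r0 / 2`, `θ ≤ 1/256`), with limit `t'`, and `‖t' - t m‖ ≤ θ^m r0 (1/2) / (1 - θ) ≤ θ^m r0` (`dist_le_of_le_geometric_of_tendsto` with `C = r0/2`, or prove that the closed balls are nested: `closedBall (t (m+1)) (θ^(m+1) r0) ⊆ closedBall (t m) (θ^m r0)`). So `t' ∈ closedBall (t m) (θ^m r0)` for all `m`, in particular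
`‖t'‖ ≤ r0` (`sub` at `m = 0`) and `t' ≠ e m`. Fix `c ∈ C`. `Frz` at the base `t m`, time `n m c`: `ph t' (n m c) ≥ (3/4) ph (t m) (n m c) ≥ (3/4) bK / (θ^m r0)` (`siz`, `bK ≤ b`). Let `N` be the bound of the steps, `N ≥ 1`, `q = (1/θ)^(1/N) > 1` (`Real.rpow`, or any `q > 1` with `q^N ≤ 1/θ`, e.g. `q = 1 + (1/θ - 1) / (something)`).
For every `k` there is `m` with `k ≤ n m c ≤ k + N + n 0 c` (`m = 0` if `k ≤ n 0 c`; otherwise the first `m` with `k ≤ n m c`). Then `ph_back`: `ph t' (n m c) ≤ ph t' k * M^(N + n 0 c)` and `k ≤ n m c ≤ n 0 c + N m` gives `θ^(-m) ≥ q^(N m) ≥ q^(k - n 0 c)`: `ph t' k ≥ κ q^k`,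
`κ = (3/4) (bK / r0) M^-(N + n 0 c) q^-(n 0 c)`.
-/

set_option autoImplicit false

open Finset Filter Topology Metric Set

namespace Pool.Agent.H91.SF

variable {X : Type} {S : Fd X} {C : Finset X} {M K ρ : ℝ}

private theorem lim_nest {θ r0 : ℝ} (hθ : 0 < θ) (hθ1 : θ ≤ 1 / 256) (hr : 0 < r0) {t : ℕ → ℂ}
    (h2 : ∀ m, ‖t (m + 1) - t m‖ ≤ θ ^ m * r0 / 2) :
    ∃ t' : ℂ, ∀ m, t' ∈ closedBall (t m) (θ ^ m * r0) := by
  have h1 : (⋂ m, closedBall (t m) (θ ^ m * r0)).Nonempty := by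
    refine IsCompact.nonempty_iInter_of_sequence_nonempty_isCompact_isClosed _ ?_ ?_ ?_ ?_
    · intro m
      refine closedBall_subset_closedBall' ?_
      rw [dist_eq_norm]
      have h3 := h2 m
      have h4 : 0 < θ ^ m * r0 := by positivity
      have h5 : θ ^ (m + 1) * r0 ≤ θ ^ m * r0 / 2 := by
        rw [pow_succ]
        nlinarith
      linarith
    · intro m
      exact nonempty_closedBall.2 (by positivity)
    · exact isCompact_closedBall _ _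
    · intro m
      exact isClosed_closedBall
  obtain ⟨t', ht'⟩ := h1
  exact ⟨t', fun m => mem_iInter.1 ht' m⟩

private theorem lim_idx {N : ℕ} {n : ℕ → ℕ} (h4 : ∀ m, n m < n (m + 1) ∧ n (m + 1) ≤ n m + N)
    (k : ℕ) : ∃ m, k ≤ n m ∧ n m ≤ k + (N + n 0) ∧ n m ≤ n 0 + (N + 1) * m := by
  classical
  have h1 : ∀ m, m ≤ n m := by
    intro m
    induction m with
    | zero => exact Nat.zero_le _
    | succ m ih =>
      have := (h4 m).1
      omega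
  have h2 : ∀ m, n m ≤ n 0 + (N + 1) * m := by
    intro m
    induction m with
    | zero => simp
    | succ m ih =>
      have h5 := (h4 m).2
      have h6 : (N + 1) * (m + 1) = (N + 1) * m + N + 1 := by ring
      omega
  have hex : ∃ m, k ≤ n m := ⟨k, h1 k⟩
  refine ⟨Nat.find hex, Nat.find_spec hex, ?_, h2 _⟩
  rcases Nat.eq_zero_or_pos (Nat.find hex) with h0 | h0
  · rw [h0]
    omega
  · obtain ⟨m, hm⟩ : ∃ m, Nat.find hex = m + 1 := ⟨Nat.find hex - 1, by omega⟩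
    have h5 : ¬ k ≤ n m := Nat.find_min hex (by omega)
    rw [hm]
    have h6 := (h4 m).2
    omega

private theorem lim_ph {δ G E b θ η bK am Bs r0 : ℝ} (hB : Bas S C M K ρ)
    (hN : Nm M K δ G E b θ η bK am Bs r0) (hr0 : r0 < ρ) {t t' : ℂ} {r : ℝ}
    {n : X → ℕ} (h1 : Stg S C M K δ b bK Bs r0 t r n) (ht' : t' ∈ closedBall t r) {c : X}
    (hc : c ∈ C) : 3 / 4 * (bK / r) ≤ ph S t' (S.F t' c) (n c) := by
  obtain ⟨hM0, hK0, hK1, hθ, hθ1, _, _, hbK, hbKb, _, _, hBs, hr00, _⟩ := nm_pos hN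
  have hr := h1.hr
  have htt : t ∈ closedBall t r := mem_closedBall_self hr.le
  have hin : ∀ s ∈ closedBall t r, s ∈ ball (0 : ℂ) ρ := by
    intro s hs
    have h2 := h1.sub hs
    rw [mem_closedBall, dist_zero_right] at h2
    rw [mem_ball, dist_zero_right]
    linarith
  have hss : 1 + ss S t (S.F t c) (n c) ≤ M := by
    have h2 := h1.ssb c hc t htt
    have h3 : 0 < Bs * r := by positivity
    linarith
  have hf := hB.frz t (hin t htt) c hc (n c) (h1.one c hc) (h1.ps c hc) hss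
  have hlm : 1 ≤ lm S K t (S.F t c) (n c) := one_le_lm hB.a0 hK0.le _ _ _
  have hd : ‖t' - t‖ * lm S K t (S.F t c) (n c) ≤ 1 := by
    refine le_trans (mul_le_mul_of_nonneg_right ?_ (by linarith)) (h1.lmr c hc)
    rw [← dist_eq_norm]
    exact ht'
  have h2 := ((hf t' (hin t' ht') t' (hin t' ht') hd hd (n c) le_rfl).1).1
  refine le_trans ?_ h2
  have h3 : bK ≤ r * ph S t (S.F t c) (n c) := by
    rcases h1.siz c hc with h | h
    · exact hbKb.trans h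
    · exact h.1
  have h4 : bK / r ≤ ph S t (S.F t c) (n c) := by
    rw [div_le_iff₀ hr, mul_comm]
    exact h3
  linarith

theorem lim {δ G E b θ η bK am Bs r0 : ℝ} (hB : Bas S C M K ρ)
    (hN : Nm M K δ G E b θ η bK am Bs r0) (hr0 : r0 < ρ) {N : ℕ} {t e : ℕ → ℂ}
    {n : ℕ → X → ℕ}
    (h1 : ∀ m, Stg S C M K δ b bK Bs r0 (t m) (θ ^ m * r0) (n m))
    (h2 : ∀ m, ‖t (m + 1) - t m‖ ≤ θ ^ m * r0 / 2)
    (h3 : ∀ m, e m ∉ closedBall (t (m + 1)) (θ ^ (m + 1) * r0))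
    (h4 : ∀ m, ∀ c ∈ C, n m c < n (m + 1) c ∧ n (m + 1) c ≤ n m c + N) :
    ∃ t' : ℂ, ‖t'‖ ≤ r0 ∧ (∀ m, t' ≠ e m) ∧
      ∀ c ∈ C, ∃ κ q : ℝ, 0 < κ ∧ 1 < q ∧ ∀ k, κ * q ^ k ≤ ph S t' (S.F t' c) k := by
  obtain ⟨hM0, hK0, hK1, hθ, hθ1, _, _, hbK, hbKb, _, _, hBs, hr00, _⟩ := nm_pos hN
  have hM1 : 1 ≤ M := by linarith [hN.hM]
  obtain ⟨t', ht'⟩ := lim_nest hθ hθ1 hr00 h2
  have hz : ‖t'‖ ≤ r0 := by
    have h5 := (h1 0).sub (ht' 0)
    rwa [mem_closedBall, dist_zero_right] at h5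
  have ht'ρ : t' ∈ ball (0 : ℂ) ρ := by
    rw [mem_ball, dist_zero_right]
    linarith
  refine ⟨t', hz, ?_, ?_⟩
  · intro m hm
    apply h3 m
    rw [← hm]
    exact ht' (m + 1)
  intro c hc
  obtain ⟨q, hq1, hqN⟩ : ∃ q : ℝ, 1 < q ∧ q ^ (N + 1) = 1 / θ := by
    have h5 : 1 < 1 / θ := by
      rw [lt_div_iff₀ hθ]
      linarith
    refine ⟨(1 / θ) ^ (((N + 1 : ℕ) : ℝ)⁻¹), Real.one_lt_rpow h5 (by positivity), ?_⟩
    exact Real.rpow_inv_natCast_pow (by positivity) (by omega)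
  have hq0 : 0 < q := by linarith
  obtain ⟨κ, hκ⟩ : ∃ κ : ℝ, κ = 3 / 4 * (bK / r0) / M ^ (N + n 0 c) / q ^ (n 0 c) := ⟨_, rfl⟩
  have hκ0 : 0 < κ := by rw [hκ]; positivity
  refine ⟨κ, q, hκ0, hq1, fun k => ?_⟩
  obtain ⟨m, hm1, hm2, hm3⟩ := lim_idx (n := fun m => n m c) (fun m => h4 m c hc) k
  obtain ⟨j, hj⟩ := Nat.exists_eq_add_of_le hm1
  have h5 := lim_ph hB hN hr0 (h1 m) (ht' m) hc
  have h6 : ph S t' (S.F t' c) (n m c) ≤ ph S t' (S.F t' c) k * M ^ (N + n 0 c) := by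
    have h7 := ph_back hB ht'ρ (S.F t' c) k j
    have h8 : n m c = k + j := hj
    rw [h8]
    refine h7.trans (mul_le_mul_of_nonneg_left ?_ (ph_nonneg hB.a0 _ _ _))
    refine pow_le_pow_right₀ hM1 ?_
    have h9 : n m c ≤ k + (N + n 0 c) := hm2
    omega
  have h7 : q ^ k ≤ q ^ (n 0 c) * (1 / θ) ^ m := by
    have h8 : n m c ≤ n 0 c + (N + 1) * m := hm3
    have h9 : k ≤ n m c := hm1
    calc q ^ k ≤ q ^ (n 0 c + (N + 1) * m) := pow_le_pow_right₀ hq1.le (h9.trans h8)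
      _ = q ^ (n 0 c) * (1 / θ) ^ m := by rw [pow_add, pow_mul, hqN]
  have h8 : 3 / 4 * (bK / (θ ^ m * r0)) = 3 / 4 * (bK / r0) * (1 / θ) ^ m := by
    rw [one_div_pow]
    field_simp
  rw [h8] at h5
  have h9 : 3 / 4 * (bK / r0) * (1 / θ) ^ m ≤
      ph S t' (S.F t' c) k * M ^ (N + n 0 c) := h5.trans h6
  have h10 : κ * q ^ k ≤ 3 / 4 * (bK / r0) * (1 / θ) ^ m / M ^ (N + n 0 c) := by
    calc κ * q ^ k ≤ κ * (q ^ (n 0 c) * (1 / θ) ^ m) := mul_le_mul_of_nonneg_left h7 hκ0.le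
      _ = 3 / 4 * (bK / r0) * (1 / θ) ^ m / M ^ (N + n 0 c) := by
        rw [hκ]
        field_simp
  refine h10.trans ?_
  rw [div_le_iff₀ (by positivity)]
  exact h9

end Pool.Agent.H91.SF
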