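import Pool.Agent.H91.SF.STG
import Pool.Agent.H91.SF.INI
import Pool.Agent.H91.SF.LIM

/-!
# Module END: the closing theorem

PROOF. Choose `b` small such that `num` holds, `num_r0` for `BlkAll`, for `Gde` (with `R = 1 / r`: `tendsto_inv_nhdsGT_zero`), and for `r0 < min ρ ε`. The hypothesis of `stage` follows from `BlkAll` at `r = r0` with `am` (`n1`, `nm_pos`). `ini` gives the first stage, `stage` is iterated (recursion on pairs `(t, n)`, as a sequence in the subtype of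
`Σ`-data, e.g. `exists_seq` by `Nat.rec` with `Classical.choose`; the radius is `θ^m r0` with `θ * (θ^m r0) = θ^(m+1) r0`), using `e m` at the stage `m`. `lim` gives the parameter, and the hypothesis `he` the infinite orbit (`‖t'‖ ≤ r0 < ρ`).
-/

set_option autoImplicit false

open Finset Filter Topology Metric Set

namespace Pool.Agent.H91.SF

variable {X : Type}

/-- the parameter avoids any given sequence -/
theorem end_all {S : Fd X} {C : Finset X} {M K ρ δ G E : ℝ} (hB : Bas S C M K ρ)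
    (hG : 1 ≤ G) (hE : 1 ≤ E) (hδ : 0 < δ) (hδ1 : δ ≤ 1)
    (hδG : G * δ * (16 * M ^ 2) ^ 2 ≤ 1) (hblk : BlkAll S M δ G E) (hg : Gde S C M K G)
    (e : ℕ → ℂ) {ε : ℝ} (hε : 0 < ε) :
    ∃ t : ℂ, ‖t‖ < ε ∧ t ∈ ball (0 : ℂ) ρ ∧ (∀ m, t ≠ e m) ∧
      ∀ c ∈ C, ∃ κ q : ℝ, 0 < κ ∧ 1 < q ∧ ∀ n, κ * q ^ n ≤ ph S t (S.F t c) n := by
  have e1 := num hB.hM hB.hK hG hE hδ hδ1 hδG
  have e2 := num_r0 hG hblk
  have hg' : ∀ᶠ r : ℝ in 𝓝[>] 0, ∀ c ∈ C, ∃ n, 1 ≤ n ∧ pos S 0 (S.F 0 c) n ∧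
      lm S K 0 (S.F 0 c) n ≤ 1 / r ∧ (1 / r) ^ 7 ≤ (G * ph S 0 (S.F 0 c) n) ^ 8 ∧
      1 + ss S 0 (S.F 0 c) n ≤ M / 2 ∧ 1 / M ≤ S.T 0 c n := by
    have h1 : Tendsto (fun r : ℝ => 1 / r) (𝓝[>] 0) atTop := by
      simp only [one_div]
      exact tendsto_inv_nhdsGT_zero
    exact h1.eventually hg
  have e3 := num_r0 hG hg'
  have hmin : 0 < min ρ ε := lt_min hB.hρ hε
  have hsm : ∀ᶠ r : ℝ in 𝓝[>] 0, r < min ρ ε :=
    nhdsWithin_le_nhds (gt_mem_nhds hmin)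
  have e4 := num_r0 hG hsm
  obtain ⟨b, ⟨⟨⟨θ, η, bK, am, Bs, r0, hN⟩, hb2⟩, hb3⟩, hb4⟩ := (((e1.and e2).and e3).and e4).exists
  rw [← hN.er] at hb2 hb3 hb4
  obtain ⟨L, hL⟩ := hb2
  obtain ⟨hM0, hK0, hK1, hθ, hθ1, hη, hη1, hbK, hbKb, ham, hambK, hBs, hr00, _⟩ := nm_pos hN
  have hr0 : r0 < ρ := hb4.trans_le (min_le_left _ _)
  have hr0ε : r0 < ε := hb4.trans_le (min_le_right _ _)
  obtain ⟨N, hst⟩ := stage hB hN hr0 (L := L) (fun t ht => hL t ht am ham hN.n1)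
  obtain ⟨n0, hn0⟩ := ini hB hN hr0 hb3
  have step : ∀ (m : ℕ) (p : {p : ℂ × (X → ℕ) // Stg S C M K δ b bK Bs r0 p.1 (θ ^ m * r0) p.2}),
      ∃ p' : {p : ℂ × (X → ℕ) // Stg S C M K δ b bK Bs r0 p.1 (θ ^ (m + 1) * r0) p.2},
        ‖p'.1.1 - p.1.1‖ ≤ θ ^ m * r0 / 2 ∧ e m ∉ closedBall p'.1.1 (θ ^ (m + 1) * r0) ∧
        ∀ c ∈ C, p.1.2 c < p'.1.2 c ∧ p'.1.2 c ≤ p.1.2 c + N := by
    rintro m ⟨⟨t, n⟩, hp⟩
    obtain ⟨t', n', h1, h2, h3, h4⟩ := hst t (θ ^ m * r0) n hp (e m)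
    have h5 : θ * (θ ^ m * r0) = θ ^ (m + 1) * r0 := by ring
    rw [h5] at h1 h3
    exact ⟨⟨(t', n'), h1⟩, h2, h3, h4⟩
  choose f hf using step
  obtain ⟨q, hq⟩ : ∃ q : ∀ m : ℕ,
      {p : ℂ × (X → ℕ) // Stg S C M K δ b bK Bs r0 p.1 (θ ^ m * r0) p.2},
      ∀ m, q (m + 1) = f m (q m) :=
    ⟨fun m => Nat.rec (motive := fun m =>
      {p : ℂ × (X → ℕ) // Stg S C M K δ b bK Bs r0 p.1 (θ ^ m * r0) p.2})
      ⟨(0, n0), by rw [pow_zero, one_mul]; exact hn0⟩ (fun m p => f m p) m, fun m => rfl⟩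
  obtain ⟨t', ht1, ht2, ht3⟩ := lim hB hN hr0 (N := N) (t := fun m => (q m).1.1) (e := e)
    (n := fun m => (q m).1.2) (fun m => (q m).2)
    (fun m => by
      rw [hq m]
      exact (hf m (q m)).1)
    (fun m => by
      rw [hq m]
      exact (hf m (q m)).2.1)
    (fun m => by
      rw [hq m]
      exact (hf m (q m)).2.2)
  exact ⟨t', ht1.trans_lt hr0ε, mem_ball_zero_iff.2 (ht1.trans_lt hr0), ht2, ht3⟩

theorem end_main {S : Fd X} {C : Finset X} {M K ρ δ G E : ℝ} (hB : Bas S C M K ρ)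
    (hG : 1 ≤ G) (hE : 1 ≤ E) (hδ : 0 < δ) (hδ1 : δ ≤ 1)
    (hδG : G * δ * (16 * M ^ 2) ^ 2 ≤ 1) (hblk : BlkAll S M δ G E) (hg : Gde S C M K G)
    {c0 : X} {e : ℕ → ℂ} (he : ∀ t ∈ ball (0 : ℂ) ρ, (∀ m, t ≠ e m) →
      (Set.range fun n : ℕ => orb S t c0 n).Infinite) {ε : ℝ} (hε : 0 < ε) :
    ∃ t : ℂ, ‖t‖ < ε ∧ CEall S C c0 t := by
  obtain ⟨t, h1, h2, h3, h4⟩ := end_all hB hG hE hδ hδ1 hδG hblk hg e hε
  exact ⟨t, h1, h4, he t h2 h3⟩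

end Pool.Agent.H91.SF
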