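import Pool.Agent.H70.SF.FDX
import Pool.Agent.H70.SF.CR
import Pool.Agent.H26.SF.BrC
import Pool.Agent.H91.SF.END

/-!
# Module LFD: the closing theorem for the family `t ↦ Tt e t X`: hyperbolic maps near `X`
-/

set_option autoImplicit false

open Filter Topology Metric Set

namespace Pool.Agent.H91.SF

open Pool.H70.SF (CV UU IsU wd JJ Tt NX ND Ph)

variable {d : ℕ}

theorem Tt_near (e : ℂ × ℂ) (X : CV d) {ε : ℝ} (hε : 0 < ε) :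
    ∃ ε1 : ℝ, 0 < ε1 ∧ ∀ t : ℂ, ‖t‖ < ε1 → Tt e t X ∈ ball X ε := by
  have h1 : Continuous fun t : ℂ => X + t • NX e X := by fun_prop
  have h2 : Tendsto (fun t : ℂ => X + t • NX e X) (𝓝 0) (𝓝 X) := by
    have := h1.tendsto 0
    rwa [zero_smul, add_zero] at this
  obtain ⟨ε1, h3, h4⟩ := Metric.eventually_nhds_iff.1 (h2.eventually (ball_mem_nhds X hε))
  exact ⟨ε1, h3, fun t ht => h4 (by rwa [dist_zero_right])⟩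

/-- **Hyperbolic maps near `X`.** -/
theorem lfd (hd : 2 ≤ d) {X : CV d} (hX : ND X) (e : ℂ × ℂ) {C : Finset UU}
    (hC : ∀ c, IsU c → JJ X c = 0 → ∃ c' ∈ C, ∃ z : ℂ, ‖z‖ = 1 ∧ c = z • c'.val)
    {M K ρ δ G E : ℝ} (hB : Bas (Pool.H70.SF.fd e X) C M K ρ)
    (hG : 1 ≤ G) (hE : 1 ≤ E) (hδ : 0 < δ) (hδ1 : δ ≤ 1)
    (hδG : G * δ * (16 * M ^ 2) ^ 2 ≤ 1) (hblk : BlkAll (Pool.H70.SF.fd e X) M δ G E)
    (hg : Gde (Pool.H70.SF.fd e X) C M K G)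
    {c0 : ℂ × ℂ} (hc0 : IsU c0) (hJ0 : JJ X c0 = 0) {ex : ℕ → ℂ}
    (hex : ∀ t ∈ ball (0 : ℂ) ρ, (∀ m, t ≠ ex m) → ∀ n m, n < m →
      wd (Pool.H70.SF.ob (Tt e t X) c0 n) (Pool.H70.SF.ob (Tt e t X) c0 m) ≠ 0)
    {ε : ℝ} (hε : 0 < ε) : ∃ w ∈ ball X ε, Pool.Agent.H79.Par.HypDeg (d := d) w := by
  obtain ⟨ε1, hε1, hnear⟩ := Tt_near e X (half_pos hε)
  obtain ⟨t, ht1, ht2, ht3, ht4⟩ := end_all hB hG hE hδ hδ1 hδG hblk hg ex hε1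
  have hXt : Pool.H26.SF.Nz (Tt e t X) := Pool.H70.SF.ND_all hX e t
  have hce : ∀ c, IsU c → JJ (Tt e t X) c = 0 →
      ∃ κ q : ℝ, 0 < κ ∧ 1 < q ∧ ∀ n, κ * q ^ n ≤ Ph (Tt e t X) c n := by
    intro c hc hJ
    rw [Pool.H70.SF.JJ_Tt] at hJ
    obtain ⟨c', hc', z, hz, rfl⟩ := hC c hc hJ
    obtain ⟨κ, q, hκ, hq, h1⟩ := ht4 c' hc'
    refine ⟨κ, q, hκ, hq, fun n => ?_⟩
    rw [Pool.H70.SF.Ph_smul _ hz, ← Pool.H70.SF.ph_fd hX e t c' n]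
    exact h1 n
  obtain ⟨w, hw1, hw2⟩ := Pool.H26.SF.bridge hd hXt hce
    ⟨c0, hc0, by rw [Pool.H70.SF.JJ_Tt]; exact hJ0, hex t ht2 ht3⟩ (half_pos hε)
  refine ⟨w, ?_, hw2⟩
  have h1 := hnear t ht1
  rw [mem_ball] at hw1 h1 ⊢
  have h2 := dist_triangle w (Tt e t X) X
  linarith

end Pool.Agent.H91.SF
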