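import Pool.Agent.H47.SF.Crn
import Pool.Agent.H47.SF.Bnd
import Pool.Agent.H70.SF.Def

/-!
# Module RGX: the maps in `Good` are regular with the constant `d ^ 5 / 2`
-/

set_option autoImplicit false

open Finset

namespace Pool.Agent.H91.SF

open Pool.H70.SF (CV IsU wd JJ aa Rg BN2 n2 FF)
open Pool.Agent.H47.SF (Good Sz qq nuF)

variable {d : ℕ}

theorem rg_of {n1 : ℕ} {R : ℝ} {X : CV d} (G : Good n1 R X) (S : Sz n1 d R)
    (hnrm : BN2 X ≤ ((d : ℝ) ^ 5 / 2) ^ 2) : Rg ((d : ℝ) ^ 5 / 2) X := by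
  have hd2 := S.d2
  have hd1 : 1 ≤ d := by omega
  have hR1 := S.R1
  obtain ⟨Q, hQ⟩ : ∃ Q, Q = qq d := ⟨_, rfl⟩
  have hQ8 : 8 ≤ Q := by
    rw [hQ]
    exact le_trans (by norm_num) (le_trans (le_self_pow₀ (show (1 : ℝ) ≤ 4 ^ 2 by norm_num)
      (show 355 ≠ 0 by norm_num)) (le_trans (by rw [← pow_mul]) S.q1))
  have hQd : Q ^ 200 = d := hQ ▸ S.qd
  have hQs : Q ^ 100 = Real.sqrt d := hQ ▸ S.qs
  have hRQ : R ≤ Q := by
    rw [hQ]
    exact (le_self_pow₀ hR1 (by norm_num)).trans S.Rq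
  have hQ0 : 0 < Q := by linarith
  have hd0 : (0 : ℝ) < d := by rw [← hQd]; positivity
  have hdd : (d : ℝ) ^ 5 / 2 = Q ^ 1000 / 2 := by rw [← hQd, ← pow_mul]
  have hMd : (d : ℝ) ≤ (d : ℝ) ^ 5 / 2 := by
    rw [hdd, ← hQd]
    have h1 : Q ^ 1000 = Q ^ 200 * Q ^ 800 := by rw [← pow_add]
    have h2 : (2 : ℝ) ≤ Q ^ 800 := by
      calc (2 : ℝ) ≤ Q := by linarith
        _ ≤ Q ^ 800 := le_self_pow₀ (by linarith) (by norm_num)
    rw [h1]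
    have h3 : 0 < Q ^ 200 := by positivity
    nlinarith
  have hM0 : 0 < (d : ℝ) ^ 5 / 2 := by linarith
  have hM1 : 1 ≤ (d : ℝ) ^ 5 / 2 := by
    have : (2 : ℝ) ≤ d := by exact_mod_cast hd2
    linarith
  refine ⟨hnrm, fun u hu => ?_, fun u hu => ?_, fun u hu => ?_⟩
  · have h1 := G.lo u hu
    have h2 : ((d : ℝ) ^ 5 / 2)⁻¹ ≤ nuF X u := (inv_anti₀ hd0 hMd).trans h1
    have h3 : nuF X u ^ 2 = n2 (FF X u) := Pool.Agent.H47.SF.nuF_sq X u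
    rw [← h3]
    exact pow_le_pow_left₀ (by positivity) h2 2
  · have h1 := G.lo u hu
    have hν : 0 < nuF X u := lt_of_lt_of_le (by positivity) h1
    have h2 := Pool.Agent.H47.SF.bndW hd1 (by linarith) G.hi hu (t := 0) (by simp)
    rw [Pool.Agent.H47.SF.aa_zero_chart X hν] at h2
    have h3 : ((d : ℝ)⁻¹) ^ 2 ≤ nuF X u ^ 2 := pow_le_pow_left₀ (by positivity) h1 2
    have h4 : ‖aa X u‖ * ((d : ℝ)⁻¹) ^ 2 ≤ 8 * R ^ 2 * Real.sqrt d :=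
      (mul_le_mul_of_nonneg_left h3 (norm_nonneg _)).trans h2
    have h5 : ‖aa X u‖ ≤ 8 * R ^ 2 * Real.sqrt d * (d : ℝ) ^ 2 := by
      rw [inv_pow, ← div_eq_mul_inv, div_le_iff₀ (by positivity)] at h4
      exact h4
    refine h5.trans ?_
    rw [hdd, ← hQs, ← hQd]
    have h6 : R ^ 2 ≤ Q ^ 2 := pow_le_pow_left₀ (by linarith) hRQ 2
    calc 8 * R ^ 2 * Q ^ 100 * (Q ^ 200) ^ 2 ≤ Q * Q ^ 2 * Q ^ 100 * (Q ^ 200) ^ 2 := by gcongr
      _ = Q ^ 503 := by ring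
      _ ≤ Q ^ 503 * Q ^ 497 / 2 := by
          have h7 : (2 : ℝ) ≤ Q ^ 497 := by
            calc (2 : ℝ) ≤ Q := by linarith
              _ ≤ Q ^ 497 := le_self_pow₀ (by linarith) (by norm_num)
          have h8 : 0 < Q ^ 503 := by positivity
          nlinarith
      _ = Q ^ 1000 / 2 := by rw [← pow_add]
  · obtain ⟨c, hc, hJ, h1⟩ := Pool.Agent.H47.SF.crit_near G S hu
    refine ⟨c, hc, hJ, h1.trans ?_⟩
    have := norm_nonneg (aa X u)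
    nlinarith

end Pool.Agent.H91.SF
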