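import Pool.Agent.H91.SF.DMB
import Pool.Agent.H91.SF.H34X
import Pool.Agent.H91.SF.RGX
import Pool.Agent.H91.SF.LFD
import Pool.Agent.H84.SF.NumEx
import Pool.Agent.H70.SF.EVC
import Pool.Agent.H26.SF.Exc
import Pool.Agent.H41.RF.Opn
import Pool.Agent.H47.SF.Sze

/-!
# Module FINDET: the deterministic part for one pair `X` and one direction `e`

`T = 3236`, `nb = 4 T + 8`, `K = 64 (d ^ 200) ^ 2`, `N = d ^ N0`, `g = 1 / 24`.
-/

set_option autoImplicit false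

open Finset Filter Topology Metric

namespace Pool.Agent.H91.SF

open Pool.H70.SF (CV UU IsU wd JJ Tt ND Ph Lm al om EvD BN2 n2 FF fd Tt_zero)
open Pool.Agent.H47.SF (Good Sz qq nuF)
open Pool.Agent.H41.RF (Fail Trv)

variable {d : ℕ}

theorem good_mono {n n' : ℕ} {R : ℝ} {X : CV d} (h : n' ≤ n) (G : Good n R X) :
    Good n' R X := by
  refine ⟨G.hi, G.lo, fun c hc hJ => ?_, G.nd⟩
  obtain ⟨s, g, k, h1, h2, h3, h4, h5, h6, h7⟩ := G.es c hc hJ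
  refine ⟨s, g, k, h1, h2, h3, h4, fun l hl => h5 l (by omega), fun l hl => h6 l (by omega), ?_⟩
  refine le_trans ?_ h7
  have : ∑ l ∈ range (n' + 1), (g l + 2 * k l) ≤ ∑ l ∈ range (n + 1), (g l + 2 * k l) :=
    Finset.sum_le_sum_of_subset_of_nonneg (Finset.range_mono (by omega)) fun i _ _ => by
      have := h2 i
      have := h3 i
      positivity
  linarith

/-- derivatives with summable inverses tend to infinity -/
theorem ph_inf {p : ℕ → ℝ} (hp : ∀ l, 0 < p l) {B : ℝ}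
    (hs : ∀ k, ∑ l ∈ range k, (p (l + 1))⁻¹ ≤ B) (B' : ℝ) : ∃ l0, ∀ l, l0 ≤ l → B' < p l := by
  have h1 : Summable fun l => (p (l + 1))⁻¹ :=
    summable_of_sum_range_le (fun l => (inv_pos.2 (hp (l + 1))).le) hs
  have h2 := h1.tendsto_atTop_zero
  have h3 : 0 < (|B'| + 1)⁻¹ := by positivity
  obtain ⟨l0, hl0⟩ := Filter.eventually_atTop.1 (h2.eventually (gt_mem_nhds h3))
  refine ⟨l0 + 1, fun l hl => ?_⟩
  obtain ⟨j, rfl⟩ : ∃ j, l = j + 1 := ⟨l - 1, by omega⟩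
  have h4 := hl0 j (by omega)
  have h5 : |B'| + 1 < p (j + 1) := (inv_lt_inv₀ (hp (j + 1)) (by positivity)).1 h4
  linarith [le_abs_self B']

theorem jj_ne {n : ℕ} {R : ℝ} {X : CV d} (G : Good n R X) (S : Sz n d R) :
    ∃ u, JJ X u ≠ 0 := by
  by_contra hcon
  push Not at hcon
  have hu : IsU ((1, 0) : ℂ × ℂ) := by simp [IsU, n2]
  have h1 := Pool.Agent.H47.SF.f2_ge G S hu (hcon _)
  have h2 : Pool.Agent.H47.SF.Wc X (1, 0) = fun _ => 0 := by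
    funext t
    unfold Pool.Agent.H47.SF.Wc
    rw [hcon, zero_div]
  have h3 : Pool.Agent.H47.SF.f2 X (1, 0) = 0 := by
    unfold Pool.Agent.H47.SF.f2
    rw [h2]
    simp
  rw [h3] at h1
  have h4 : 0 < Real.sqrt d := Real.sqrt_pos.2 (by
    have := S.d2
    exact_mod_cast (by omega : 0 < d))
  linarith

/-- **The deterministic part for one pair and one direction.** -/
theorem findet_aux {T nb N0 n0 d : ℕ} {R : ℝ} (hT : T = 3236) (hnb : nb = 4 * T + 8)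
    (hN0 : (Pool.Agent.H84.SF.Rx 200 406 T (nb + 2) : ℝ) ≤ N0 * (1 / 24 : ℝ) ^ 2)
    (hN0' : 5000 ≤ N0) (hn0 : (N0 + (200 : ℕ) : ℝ) < 1 / 2 * n0) (hnn : nb ≤ n0)
    (hn18 : 18 ≤ n0) (S : Sz nb d R) {X : CV d} {e : ℂ × ℂ} (he : n2 e ≤ 2)
    (hnrm : BN2 X ≤ ((d : ℝ) ^ 5 / 2) ^ 2)
    (hG : ∀ᶠ t : ℂ in 𝓝 0, Good n0 R (Tt e t X)) (hTrv : Trv e 18 X) :
    (Fail (64 * ((d : ℝ) ^ 200) ^ 2) ((d : ℝ) ^ N0) (1 / 24) X →
      ∃ c k, EvD ((d : ℝ) ^ 5) (64 * ((d : ℝ) ^ 200) ^ 2) (1 / 24) (7 * (1 / 24) ^ 2)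
        ((d : ℝ) ^ N0) e X c k) ∧
    (¬ Fail (64 * ((d : ℝ) ^ 200) ^ 2) ((d : ℝ) ^ N0) (1 / 24) X →
      (∀ ε : ℝ, 0 < ε → ∃ w ∈ ball X ε, Pool.Agent.H79.Par.HypDeg (d := d) w) ∧
      ∀ c, IsU c → JJ X c = 0 → ∀ B : ℝ, ∃ l0, ∀ l, l0 ≤ l → B < Ph X c l) := by
  -- sizes
  have h0X : Tt e 0 X = X := Tt_zero e X
  have G0 : Good n0 R X := by
    have := hG.self_of_nhds
    rwa [h0X] at this
  have Gb : Good nb R X := good_mono hnn G0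
  have hd2 := S.d2
  have hd1 : 1 ≤ d := by omega
  have hQ16 : 16 ≤ qq d := le_trans (by norm_num) (le_trans
    (pow_le_pow_right₀ (by norm_num : (1 : ℝ) ≤ 4) (show 2 ≤ 710 by norm_num)) S.q1)
  have hQd : qq d ≤ d := by
    rw [← S.qd]
    exact le_self_pow₀ (by linarith) (by norm_num)
  have hd16 : (16 : ℝ) ≤ d := hQ16.trans hQd
  have hd0 : (0 : ℝ) < d := by linarith
  have hd1' : (1 : ℝ) ≤ d := by linarith
  have hd16' : 16 ≤ d := by exact_mod_cast hd16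
  have hmono : ∀ {i j : ℕ}, i ≤ j → (d : ℝ) ^ i ≤ (d : ℝ) ^ j := fun h =>
    pow_le_pow_right₀ hd1' h
  have hX : ND X := by
    intro u hu
    have h1 := G0.lo u hu
    have h2 : 0 < nuF X u := lt_of_lt_of_le (by positivity) h1
    rw [← Pool.Agent.H47.SF.nuF_sq]
    positivity
  have hRg := rg_of Gb S hnrm
  have hd5 : (16 : ℝ) ^ 5 ≤ (d : ℝ) ^ 5 := pow_le_pow_left₀ (by norm_num) hd16 5
  have hd45 : 65536 * (d : ℝ) ≤ (d : ℝ) ^ 5 := by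
    have h1 : (d : ℝ) ^ 5 = (d : ℝ) ^ 4 * d := by ring
    have h2 : (16 : ℝ) ^ 4 ≤ (d : ℝ) ^ 4 := pow_le_pow_left₀ (by norm_num) hd16 4
    rw [h1]
    refine mul_le_mul_of_nonneg_right ?_ hd0.le
    norm_num at h2 ⊢
    exact h2
  have hdM : (d : ℝ) ≤ (d : ℝ) ^ 5 / 2 := by linarith
  have hM8 : 8 ≤ (d : ℝ) ^ 5 / 2 := by
    norm_num at hd5
    linarith
  have hM0 : 0 < (d : ℝ) ^ 5 / 2 := by linarith
  -- critical points
  obtain ⟨C, hC1, hC2, hC3⟩ := Pool.H70.SF.crit_set hd1 X (jj_ne Gb S)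
  have hCM : (C.card : ℝ) ≤ (d : ℝ) ^ 5 := by
    have h1 : (C.card : ℝ) ≤ ((2 * d : ℕ) : ℝ) := by exact_mod_cast hC1
    push_cast at h1
    linarith
  -- the constants
  obtain ⟨K, hK⟩ : ∃ K : ℝ, K = 64 * ((d : ℝ) ^ 200) ^ 2 := ⟨_, rfl⟩
  have hKq : K ≤ (d : ℝ) ^ 406 := by
    rw [hK, ← pow_mul]
    have h1 : (64 : ℝ) ≤ (d : ℝ) ^ 6 := by
      calc (64 : ℝ) ≤ 16 ^ 6 := by norm_num
        _ ≤ (d : ℝ) ^ 6 := pow_le_pow_left₀ (by norm_num) hd16 6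
    calc 64 * (d : ℝ) ^ (200 * 2) ≤ (d : ℝ) ^ 6 * (d : ℝ) ^ (200 * 2) :=
          mul_le_mul_of_nonneg_right h1 (by positivity)
      _ = (d : ℝ) ^ 406 := by rw [← pow_add]
  have hK80 : ((d : ℝ) ^ 5) ^ 80 ≤ K := by
    rw [hK, ← pow_mul, ← pow_mul]
    have : 0 < (d : ℝ) ^ 400 := by positivity
    norm_num
    linarith
  have hK0 : 0 < K := by rw [hK]; positivity
  rw [← hK]
  obtain ⟨ρ0, hρ0, hGρ⟩ := Metric.eventually_nhds_iff.1 hG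
  obtain ⟨ρ, hρd⟩ : ∃ ρ, ρ = min ρ0 (1 / 8) := ⟨_, rfl⟩
  have hρ : 0 < ρ := by rw [hρd]; exact lt_min hρ0 (by norm_num)
  have hρ8 : ρ ≤ 1 / 8 := by rw [hρd]; exact min_le_right _ _
  have hρρ : ρ ≤ ρ0 := by rw [hρd]; exact min_le_left _ _
  have hGt : ∀ t ∈ ball (0 : ℂ) ρ, Good nb R (Tt e t X) := fun t ht =>
    good_mono hnn (hGρ (lt_of_lt_of_le (mem_ball.1 ht) hρρ))
  have hB := Pool.H70.SF.bas hd2 hM0 hRg he hC3 (M := (d : ℝ) ^ 5) (K := K) (ρ := ρ)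
    (by linarith) (by linarith) (by linarith) hCM hK80 hρ hρ8
  -- `Stat`
  have hθ0 : 0 < ((d : ℝ) ^ T)⁻¹ := by positivity
  have hs : ∀ t ∈ ball (0 : ℂ) ρ,
      Pool.Agent.H84.SF.Stat (Pool.Agent.H84.SF.Dt (fd e X) C t) ((d : ℝ) ^ 200)
        ((d : ℝ) ^ T)⁻¹ := by
    intro t ht
    refine Pool.H70.SF.stat_fd hd2 hM8 hdM hRg he hC2 hC3 ?_ hθ0 ?_ ?_
    · have h1 : 2 * ((d : ℝ) ^ 5 / 2) = (d : ℝ) ^ 5 := by ring
      rw [h1, ← pow_mul]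
      exact hmono (by norm_num)
    · have h1 : 2 * ((d : ℝ) ^ 5 / 2) = (d : ℝ) ^ 5 := by ring
      rw [h1, ← pow_mul, one_div]
      exact inv_anti₀ (by positivity) (hmono (by omega))
    · exact (mem_ball_zero_iff.1 ht).le.trans hρ8
  -- `H3`, `H4`
  have h3 := h3x (by omega) hX G0 e hC2
  have h4 : ∀ t ∈ ball (0 : ℂ) ρ,
      Pool.Agent.H84.SF.H4 (Pool.Agent.H84.SF.Dt (fd e X) C t) (((d : ℝ) ^ T)⁻¹) (qq d)
        (qq d ^ 2) (nb + 2) := fun t ht => h4x (hGt t ht) S (by omega) (by omega) C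
  have hdE : (d : ℝ) ≤ (d : ℝ) ^ 200 := le_self_pow₀ hd1' (by norm_num)
  have hm0 : (2 : ℝ) ^ (nb + 2) ≤ d := by
    calc (2 : ℝ) ^ (nb + 2) ≤ 4 ^ (nb + 2) := pow_le_pow_left₀ (by norm_num) (by norm_num) _
      _ ≤ 4 ^ (nb + 4) := pow_le_pow_right₀ (by norm_num) (by omega)
      _ ≤ qq d := S.q6
      _ ≤ d := hQd
  have hn := Pool.Agent.H84.SF.num_ex (B := (d : ℝ)) (A := K) (κ := 1 / 2) (g := 1 / 24)
    (w := 1) (s := 200) (q := 406) (T := T) (m0 := nb + 2) (n0 := n0) (N0 := N0) (by linarith)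
    hm0 (by rw [hK]) hKq le_rfl (one_le_pow₀ hd1') (by omega) (by norm_num) (by norm_num) hN0 hn0
  obtain ⟨m1, m2, m3⟩ := Pool.Agent.H84.SF.num_more (B := (d : ℝ)) (K := K) (κ := 1 / 2)
    (E3 := d) (s := 200) (q := 406) (p := 5) (e := 1) (T := T) (n1 := 18) (N0 := N0)
    (by linarith) hK0 hKq hd1' (by rw [pow_one]) (by omega) (by norm_num) (by omega) (by omega)
  -- positivity of the derivatives up to the time 18
  have hPh18 : ∀ c, IsU c → JJ X c = 0 → 0 < Ph X c 18 := by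
    intro c hc hJ
    have h1 := es_prod hd1 G0 hc hJ (l := 0) (j := 18) (by omega)
    simp only [zero_add] at h1
    exact lt_of_lt_of_le (Real.rpow_pos_of_pos hd0 _) h1
  have hTq : ∀ q ∈ C, 1 / (d : ℝ) ^ 5 + 2 * ((d : ℝ) / ((d : ℝ) ^ (1 / 2 : ℝ)) ^ 18 +
      4 / √((d : ℝ) ^ N0)) ≤ (fd e X).T 0 q 18 := by
    intro q hq
    have h1 := hTrv q.val q.prop (hC2 q hq)
    have h2 := hPh18 q.val q.prop (hC2 q hq)
    have h3 : Ph (Tt e 0 X) q.val 18 ≠ 0 := by rw [h0X]; exact h2.ne'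
    rw [Pool.H70.SF.T_fd e 0 q h3, h0X, le_div_iff₀ h2]
    have h5 : 1 / (d : ℝ) ^ 5 + 1 / (d : ℝ) ^ 5 ≤ ((d : ℝ) ^ 4)⁻¹ := by
      rw [← add_div, div_le_iff₀ (by positivity)]
      have h6 : ((d : ℝ) ^ 4)⁻¹ * (d : ℝ) ^ 5 = d := by field_simp
      rw [h6]
      linarith
    calc (1 / (d : ℝ) ^ 5 + 2 * ((d : ℝ) / ((d : ℝ) ^ (1 / 2 : ℝ)) ^ 18 +
          4 / √((d : ℝ) ^ N0))) * Ph X q.val 18 ≤ ((d : ℝ) ^ 4)⁻¹ * Ph X q.val 18 := by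
          refine mul_le_mul_of_nonneg_right ?_ h2.le
          linarith
      _ ≤ ‖om e X q.val 18‖ := h1.le
  have hBA := dmb hB hs h3 h4 hdE (hQd.trans hdE) hn le_rfl (by nlinarith)
    (by linarith) (by linarith) hn18 m2 hTq
  constructor
  · -- a failure gives the event
    rintro ⟨c, k, hc, hJ, hnz, hN, hbad⟩
    rcases hBA with ⟨q, k', hev⟩ | ⟨hba, -⟩
    · exact ⟨q.val, k', Pool.H70.SF.evd_of hX hC2 hev⟩
    · exfalso
      obtain ⟨c', hc', z, hz, rfl⟩ := hC3 c hc hJ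
      rw [Pool.H70.SF.Lm_smul K X hz] at hN hbad
      rw [Pool.H70.SF.norm_al_smul X hz] at hbad
      have h1 := hba c' hc' k
      rw [Pool.H70.SF.lm_fd hX e K 0 c' k, Pool.H70.SF.a_fd hX e 0 c' k, h0X] at h1
      have h2 := h1 hN
      linarith
  · intro hnf
    rcases hBA with ⟨q, k', hev⟩ | ⟨-, hpos, hT1, hss, E', hE', hblk, hgde⟩
    · exfalso
      obtain ⟨h1, h2, -, h4', -, -, -, -, -⟩ := Pool.H70.SF.evd_of hX hC2 hev
      have h11 := hev.lam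
      have h12 := hev.sml
      rw [Pool.H70.SF.lm_fd hX e K 0 q k', h0X] at h11 h12
      rw [Pool.H70.SF.a_fd hX e 0 q k', h0X] at h12
      exact hnf ⟨q.val, k', h1, h2, h4', h11, h12⟩
    · -- derivatives tend to infinity
      have hinfC : ∀ q ∈ C, ∀ B : ℝ, ∃ l0, ∀ l, l0 ≤ l → B < Ph X q.val l := by
        intro q hq
        have h1 : ∀ l, 0 < Ph X q.val l := by
          intro l
          have h2 := Pool.H70.SF.ph_fd hX e 0 q l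
          rw [h0X] at h2
          rw [← h2]
          exact ph_pos fun j _ => hpos q hq j
        refine ph_inf h1 (B := (d : ℝ) + 4) fun k => ?_
        have h2 := hss q hq k
        unfold ss at h2
        refine le_trans (le_of_eq ?_) h2
        refine Finset.sum_congr rfl fun l _ => ?_
        rw [Pool.H70.SF.ph_fd hX e 0 q (l + 1), h0X]
      have hinf : ∀ c, IsU c → JJ X c = 0 → ∀ B : ℝ, ∃ l0, ∀ l, l0 ≤ l → B < Ph X c l := by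
        intro c hc hJ B
        obtain ⟨c', hc', z, hz, rfl⟩ := hC3 c hc hJ
        obtain ⟨l0, hl0⟩ := hinfC c' hc' B
        refine ⟨l0, fun l hl => ?_⟩
        rw [Pool.H70.SF.Ph_smul X hz]
        exact hl0 l hl
      refine ⟨fun ε hε => ?_, hinf⟩
      -- a critical point
      obtain ⟨c1, hc1, hJ1, -⟩ := Pool.Agent.H47.SF.crit_near Gb S
        (show IsU ((1, 0) : ℂ × ℂ) by simp [IsU, n2])
      obtain ⟨q, hq, z, hz, -⟩ := hC3 c1 hc1 hJ1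
      have hub : ∀ B : ℝ, ∃ l, B < ‖om e X q.val l‖ := by
        intro B
        obtain ⟨l0, hl0⟩ := hinfC q hq (|B| * (d : ℝ) ^ 5)
        obtain ⟨l, hl⟩ : ∃ l, l = max l0 18 := ⟨_, rfl⟩
        have h1 := hl0 l (hl ▸ le_max_left _ _)
        have h2 := hT1 q hq l (hl ▸ le_max_right _ _)
        have hP : 0 < Ph X q.val l := lt_of_le_of_lt (by positivity) h1
        have hP' : Ph (Tt e 0 X) q.val l ≠ 0 := by rw [h0X]; exact hP.ne'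
        rw [Pool.H70.SF.T_fd e 0 q hP', h0X, le_div_iff₀ hP] at h2
        refine ⟨l, ?_⟩
        have h3' : |B| < 1 / (d : ℝ) ^ 5 * Ph X q.val l := by
          rw [div_mul_eq_mul_div, one_mul, lt_div_iff₀ (by positivity)]
          exact h1
        linarith [le_abs_self B]
      obtain ⟨ex, hex⟩ := Pool.H26.SF.exc hd1 hX e q.prop hub
      obtain ⟨G, hGd⟩ : ∃ G : ℝ, G = 100 * (K * (d : ℝ) ^ 200 /
        ((d : ℝ) ^ (2 * 200 + 406 + 1))⁻¹) ^ 2 := ⟨_, rfl⟩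
      rw [← hGd] at m1 hblk hgde
      have hG1 : 1 ≤ G := by
        rw [hGd, div_inv_eq_mul]
        have h1 : 1 ≤ K * (d : ℝ) ^ 200 * (d : ℝ) ^ (2 * 200 + 406 + 1) := by
          have h2 : 1 ≤ K := by
            rw [hK]
            have : 1 ≤ ((d : ℝ) ^ 200) ^ 2 := one_le_pow₀ (one_le_pow₀ hd1')
            linarith
          exact one_le_mul_of_one_le_of_one_le (one_le_mul_of_one_le_of_one_le h2
            (one_le_pow₀ hd1')) (one_le_pow₀ hd1')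
        have h3' : 1 ≤ (K * (d : ℝ) ^ 200 * (d : ℝ) ^ (2 * 200 + 406 + 1)) ^ 2 :=
          one_le_pow₀ h1
        linarith
      exact lfd hd2 hX e hC3 hB hG1 hE' hθ0 (inv_le_one_of_one_le₀ (one_le_pow₀ hd1')) m1 hblk
        hgde q.prop (hC2 q hq) (fun t _ ht => hex t ht) hε

/-- **The deterministic part on an open set.** -/
theorem findet : ∃ n0 N0 : ℕ, 18 ≤ n0 ∧ 5000 ≤ N0 ∧ ∃ d0 : ℕ, ∀ d ≥ d0, ∀ R : ℝ, 1 ≤ R →
    R ^ 10 ≤ qq d → ∀ (e : ℂ × ℂ), n2 e ≤ 2 → ∀ W : Set (CV d), IsOpen W →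
    (∀ Y ∈ W, BN2 Y ≤ ((d : ℝ) ^ 5 / 2) ^ 2 ∧ Good n0 R Y ∧ Trv e 18 Y) → ∀ X ∈ W,
    (Fail (64 * ((d : ℝ) ^ 200) ^ 2) ((d : ℝ) ^ N0) (1 / 24) X →
      ∃ c k, EvD ((d : ℝ) ^ 5) (64 * ((d : ℝ) ^ 200) ^ 2) (1 / 24) (7 * (1 / 24) ^ 2)
        ((d : ℝ) ^ N0) e X c k) ∧
    (¬ Fail (64 * ((d : ℝ) ^ 200) ^ 2) ((d : ℝ) ^ N0) (1 / 24) X →
      (∀ ε : ℝ, 0 < ε → ∃ w ∈ ball X ε, Pool.Agent.H79.Par.HypDeg (d := d) w) ∧
      ∀ c, IsU c → JJ X c = 0 → ∀ B : ℝ, ∃ l0, ∀ l, l0 ≤ l → B < Ph X c l) := by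
  obtain ⟨T, hT⟩ : ∃ T : ℕ, T = 3236 := ⟨_, rfl⟩
  obtain ⟨nb, hnb⟩ : ∃ nb : ℕ, nb = 4 * T + 8 := ⟨_, rfl⟩
  obtain ⟨r, hr⟩ : ∃ r : ℕ, r = Pool.Agent.H84.SF.Rx 200 406 T (nb + 2) := ⟨_, rfl⟩
  obtain ⟨N0, hN⟩ : ∃ N0 : ℕ, N0 = 576 * r + 5000 := ⟨_, rfl⟩
  obtain ⟨n0, hn⟩ : ∃ n0 : ℕ, n0 = 2 * (N0 + 200) + 1 + nb + 18 := ⟨_, rfl⟩
  obtain ⟨d0, hd0⟩ := Pool.Agent.H47.SF.sz_large nb
  refine ⟨n0, N0, by omega, by omega, d0, fun d hd R hR hRq e he W hW hY X hXW => ?_⟩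
  have hS := hd0 d hd R hR hRq
  obtain ⟨h1, h2, h3⟩ := hY X hXW
  refine findet_aux (n0 := n0) hT hnb ?_ (by omega) ?_ (by omega) (by omega) hS he h1 ?_ h3
  · rw [← hr, hN]
    push_cast
    ring_nf
    have : (0 : ℝ) ≤ r := Nat.cast_nonneg r
    linarith
  · rw [hn]
    push_cast
    have : (0 : ℝ) ≤ nb := Nat.cast_nonneg nb
    linarith
  · have h4 : Continuous fun t : ℂ => Tt e t X := by
      unfold Tt
      fun_prop
    have h5 : Tendsto (fun t : ℂ => Tt e t X) (𝓝 0) (𝓝 X) := by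
      have h6 := h4.tendsto 0
      rwa [Tt_zero] at h6
    filter_upwards [h5.eventually (hW.mem_nhds hXW)] with t ht
    exact (hY _ ht).2.1

end Pool.Agent.H91.SF
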