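import Pool.Agent.H26.SF.BrC
import Pool.Agent.H41.RF.Natt

/-!
# Module NATTX: a critical point whose critical value has derivatives tending to infinity is not attracted
-/

set_option autoImplicit false

open Filter Topology Metric Set

namespace Pool.Agent.H91.SF

open Pool.H70.SF (CV IsU wd JJ Ph)
open Pool.Agent.H79.Par (Rf)
open Pool.Agent.H32.BT (Att att_iter)
open Pool.H26.SF (Nz pr)

variable {d : ℕ}

theorem nattx (hd : 2 ≤ d) {X : CV d} (h : Nz X) {c : ℂ × ℂ} (hc : IsU c)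
    (hg : ∀ B : ℝ, ∃ l0, ∀ l, l0 ≤ l → B < Ph X c l) : ¬ Att (Rf X) (pr c) := by
  intro hatt
  have hcont : Continuous (Rf X) := Pool.Agent.H44.Fatou.rat_continuous h.coprime
  have hv : Att (Rf X) (Rf X (pr c)) := (att_iter hcont (pr c) 1).2 hatt
  obtain ⟨B, n, K, hn, hB, hlip⟩ := Pool.Agent.H41.RF.att_lip h.coprime
    (by rw [h.deg]; exact hd) hv
  obtain ⟨l0, hl0⟩ := hg (2 * B)
  have h1 : l0 ≤ n * l0 + K := by nlinarith
  have h2 := hl0 _ h1
  have h3 := h.ce_aux (by omega) hc (n * l0 + K) (1 / 2) (by norm_num) (by norm_num)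
  have h4 := hlip l0
  have h5 : ∃ᶠ y in 𝓝 (Rf X (pr c)), y ≠ Rf X (pr c) := by
    have : (𝓝[≠] (Rf X (pr c))).NeBot := inferInstance
    exact (frequently_mem_iff_neBot.2 this)
  obtain ⟨y, hy, h6, h7⟩ := (h5.and_eventually (h3.and h4)).exists
  rw [Pool.H26.SF.chord_eq', Pool.H26.SF.chord_eq'] at h7
  have h8 : 0 < Pool.Agent.H91.Fatou.chord (Rf X (pr c)) y :=
    lt_of_le_of_ne (Pool.Agent.H91.Fatou.chord_nonneg _ _) fun h0 =>
      hy (Pool.Agent.H91.Fatou.chord_eq_zero h0.symm).symm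
  have h9 : 1 / 2 * Ph X c (n * l0 + K) * Pool.Agent.H91.Fatou.chord (Rf X (pr c)) y ≤
      B * Pool.Agent.H91.Fatou.chord (Rf X (pr c)) y := h6.trans h7
  have h10 := le_of_mul_le_mul_right h9 h8
  linarith

end Pool.Agent.H91.SF
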