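import Pool.Agent.H91.SF.DMB3

/-!
# Module FIN3: the deterministic part with general hypotheses (for the sharp exponent)

`Win`: window products along the critical orbits up to the time `n0`; `Blo`: blocks outside the deep set. `T = 3236`, `K = 64 (d ^ 200) ^ 2`,
`N = d ^ N0`, `g = 1 / 24`; loss `d ^ 10` allowed in `Win`, `d ^ 5` in `Blo`, growth `d ^ κ` per step in `Win` with any `κ > 0`; the sums of the inverse
derivatives up to the time `n1` are at most `d ^ 4`.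
-/

set_option autoImplicit false

open Finset Filter Topology Metric

namespace Pool.Agent.H91.SF

open Pool.H70.SF (CV UU IsU wd JJ Tt ND Ph Lm al om EvD BN2 n2 FF fd Tt_zero aa Rg a_fd ob)
open Pool.Agent.H47.SF (fS)
open Pool.Agent.H41.RF (Fail Trv)

variable {d : ℕ}

/-- growth over all windows of the first `n0` points of the critical orbits -/
structure Win (n0 : ℕ) (E K : ℝ) (X : CV d) : Prop where
  lo : ∀ c, IsU c → JJ X c = 0 → ∀ l ≤ n0, 1 / E ≤ ‖al X c l‖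
  wi : ∀ c, IsU c → JJ X c = 0 → ∀ l j, l + j ≤ n0 → K ^ j / E ≤ ∏ i ∈ range j, ‖al X c (l + i)‖

/-- blocks of length at most `m0` outside the deep set `a < θ` -/
def Blo (m0 : ℕ) (θ E K : ℝ) (X : CV d) : Prop :=
  ∀ u : UU, θ ≤ ‖aa X u.val‖ → ∃ m, 1 ≤ m ∧ m ≤ m0 ∧
    (∀ i < m, θ ≤ ‖aa X ((fS X)^[i] u).val‖) ∧
    (K ≤ ∏ i ∈ range m, ‖aa X ((fS X)^[i] u).val‖ ∨
      (1 / E ≤ ∏ i ∈ range m, ‖aa X ((fS X)^[i] u).val‖ ∧ ‖aa X ((fS X)^[m] u).val‖ < θ))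

/-- the sums of the inverse derivatives up to the time `n1` -/
def Sm1 (n1 : ℕ) (B : ℝ) (X : CV d) : Prop :=
  ∀ c, IsU c → JJ X c = 0 → ∑ l ∈ Ico 1 (n1 + 1), 1 / Ph X c l ≤ B

theorem blo_h4 {m0 : ℕ} {θ E K : ℝ} {X : CV d} {e : ℂ × ℂ} {t : ℂ} (hE : 1 ≤ E)
    (hK : 2 ^ m0 ≤ K) (h : Blo m0 θ E K (Tt e t X)) (C : Finset UU) :
    Pool.Agent.H84.SF.H4 (Pool.Agent.H84.SF.Dt (fd e X) C t) θ E K m0 :=
  ⟨hE, hK, h⟩

theorem win_h3 {n0 : ℕ} {E K : ℝ} {X : CV d} (hX : ND X) (hE : 1 ≤ E) (hK : 2 ≤ K)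
    (h : Win n0 E K X) (e : ℂ × ℂ) {C : Finset UU} (hCz : ∀ c ∈ C, JJ X c.val = 0) :
    Pool.Agent.H84.SF.H3 (Pool.Agent.H84.SF.Dt (fd e X) C 0) E K n0 := by
  have ha : ∀ q : UU, ∀ l, (fd e X).a 0 (((fd e X).F 0)^[l] ((fd e X).F 0 q)) =
      ‖al X q.val l‖ := by
    intro q l
    have h1 := a_fd hX e 0 q l
    rw [Tt_zero] at h1
    exact h1
  refine ⟨hE, hK, ?_, ?_⟩
  · rintro v ⟨q, hq, rfl⟩ l hl
    show 1 / E ≤ (fd e X).a 0 (((fd e X).F 0)^[l] ((fd e X).F 0 q))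
    rw [ha]
    exact h.lo q.val q.prop (hCz q hq) l hl
  · rintro v ⟨q, hq, rfl⟩ l j hlj
    have h2 : Pool.Agent.H84.SF.Ph (Pool.Agent.H84.SF.Dt (fd e X) C 0) j
        ((Pool.Agent.H84.SF.Dt (fd e X) C 0).f^[l] ((fd e X).F 0 q)) =
        ∏ i ∈ range j, ‖al X q.val (l + i)‖ := by
      unfold Pool.Agent.H84.SF.Ph
      refine Finset.prod_congr rfl fun i _ => ?_
      rw [← Function.iterate_add_apply, add_comm i l]
      exact ha q (l + i)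
    rw [h2]
    exact h.wi q.val q.prop (hCz q hq) l j hlj

/-- derivatives with summable inverses tend to infinity -/
theorem ph_inf3 {p : ℕ → ℝ} (hp : ∀ l, 0 < p l) {B : ℝ}
    (hs : ∀ k, ∑ l ∈ range k, (p (l + 1))⁻¹ ≤ B) (B' : ℝ) : ∃ l0, ∀ l, l0 ≤ l → B' < p l := by
  have h1 : Summable fun l => (p (l + 1))⁻¹ :=
    summable_of_sum_range_le (fun l => (inv_pos.2 (hp (l + 1))).le) hs
  have h2 := h1.tendsto_atTop_zero
  have h3 : 0 < (|B'| + 1)⁻¹ := by positivity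
  obtain ⟨l0, hl0⟩ := Filter.eventually_atTop.1 (h2.eventually (gt_mem_nhds h3))
  refine ⟨l0 + 1, fun l hl => ?_⟩
  obtain ⟨j, rfl⟩ : ∃ j, l = j + 1 := ⟨l - 1, by omega⟩
  have h4 := hl0 j (by omega)
  have h5 : |B'| + 1 < p (j + 1) := (inv_lt_inv₀ (hp (j + 1)) (by positivity)).1 h4
  linarith [le_abs_self B']

theorem jj_ne3 {n : ℕ} {E K : ℝ} {X : CV d} (hE : 0 < E) (h : Win n E K X) :
    ∃ u, JJ X u ≠ 0 := by
  by_contra hcon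
  push Not at hcon
  have hu : IsU ((1, 0) : ℂ × ℂ) := by simp [IsU, n2]
  have h1 := h.lo _ hu (hcon _) 0 (Nat.zero_le _)
  unfold al aa at h1
  rw [hcon, zero_div, norm_zero] at h1
  have h2 : 0 < 1 / E := by positivity
  linarith

/-- **The deterministic part for one pair and one direction.** -/
theorem fin3_aux {T m0 N0 n0 n1 d : ℕ} {κ : ℝ} (hT : T = 3236)
    (hN0 : (Pool.Agent.H84.SF.Rx 200 406 T m0 : ℝ) ≤ N0 * (1 / 24 : ℝ) ^ 2)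
    (hN0' : 417 + 201 * n1 ≤ N0) (hN0'' : 20 ≤ N0) (hn0 : (N0 + (200 : ℕ) : ℝ) < κ * n0)
    (hκn : (18 : ℝ) ≤ κ * n1) (hnn : n1 ≤ n0) (hd16' : 16 ≤ d)
    (hm0 : (2 : ℝ) ^ m0 ≤ d) (hκd : 2 ≤ (d : ℝ) ^ κ) {X : CV d} {e : ℂ × ℂ} (he : n2 e ≤ 2)
    (hRg : Rg ((d : ℝ) ^ 5 / 2) X) (hW : Win n0 ((d : ℝ) ^ 10) ((d : ℝ) ^ κ) X)
    (hS1 : Sm1 n1 ((d : ℝ) ^ 4) X)
    (hG : ∀ᶠ t : ℂ in 𝓝 0, Blo m0 (((d : ℝ) ^ T)⁻¹) ((d : ℝ) ^ 5) (2 ^ (m0 + 4)) (Tt e t X))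
    (hTrv : Trv e n1 X) :
    (Fail (64 * ((d : ℝ) ^ 200) ^ 2) ((d : ℝ) ^ N0) (1 / 24) X →
      ∃ c k, EvD ((d : ℝ) ^ 5) (64 * ((d : ℝ) ^ 200) ^ 2) (1 / 24) (7 * (1 / 24) ^ 2)
        ((d : ℝ) ^ N0) e X c k) ∧
    (¬ Fail (64 * ((d : ℝ) ^ 200) ^ 2) ((d : ℝ) ^ N0) (1 / 24) X →
      (∀ ε : ℝ, 0 < ε → ∃ w ∈ ball X ε, Pool.Agent.H79.Par.HypDeg (d := d) w) ∧
      ∀ c, IsU c → JJ X c = 0 → ∀ B : ℝ, ∃ l0, ∀ l, l0 ≤ l → B < Ph X c l) := by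
  -- sizes
  have h0X : Tt e 0 X = X := Tt_zero e X
  have hd2 : 2 ≤ d := by omega
  have hd1 : 1 ≤ d := by omega
  have hd16 : (16 : ℝ) ≤ d := by exact_mod_cast hd16'
  have hd0 : (0 : ℝ) < d := by linarith
  have hd1' : (1 : ℝ) ≤ d := by linarith
  have hmono : ∀ {i j : ℕ}, i ≤ j → (d : ℝ) ^ i ≤ (d : ℝ) ^ j := fun h =>
    pow_le_pow_right₀ hd1' h
  have hX : ND X := hRg.nd (by positivity)
  have hd5 : (16 : ℝ) ^ 5 ≤ (d : ℝ) ^ 5 := pow_le_pow_left₀ (by norm_num) hd16 5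
  have hd45 : 65536 * (d : ℝ) ≤ (d : ℝ) ^ 5 := by
    have h1 : (d : ℝ) ^ 5 = (d : ℝ) ^ 4 * d := by ring
    have h2 : (16 : ℝ) ^ 4 ≤ (d : ℝ) ^ 4 := pow_le_pow_left₀ (by norm_num) hd16 4
    rw [h1]
    refine mul_le_mul_of_nonneg_right ?_ hd0.le
    norm_num at h2 ⊢
    exact h2
  have hdM : (d : ℝ) ≤ (d : ℝ) ^ 5 / 2 := by linarith
  have hM8 : 8 ≤ (d : ℝ) ^ 5 / 2 := by
    norm_num at hd5
    linarith
  have hM0 : 0 < (d : ℝ) ^ 5 / 2 := by linarith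
  -- critical points
  obtain ⟨C, hC1, hC2, hC3⟩ := Pool.H70.SF.crit_set hd1 X (jj_ne3 (pow_pos hd0 10) hW)
  have hCM : (C.card : ℝ) ≤ (d : ℝ) ^ 5 := by
    have h1 : (C.card : ℝ) ≤ ((2 * d : ℕ) : ℝ) := by exact_mod_cast hC1
    push_cast at h1
    linarith
  -- the constants
  obtain ⟨K, hK⟩ : ∃ K : ℝ, K = 64 * ((d : ℝ) ^ 200) ^ 2 := ⟨_, rfl⟩
  have hKq : K ≤ (d : ℝ) ^ 406 := by
    rw [hK, ← pow_mul]
    have h1 : (64 : ℝ) ≤ (d : ℝ) ^ 6 := by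
      calc (64 : ℝ) ≤ 16 ^ 6 := by norm_num
        _ ≤ (d : ℝ) ^ 6 := pow_le_pow_left₀ (by norm_num) hd16 6
    calc 64 * (d : ℝ) ^ (200 * 2) ≤ (d : ℝ) ^ 6 * (d : ℝ) ^ (200 * 2) :=
          mul_le_mul_of_nonneg_right h1 (by positivity)
      _ = (d : ℝ) ^ 406 := by rw [← pow_add]
  have hK80 : ((d : ℝ) ^ 5) ^ 80 ≤ K := by
    rw [hK, ← pow_mul, ← pow_mul]
    have : 0 < (d : ℝ) ^ 400 := by positivity
    norm_num
    linarith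
  have hK0 : 0 < K := by rw [hK]; positivity
  rw [← hK]
  obtain ⟨ρ0, hρ0, hGρ⟩ := Metric.eventually_nhds_iff.1 hG
  obtain ⟨ρ, hρd⟩ : ∃ ρ, ρ = min ρ0 (1 / 8) := ⟨_, rfl⟩
  have hρ : 0 < ρ := by rw [hρd]; exact lt_min hρ0 (by norm_num)
  have hρ8 : ρ ≤ 1 / 8 := by rw [hρd]; exact min_le_right _ _
  have hρρ : ρ ≤ ρ0 := by rw [hρd]; exact min_le_left _ _
  have hGt : ∀ t ∈ ball (0 : ℂ) ρ,
      Blo m0 (((d : ℝ) ^ T)⁻¹) ((d : ℝ) ^ 5) (2 ^ (m0 + 4)) (Tt e t X) := fun t ht =>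
    hGρ (lt_of_lt_of_le (mem_ball.1 ht) hρρ)
  have hB := Pool.H70.SF.bas hd2 hM0 hRg he hC3 (M := (d : ℝ) ^ 5) (K := K) (ρ := ρ)
    (by linarith) (by linarith) (by linarith) hCM hK80 hρ hρ8
  -- `Stat`
  have hθ0 : 0 < ((d : ℝ) ^ T)⁻¹ := by positivity
  have hs : ∀ t ∈ ball (0 : ℂ) ρ,
      Pool.Agent.H84.SF.Stat (Pool.Agent.H84.SF.Dt (fd e X) C t) ((d : ℝ) ^ 200)
        ((d : ℝ) ^ T)⁻¹ := by
    intro t ht
    refine Pool.H70.SF.stat_fd hd2 hM8 hdM hRg he hC2 hC3 ?_ hθ0 ?_ ?_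
    · have h1 : 2 * ((d : ℝ) ^ 5 / 2) = (d : ℝ) ^ 5 := by ring
      rw [h1, ← pow_mul]
      exact hmono (by norm_num)
    · have h1 : 2 * ((d : ℝ) ^ 5 / 2) = (d : ℝ) ^ 5 := by ring
      rw [h1, ← pow_mul, one_div]
      exact inv_anti₀ (by positivity) (hmono (by omega))
    · exact (mem_ball_zero_iff.1 ht).le.trans hρ8
  -- `H3`, `H4`
  have hE1 : 1 ≤ (d : ℝ) ^ 10 := one_le_pow₀ hd1'
  have hE5 : 1 ≤ (d : ℝ) ^ 5 := one_le_pow₀ hd1'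
  have h3 := win_h3 hX hE1 hκd hW e hC2
  have h4 : ∀ t ∈ ball (0 : ℂ) ρ,
      Pool.Agent.H84.SF.H4 (Pool.Agent.H84.SF.Dt (fd e X) C t) (((d : ℝ) ^ T)⁻¹) ((d : ℝ) ^ 5)
        (2 ^ (m0 + 4)) m0 := fun t ht => blo_h4 hE5
          (pow_le_pow_right₀ (by norm_num) (by omega)) (hGt t ht) C
  have hdE : (d : ℝ) ^ 10 ≤ (d : ℝ) ^ 200 := hmono (by norm_num)
  have hdE5 : (d : ℝ) ^ 5 ≤ (d : ℝ) ^ 200 := hmono (by norm_num)
  have hn := Pool.Agent.H84.SF.num_ex (B := (d : ℝ)) (A := K) (κ := κ) (g := 1 / 24)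
    (w := 1) (s := 200) (q := 406) (T := T) (m0 := m0) (n0 := n0) (N0 := N0) (by linarith)
    hm0 (by rw [hK]) hKq le_rfl (one_le_pow₀ hd1') (by omega) (by norm_num) (by norm_num) hN0 hn0
  obtain ⟨m1, m2, m3⟩ := Pool.Agent.H84.SF.num_more (B := (d : ℝ)) (K := K) (κ := κ)
    (E3 := (d : ℝ) ^ 10) (s := 200) (q := 406) (p := 5) (e := 10) (T := T) (n1 := n1) (N0 := N0)
    (by linarith) hK0 hKq hE1 le_rfl (by omega) (by norm_num; linarith) (by omega) (by omega)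
  -- positivity of the derivatives up to the time `n1`
  have hPhn : ∀ c, IsU c → JJ X c = 0 → 0 < Ph X c n1 := by
    intro c hc hJ
    have h1 := hW.wi c hc hJ 0 n1 (by omega)
    simp only [zero_add] at h1
    exact lt_of_lt_of_le (by positivity) h1
  have hTq : ∀ q ∈ C, 1 / (d : ℝ) ^ 5 + 2 * ((d : ℝ) ^ 10 / ((d : ℝ) ^ κ) ^ n1 +
      4 / √((d : ℝ) ^ N0)) ≤ (fd e X).T 0 q n1 := by
    intro q hq
    have h1 := hTrv q.val q.prop (hC2 q hq)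
    have h2 := hPhn q.val q.prop (hC2 q hq)
    have h3 : Ph (Tt e 0 X) q.val n1 ≠ 0 := by rw [h0X]; exact h2.ne'
    rw [Pool.H70.SF.T_fd e 0 q h3, h0X, le_div_iff₀ h2]
    have h5 : 1 / (d : ℝ) ^ 5 + 1 / (d : ℝ) ^ 5 ≤ ((d : ℝ) ^ 4)⁻¹ := by
      rw [← add_div, div_le_iff₀ (by positivity)]
      have h6 : ((d : ℝ) ^ 4)⁻¹ * (d : ℝ) ^ 5 = d := by field_simp
      rw [h6]
      linarith
    calc (1 / (d : ℝ) ^ 5 + 2 * ((d : ℝ) ^ 10 / ((d : ℝ) ^ κ) ^ n1 +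
          4 / √((d : ℝ) ^ N0))) * Ph X q.val n1 ≤ ((d : ℝ) ^ 4)⁻¹ * Ph X q.val n1 := by
          refine mul_le_mul_of_nonneg_right ?_ h2.le
          linarith
      _ ≤ ‖om e X q.val n1‖ := h1.le
  have hd54 : 16 * (d : ℝ) ^ 4 ≤ (d : ℝ) ^ 5 := by
    have h1 : (d : ℝ) ^ 5 = d * (d : ℝ) ^ 4 := by ring
    rw [h1]
    exact mul_le_mul_of_nonneg_right hd16 (by positivity)
  have h16 : (16 : ℝ) ≤ 2 ^ (m0 + 4) := by
    calc (16 : ℝ) = 2 ^ 4 := by norm_num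
      _ ≤ 2 ^ (m0 + 4) := pow_le_pow_right₀ (by norm_num) (by omega)
  have hS1' : ∀ q ∈ C, ∑ l ∈ Ico 1 (n1 + 1),
      1 / Pool.Agent.H84.SF.Ph (Pool.Agent.H84.SF.Dt (fd e X) C 0) l ((fd e X).F 0 q) ≤
        (d : ℝ) ^ 4 := by
    intro q hq
    refine le_trans (le_of_eq (sum_congr rfl fun l _ => ?_)) (hS1 q.val q.prop (hC2 q hq))
    have h1 := Pool.H70.SF.ph_fd hX e 0 q l
    rw [h0X] at h1
    rw [← h1]
    rfl
  have hBA := dmb3 (B1 := (d : ℝ) ^ 4) (by positivity) hB hs h3 h4 hdE hdE5 hn le_rfl h16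
    (by linarith) le_rfl hnn hS1' (by
      have : 1 / (d : ℝ) ^ 5 ≤ 1 := by
        rw [div_le_one (by positivity)]
        exact hE5
      linarith) m2 hTq
  constructor
  · -- a failure gives the event
    rintro ⟨c, k, hc, hJ, hnz, hN, hbad⟩
    rcases hBA with ⟨q, k', hev⟩ | ⟨hba, -⟩
    · exact ⟨q.val, k', Pool.H70.SF.evd_of hX hC2 hev⟩
    · exfalso
      obtain ⟨c', hc', z, hz, rfl⟩ := hC3 c hc hJ
      rw [Pool.H70.SF.Lm_smul K X hz] at hN hbad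
      rw [Pool.H70.SF.norm_al_smul X hz] at hbad
      have h1 := hba c' hc' k
      rw [Pool.H70.SF.lm_fd hX e K 0 c' k, Pool.H70.SF.a_fd hX e 0 c' k, h0X] at h1
      have h2 := h1 hN
      linarith
  · intro hnf
    rcases hBA with ⟨q, k', hev⟩ | ⟨-, hpos, hT1, hss, E', hE', hblk, hgde⟩
    · exfalso
      obtain ⟨h1, h2, -, h4', -, -, -, -, -⟩ := Pool.H70.SF.evd_of hX hC2 hev
      have h11 := hev.lam
      have h12 := hev.sml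
      rw [Pool.H70.SF.lm_fd hX e K 0 q k', h0X] at h11 h12
      rw [Pool.H70.SF.a_fd hX e 0 q k', h0X] at h12
      exact hnf ⟨q.val, k', h1, h2, h4', h11, h12⟩
    · -- derivatives tend to infinity
      have hinfC : ∀ q ∈ C, ∀ B : ℝ, ∃ l0, ∀ l, l0 ≤ l → B < Ph X q.val l := by
        intro q hq
        have h1 : ∀ l, 0 < Ph X q.val l := by
          intro l
          have h2 := Pool.H70.SF.ph_fd hX e 0 q l
          rw [h0X] at h2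
          rw [← h2]
          exact ph_pos fun j _ => hpos q hq j
        refine ph_inf3 h1 (B := (d : ℝ) ^ 4 + 4) fun k => ?_
        have h2 := hss q hq k
        unfold ss at h2
        refine le_trans (le_of_eq ?_) h2
        refine Finset.sum_congr rfl fun l _ => ?_
        rw [Pool.H70.SF.ph_fd hX e 0 q (l + 1), h0X]
      have hinf : ∀ c, IsU c → JJ X c = 0 → ∀ B : ℝ, ∃ l0, ∀ l, l0 ≤ l → B < Ph X c l := by
        intro c hc hJ B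
        obtain ⟨c', hc', z, hz, rfl⟩ := hC3 c hc hJ
        obtain ⟨l0, hl0⟩ := hinfC c' hc' B
        refine ⟨l0, fun l hl => ?_⟩
        rw [Pool.H70.SF.Ph_smul X hz]
        exact hl0 l hl
      refine ⟨fun ε hε => ?_, hinf⟩
      -- a critical point
      obtain ⟨c1, hc1, hJ1, -⟩ := hRg.crit (1, 0) (by simp [IsU, n2])
      obtain ⟨q, hq, z, hz, -⟩ := hC3 c1 hc1 hJ1
      have hub : ∀ B : ℝ, ∃ l, B < ‖om e X q.val l‖ := by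
        intro B
        obtain ⟨l0, hl0⟩ := hinfC q hq (|B| * (d : ℝ) ^ 5)
        obtain ⟨l, hl⟩ : ∃ l, l = max l0 n1 := ⟨_, rfl⟩
        have h1 := hl0 l (hl ▸ le_max_left _ _)
        have h2 := hT1 q hq l (hl ▸ le_max_right _ _)
        have hP : 0 < Ph X q.val l := lt_of_le_of_lt (by positivity) h1
        have hP' : Ph (Tt e 0 X) q.val l ≠ 0 := by rw [h0X]; exact hP.ne'
        rw [Pool.H70.SF.T_fd e 0 q hP', h0X, le_div_iff₀ hP] at h2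
        refine ⟨l, ?_⟩
        have h3' : |B| < 1 / (d : ℝ) ^ 5 * Ph X q.val l := by
          rw [div_mul_eq_mul_div, one_mul, lt_div_iff₀ (by positivity)]
          exact h1
        linarith [le_abs_self B]
      obtain ⟨ex, hex⟩ := Pool.H26.SF.exc hd1 hX e q.prop hub
      obtain ⟨G, hGd⟩ : ∃ G : ℝ, G = 100 * (K * (d : ℝ) ^ 200 /
        ((d : ℝ) ^ (2 * 200 + 406 + 1))⁻¹) ^ 2 := ⟨_, rfl⟩
      rw [← hGd] at m1 hblk hgde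
      have hG1 : 1 ≤ G := by
        rw [hGd, div_inv_eq_mul]
        have h1 : 1 ≤ K * (d : ℝ) ^ 200 * (d : ℝ) ^ (2 * 200 + 406 + 1) := by
          have h2 : 1 ≤ K := by
            rw [hK]
            have : 1 ≤ ((d : ℝ) ^ 200) ^ 2 := one_le_pow₀ (one_le_pow₀ hd1')
            linarith
          exact one_le_mul_of_one_le_of_one_le (one_le_mul_of_one_le_of_one_le h2
            (one_le_pow₀ hd1')) (one_le_pow₀ hd1')
        have h3' : 1 ≤ (K * (d : ℝ) ^ 200 * (d : ℝ) ^ (2 * 200 + 406 + 1)) ^ 2 :=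
          one_le_pow₀ h1
        linarith
      exact lfd hd2 hX e hC3 hB hG1 hE' hθ0 (inv_le_one_of_one_le₀ (one_le_pow₀ hd1')) m1 hblk
        hgde q.prop (hC2 q hq) (fun t _ ht => hex t ht) hε

/-- **The deterministic part on an open set, general form.** For every growth exponent `κ > 0` and every block length `m0`. -/
theorem fin3 (κ : ℝ) (hκ : 0 < κ) (m0 : ℕ) : ∃ n0 n1 N0 : ℕ, 1 ≤ n1 ∧ n1 ≤ n0 ∧ 1000 ≤ N0 ∧
    ∃ d0 : ℕ, ∀ d ≥ d0, ∀ (e : ℂ × ℂ), n2 e ≤ 2 → ∀ W : Set (CV d), IsOpen W →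
    (∀ Y ∈ W, Rg ((d : ℝ) ^ 5 / 2) Y ∧ Win n0 ((d : ℝ) ^ 10) ((d : ℝ) ^ κ) Y ∧
      Sm1 n1 ((d : ℝ) ^ 4) Y ∧ Blo m0 (((d : ℝ) ^ 3236)⁻¹) ((d : ℝ) ^ 5) (2 ^ (m0 + 4)) Y ∧
      Trv e n1 Y) → ∀ X ∈ W,
    (Fail (64 * ((d : ℝ) ^ 200) ^ 2) ((d : ℝ) ^ N0) (1 / 24) X →
      ∃ c k, EvD ((d : ℝ) ^ 5) (64 * ((d : ℝ) ^ 200) ^ 2) (1 / 24) (7 * (1 / 24) ^ 2)
        ((d : ℝ) ^ N0) e X c k) ∧
    (¬ Fail (64 * ((d : ℝ) ^ 200) ^ 2) ((d : ℝ) ^ N0) (1 / 24) X →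
      (∀ ε : ℝ, 0 < ε → ∃ w ∈ ball X ε, Pool.Agent.H79.Par.HypDeg (d := d) w) ∧
      ∀ c, IsU c → JJ X c = 0 → ∀ B : ℝ, ∃ l0, ∀ l, l0 ≤ l → B < Ph X c l) := by
  obtain ⟨T, hT⟩ : ∃ T : ℕ, T = 3236 := ⟨_, rfl⟩
  rw [← hT]
  obtain ⟨r, hr⟩ : ∃ r : ℕ, r = Pool.Agent.H84.SF.Rx 200 406 T m0 := ⟨_, rfl⟩
  obtain ⟨n1, hn1⟩ : ∃ n1 : ℕ, n1 = ⌈18 / κ⌉₊ + 1 := ⟨_, rfl⟩
  have hn1κ : (18 : ℝ) ≤ κ * n1 := by
    have h1 := Nat.le_ceil (18 / κ)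
    rw [div_le_iff₀ hκ] at h1
    rw [hn1]
    push_cast
    nlinarith
  obtain ⟨N0, hN⟩ : ∃ N0 : ℕ, N0 = 576 * r + 201 * n1 + 1000 := ⟨_, rfl⟩
  obtain ⟨n0, hn⟩ : ∃ n0 : ℕ, n0 = ⌈(N0 + 200) / κ⌉₊ + 1 + n1 := ⟨_, rfl⟩
  have hn0κ : (N0 + (200 : ℕ) : ℝ) < κ * n0 := by
    have h1 := Nat.le_ceil ((N0 + 200 : ℝ) / κ)
    rw [div_le_iff₀ hκ] at h1
    rw [hn]
    push_cast
    have : (0 : ℝ) ≤ n1 := Nat.cast_nonneg n1
    nlinarith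
  have h2 : Tendsto (fun d : ℕ => (d : ℝ) ^ κ) atTop atTop :=
    (tendsto_rpow_atTop hκ).comp tendsto_natCast_atTop_atTop
  have h3 : Tendsto (fun d : ℕ => (d : ℝ)) atTop atTop := tendsto_natCast_atTop_atTop
  obtain ⟨d0, hd0⟩ := Filter.eventually_atTop.1 ((h2.eventually_ge_atTop 2).and
    (h3.eventually_ge_atTop (2 ^ m0)))
  refine ⟨n0, n1, N0, by omega, by omega, by omega, max 16 d0,
    fun d hd e he W hW hY X hXW => ?_⟩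
  have hd16 : 16 ≤ d := (le_max_left _ _).trans hd
  obtain ⟨hκd, hm0⟩ := hd0 d ((le_max_right _ _).trans hd)
  obtain ⟨h5, h6, hs1, h7, h8⟩ := hY X hXW
  refine fin3_aux (n0 := n0) (n1 := n1) hT ?_ (by omega) (by omega) hn0κ hn1κ (by omega) hd16
    hm0 hκd he h5 h6 hs1 ?_ h8
  · rw [← hr, hN]
    push_cast
    have : (0 : ℝ) ≤ r := Nat.cast_nonneg r
    have : (0 : ℝ) ≤ n1 := Nat.cast_nonneg n1
    nlinarith
  · have h4 : Continuous fun t : ℂ => Tt e t X := by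
      unfold Tt
      fun_prop
    have h5' : Tendsto (fun t : ℂ => Tt e t X) (𝓝 0) (𝓝 X) := by
      have h6' := h4.tendsto 0
      rwa [Tt_zero] at h6'
    filter_upwards [h5'.eventually (hW.mem_nhds hXW)] with t ht
    exact (hY _ ht).2.2.2.1

end Pool.Agent.H91.SF
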