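import Pool.Agent.H91.SF.ADVD

/-!
# Module ADV: the last time of a stage, at a fixed parameter

PROOF. `StA n0 1 0` holds (`h0`). The first block: `adv_step` at `n0` gives `(n1, w1)` with `StA n1 w1 1`, `n0 < n1`, and `lm n1 ≤ R` by `hL` and `hc` (deep case: `a (lm n1 - lm n0) ≤ 2 K ph n0 ≤ a R / 4`; other case `K E ph n0 ≤ R / 4`). Consider the set of `j` for which there are
`n > n0`, `w` with `StA n w j` and `lm n ≤ R`: it contains `1`, and it is bounded, because `16^j ph n0 ≤ w ph n ≤ M^2 ph n ≤ M^2 lm n ≤ M^2 R` (`ph_le_lm`) and `16^j ≥ j`. Let `j` be the largest one (`Nat.findGreatest` or `Nat.sSup_mem`), with `n`, `w`.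
(1) If `a := a (orb n) < am`: then `a < δ`, third alternative with `a < am`. (2) Otherwise `adv_step` gives `n'` with `StA n' w' (j+1)`; by maximality `lm n' > R`. If `δ ≤ a`: `R < lm n + K E ph n`, so `lm n > R / 2` or `R ≤ 2 K E ph n` (second
alternative). If `a < δ`: either `a R ≤ 4 K ph n` (third alternative) or `4 K ph n < a R`, and then `a (lm n' - lm n) ≤ 2 K ph n < a R / 2` gives `lm n > R / 2`. (3) If `lm n > R / 2`: `R / 2 < lm n ≤ lm n0 + Bc w ph n ≤ R / 4 + Bc M^2 ph n`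
(`Bc = 4 K (E + G) / √am`), so `R √am ≤ 16 K (E + G) M^2 ph n`: first alternative. The other assertions: `ss` from `StA.ssb` (drop the negative term), `16^j ph n0 ≤ w ph n ≤ M^2 ph n`, `ph n0 ≤ 16^j ph n0`.
-/

set_option autoImplicit false

open Finset Filter Topology Metric Set

namespace Pool.Agent.H91.SF

variable {X : Type}

theorem adv {S : Fd X} {C : Finset X} {M K ρ δ G E am : ℝ} (hB : Bas S C M K ρ)
    (hG : 1 ≤ G) (hE : 1 ≤ E) (hδ : 0 < δ) (hδ1 : δ ≤ 1)
    (hδG : G * δ * (16 * M ^ 2) ^ 2 ≤ 1) (ham : 0 < am) (ham1 : am < δ) {t : ℂ}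
    (ht : t ∈ ball (0 : ℂ) ρ) {L : ℕ} (hb : Blk S M δ G E am L t) {x : X} {n0 : ℕ}
    (h0 : pos S t x n0) (ha : am ≤ S.a t (orb S t x n0)) {R : ℝ}
    (hL : lm S K t x n0 ≤ R / 4) (hc1 : 8 * K * ph S t x n0 ≤ S.a t (orb S t x n0) * R)
    (hc2 : K * E * ph S t x n0 ≤ R / 4) :
    ∃ n j, n0 < n ∧ pos S t x n ∧ lm S K t x n ≤ R ∧ n ≤ n0 + L * j ∧
      16 ^ j * ph S t x n0 ≤ M ^ 2 * ph S t x n ∧
      ss S t x n ≤ ss S t x n0 + 2 * E * M ^ 2 / am * (ph S t x n0)⁻¹ ∧
      (R * Real.sqrt am ≤ 16 * K * (E + G) * M ^ 2 * ph S t x n ∨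
        R ≤ 2 * K * E * ph S t x n ∨
        (S.a t (orb S t x n) < δ ∧
          (S.a t (orb S t x n) < am ∨ S.a t (orb S t x n) * R ≤ 4 * K * ph S t x n) ∧
          ph S t x n0 ≤ M ^ 2 * ph S t x n ∧
          (S.a t (orb S t x n0) < δ →
            ph S t x n0 ^ 2 ≤ G * S.a t (orb S t x n0) * (M ^ 2 * ph S t x n) ^ 2))) := by
  classical
  have hM := hB.hM
  have hK : 0 < K := lt_of_lt_of_le (by positivity) hB.hK
  have hp0 : 0 < ph S t x n0 := ph_pos h0
  have hM2 : (1 : ℝ) ≤ M ^ 2 := by nlinarith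
  have hs0 : 0 < Real.sqrt am := Real.sqrt_pos.2 ham
  have hG0 : 0 ≤ G := by linarith
  have ha00 : 0 < S.a t (orb S t x n0) := lt_of_lt_of_le ham ha
  have hlm1 : 1 ≤ lm S K t x n0 := one_le_lm hB.a0 hK.le t x n0
  have hR : 4 ≤ R := by linarith
  have hBc : 0 ≤ 4 * K * (E + G) / Real.sqrt am := by positivity
  have hC1 : 0 ≤ 2 * E * M ^ 2 / am := by positivity
  have hst : StA S M K δ G E am L t x n0 n0 1 0 := by
    refine ⟨le_rfl, h0, Or.inl rfl, ?_, ?_, by simp, by simp, fun h => absurd h (lt_irrefl _)⟩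
    · have : 0 ≤ 4 * K * (E + G) / Real.sqrt am * (1 * ph S t x n0) := by positivity
      linarith
    · rw [one_mul, sub_self, mul_zero, add_zero]
  have hww : ∀ {n : ℕ} {w : ℝ} {j : ℕ}, StA S M K δ G E am L t x n0 n w j → 1 ≤ w ∧ w ≤ M ^ 2 := by
    intro n w j h
    rcases h.hw with h1 | h1
    · rw [h1]
      exact ⟨le_rfl, hM2⟩
    · rw [h1.1]
      exact ⟨hM2, le_rfl⟩
  let P : ℕ → Prop := fun j => ∃ n w, n0 < n ∧ StA S M K δ G E am L t x n0 n w j ∧
    lm S K t x n ≤ R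
  have hP1 : P 1 := by
    obtain ⟨n', w', hn', hst', hA, hD⟩ := adv_step hB hG hE hδ hδ1 hδG ham ham1 hb hst ha
    refine ⟨n', w', hn', hst', ?_⟩
    by_cases hy : δ ≤ S.a t (orb S t x n0)
    · have := hA hy
      linarith
    · have h1 := hD (not_le.1 hy)
      have h2 : S.a t (orb S t x n0) * (lm S K t x n' - lm S K t x n0) ≤
          S.a t (orb S t x n0) * (R / 4) := by linarith
      have h3 := le_of_mul_le_mul_left h2 ha00
      linarith
  obtain ⟨B, hBB⟩ := exists_nat_ge (M ^ 2 * R / ph S t x n0)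
  have hPB : ∀ j, P j → j ≤ B := by
    rintro j ⟨n, w, _, hj, hl⟩
    obtain ⟨hw1, hw2⟩ := hww hj
    have hpn : 0 < ph S t x n := ph_pos hj.ps
    have h1 : ph S t x n ≤ R := (ph_le_lm hB ht hj.ps).trans hl
    have h2 : 16 ^ j * ph S t x n0 ≤ M ^ 2 * R := by
      refine hj.gr.trans ?_
      calc w * ph S t x n ≤ M ^ 2 * ph S t x n := mul_le_mul_of_nonneg_right hw2 hpn.le
        _ ≤ M ^ 2 * R := mul_le_mul_of_nonneg_left h1 (by positivity)
    have h3 : (16 : ℝ) ^ j ≤ B := by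
      rw [← le_div_iff₀ hp0] at h2
      exact h2.trans hBB
    have h4 : (j : ℝ) ≤ 16 ^ j := by
      exact_mod_cast (Nat.lt_pow_self (by norm_num : 1 < 16) (n := j)).le
    exact_mod_cast h4.trans h3
  obtain ⟨n, w, hn, hj, hl⟩ := Nat.findGreatest_spec (hPB 1 hP1) hP1
  have hmax : ∀ k, Nat.findGreatest P B < k → ¬ P k := by
    intro k hk hPk
    exact Nat.findGreatest_is_greatest hk (hPB k hPk) hPk
  generalize Nat.findGreatest P B = j at hj hmax
  obtain ⟨hw1, hw2⟩ := hww hj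
  have hpn : 0 < ph S t x n := ph_pos hj.ps
  have hW : w * ph S t x n ≤ M ^ 2 * ph S t x n := mul_le_mul_of_nonneg_right hw2 hpn.le
  have hWp : 0 < w * ph S t x n := mul_pos (by linarith) hpn
  have h16 : 16 ^ j * ph S t x n0 ≤ M ^ 2 * ph S t x n := hj.gr.trans hW
  have h1le : ph S t x n0 ≤ M ^ 2 * ph S t x n := by
    refine le_trans ?_ h16
    exact le_mul_of_one_le_left hp0.le (one_le_pow₀ (by norm_num))
  have hfst : S.a t (orb S t x n0) < δ →
      ph S t x n0 ^ 2 ≤ G * S.a t (orb S t x n0) * (M ^ 2 * ph S t x n) ^ 2 := by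
    intro h
    refine (hj.fst hn h).trans (mul_le_mul_of_nonneg_left (pow_le_pow_left₀ hWp.le hW 2)
      (mul_nonneg hG0 ha00.le))
  refine ⟨n, j, hn, hj.ps, hl, hj.len, h16, ?_, ?_⟩
  · have h1 := hj.ssb
    have h2 : 2 * E * M ^ 2 / am * ((ph S t x n0)⁻¹ - (w * ph S t x n)⁻¹) ≤
        2 * E * M ^ 2 / am * (ph S t x n0)⁻¹ := by
      refine mul_le_mul_of_nonneg_left ?_ hC1
      have : 0 < (w * ph S t x n)⁻¹ := inv_pos.2 hWp
      linarith
    linarith
  · have half : R / 2 < lm S K t x n →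
        R * Real.sqrt am ≤ 16 * K * (E + G) * M ^ 2 * ph S t x n := by
      intro h1
      have h2 := hj.lmb
      have h3 : 4 * K * (E + G) / Real.sqrt am * (w * ph S t x n) ≤
          4 * K * (E + G) / Real.sqrt am * (M ^ 2 * ph S t x n) :=
        mul_le_mul_of_nonneg_left hW hBc
      have h4 : R / 4 ≤ 4 * K * (E + G) / Real.sqrt am * (M ^ 2 * ph S t x n) := by linarith
      have h5 := mul_le_mul_of_nonneg_right h4 hs0.le
      have h6 : 4 * K * (E + G) / Real.sqrt am * (M ^ 2 * ph S t x n) * Real.sqrt am =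
          4 * K * (E + G) * (M ^ 2 * ph S t x n) := by
        field_simp
      rw [h6] at h5
      linarith
    have hamp : 0 < am := ham
    by_cases hsm : S.a t (orb S t x n) < am
    · exact Or.inr (Or.inr ⟨hsm.trans ham1, Or.inl hsm, h1le, hfst⟩)
    · push Not at hsm
      obtain ⟨n', w', hn', hst', hA, hD⟩ := adv_step hB hG hE hδ hδ1 hδG ham ham1 hb hj hsm
      have hRl : R < lm S K t x n' := by
        by_contra hc
        exact hmax (j + 1) (Nat.lt_succ_self j) ⟨n', w', hn.trans hn', hst', not_lt.1 hc⟩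
      by_cases hy : δ ≤ S.a t (orb S t x n)
      · have h1 := hA hy
        by_cases h2 : R / 2 < lm S K t x n
        · exact Or.inl (half h2)
        · refine Or.inr (Or.inl ?_)
          linarith
      · push Not at hy
        have h1 := hD hy
        by_cases h2 : S.a t (orb S t x n) * R ≤ 4 * K * ph S t x n
        · exact Or.inr (Or.inr ⟨hy, Or.inr h2, h1le, hfst⟩)
        · refine Or.inl (half ?_)
          push Not at h2
          have hay : 0 < S.a t (orb S t x n) := lt_of_lt_of_le hamp hsm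
          have h3 : S.a t (orb S t x n) * (lm S K t x n' - lm S K t x n) <
              S.a t (orb S t x n) * (R / 2) := by linarith
          have h4 := lt_of_mul_lt_mul_left h3 hay.le
          linarith

end Pool.Agent.H91.SF
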