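import Pool.Agent.H91.SF.Defs

/-!
# Smoothed Fatou, closing (END): the constants and the stages (definitions)

`b` is small (chosen last, depending on the map), `r0 = (G b)^8` the first radius, `θ` the ratio of the radii of consecutive stages, `η` the constant of the
pigeonhole, `bK` the lower bound of the sizes in a conflict, `am` the lower bound of the depths, `Bs r` the slack at radius `r`.
A stage: base parameter `t`, radius `r`, a time `n c` for each critical point `c`; the size of the orbit of `c` is `r * ph S t (S.F t c) (n c)`; it is at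
least `b`, or (conflict) it is at least `bK` and the point is deep, with derivative at most `4 K` times the size.
-/

set_option autoImplicit false

open Finset Filter Topology Metric Set

namespace Pool.Agent.H91.SF

structure Nm (M K δ G E b θ η bK am Bs r0 : ℝ) : Prop where
  hM : 16 ≤ M
  hK : M ^ 10 ≤ K
  hG : 1 ≤ G
  hE : 1 ≤ E
  hδ : 0 < δ
  hδ1 : δ ≤ 1
  hδG : G * δ * (16 * M ^ 2) ^ 2 ≤ 1
  hb : 0 < b
  hb1 : b ≤ 1
  eθ : θ = 1 / (K ^ 2 * E)
  eη : η = 1 / M ^ 6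
  ebK : bK = θ * b / (2 * M ^ 2)
  eam : am = η * bK
  eBs : Bs = 12 * E * M ^ 2 / (am * bK)
  er : r0 = (G * b) ^ 8
  n1 : r0 ≤ am ^ 4
  n2 : (16 * K * (E + G) * M ^ 2) ^ 2 * b ^ 2 ≤ am
  n3 : 2 * K * E * b ≤ 1
  n4 : (2 * M ^ 2 * K) ^ 2 * G * bK ≤ θ ^ 2
  n5 : 2 * M ^ 2 * K ^ 2 * bK ≤ θ * δ
  n6 : Bs * r0 ≤ 1 / (4 * M)
  n7 : am < δ

variable {X : Type}

structure Stg (S : Fd X) (C : Finset X) (M K δ b bK Bs r0 : ℝ) (t : ℂ) (r : ℝ)
    (n : X → ℕ) : Prop where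
  hr : 0 < r
  sub : closedBall t r ⊆ closedBall 0 r0
  one : ∀ c ∈ C, 1 ≤ n c
  ps : ∀ c ∈ C, pos S t (S.F t c) (n c)
  lmr : ∀ c ∈ C, r * lm S K t (S.F t c) (n c) ≤ 1
  ssb : ∀ c ∈ C, ∀ s ∈ closedBall t r, 1 + ss S s (S.F s c) (n c) ≤ M - Bs * r
  ttb : ∀ c ∈ C, ∀ s ∈ closedBall t r, 1 / (2 * M) + Bs * r ≤ S.T s c (n c)
  siz : ∀ c ∈ C, b ≤ r * ph S t (S.F t c) (n c) ∨
    (bK ≤ r * ph S t (S.F t c) (n c) ∧ S.a t (orb S t (S.F t c) (n c)) < δ ∧
      S.a t (orb S t (S.F t c) (n c)) ≤ 4 * K * (r * ph S t (S.F t c) (n c)))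

end Pool.Agent.H91.SF
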