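import Pool.Agent.H91.SF.ALG
import Pool.Agent.H91.SF.NDefs

/-!
# Module ADVD: blocks at a fixed parameter (definitions and one step)

`StA n w j`: the time `n` is reached from `n0` by `j` blocks, `w = 1`, or `w = M ^ 2` and the point is deep.

PROOF of `adv_step`. Let `y = orb n`. If `δ ≤ a y` then `w = 1`, and `Blk.reg` gives `m`; put `n' = n + m`. If `16 ≤ ph y m`: `w' = 1`. Otherwise `1 ≤ M * ph y m` and the end is deep: `w' = M^2`, `w' ph n' = M^2 ph n ph y m ≥ M ph n ≥ 16 ph n`.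
In both cases `16 (w ph n) ≤ w' ph n'`. `lm n' = lm n + K ph n cl y m ≤ lm n + K E ph n`, and `K E ph n ≤ Bc (w' ph n' - w ph n)` since `w' ph n' - w ph n ≥ 15 ph n` and `Bc ≥ K E` (`Bc = 4 K (E + G) / √am`, `am ≤ 1`).
`ss n' = ss n + (ph n)⁻¹ ss y m ≤ ss n + E / ph n`, and `C1 ((w ph n)⁻¹ - (w' ph n')⁻¹) ≥ C1 (15/16) (w ph n)⁻¹ ≥ E / ph n`, `C1 = 2 E M^2 / am` (`w ≤ M^2`).
If `a y < δ`: `Blk.dee` gives `m`, `n' = n + m`, `w' = 1`. With `Q = ph y m`: `1 ≤ G a Q^2 ≤ G δ Q^2`, so `Q ≥ 16 M^2` by `hδG` and `w' ph n' = ph n Q ≥ 16 M^2 ph n ≥ 16 w ph n`. `K ph n cl ≤ 2 K ph n / a` and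
`ph n ≤ √(G a) ph n'` (square root of `1 ≤ G a Q^2`), so it is `≤ 2 K √G ph n' / √a ≤ 2 K √G / √am * ph n' ≤ Bc * (ph n' - w ph n)` (as `ph n' - w ph n ≥ (15/16) ph n'`, `√G ≤ G`). `ss n' ≤ ss n + (E / a) / ph n ≤ ss n + (E / am) / ph n`, as before.
For `n0 < n` the last field is inherited (`w' ph n' ≥ w ph n`); if `n = n0` (first block) it is `(ph n0)^2 ≤ G a (ph n0 Q)^2`.
-/

set_option autoImplicit false

open Finset Filter Topology Metric Set

namespace Pool.Agent.H91.SF

variable {X : Type}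

structure StA (S : Fd X) (M K δ G E am : ℝ) (L : ℕ) (t : ℂ) (x : X) (n0 : ℕ)
    (n : ℕ) (w : ℝ) (j : ℕ) : Prop where
  ge : n0 ≤ n
  ps : pos S t x n
  hw : w = 1 ∨ (w = M ^ 2 ∧ S.a t (orb S t x n) < δ)
  lmb : lm S K t x n ≤ lm S K t x n0 + 4 * K * (E + G) / Real.sqrt am * (w * ph S t x n)
  ssb : ss S t x n ≤ ss S t x n0 +
    2 * E * M ^ 2 / am * ((ph S t x n0)⁻¹ - (w * ph S t x n)⁻¹)
  len : n ≤ n0 + L * j
  gr : 16 ^ j * ph S t x n0 ≤ w * ph S t x n
  fst : n0 < n → S.a t (orb S t x n0) < δ →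
    ph S t x n0 ^ 2 ≤ G * S.a t (orb S t x n0) * (w * ph S t x n) ^ 2

private theorem advd_core {S : Fd X} {M K δ G E am : ℝ} {L : ℕ} {t : ℂ} {x : X} {n0 n m : ℕ}
    {w w' : ℝ} {j : ℕ} (hw0 : 0 < w)
    (h : StA S M K δ G E am L t x n0 n w j) (hm : m ≤ L) (hp : pos S t (orb S t x n) m)
    (hw' : w' = 1 ∨ (w' = M ^ 2 ∧ S.a t (orb S t (orb S t x n) m) < δ))
    (h16 : 16 * (w * ph S t x n) ≤ w' * (ph S t x n * ph S t (orb S t x n) m))
    (hl : K * ph S t x n * cl S t (orb S t x n) m ≤ 4 * K * (E + G) / Real.sqrt am *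
      (w' * (ph S t x n * ph S t (orb S t x n) m) - w * ph S t x n))
    (hss : (ph S t x n)⁻¹ * ss S t (orb S t x n) m ≤ 2 * E * M ^ 2 / am *
      ((w * ph S t x n)⁻¹ - (w' * (ph S t x n * ph S t (orb S t x n) m))⁻¹))
    (hf : n0 = n → S.a t (orb S t x n) < δ → ph S t x n ^ 2 ≤ G * S.a t (orb S t x n) *
      (w' * (ph S t x n * ph S t (orb S t x n) m)) ^ 2) (hG : 0 ≤ G)
    (ha : 0 ≤ S.a t (orb S t x n0)) :
    StA S M K δ G E am L t x n0 (n + m) w' (j + 1) := by
  have hP : 0 < ph S t x n := ph_pos h.ps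
  refine ⟨h.ge.trans (Nat.le_add_right n m), pos_add h.ps hp, ?_, ?_, ?_, ?_, ?_, ?_⟩
  · rw [orb_add]
    exact hw'
  · rw [lm_add, ph_add]
    have := h.lmb
    linarith
  · rw [ss_add, ph_add]
    have := h.ssb
    linarith
  · have := h.len
    have h1 : L * (j + 1) = L * j + L := by ring
    omega
  · rw [ph_add, pow_succ]
    have := h.gr
    linarith
  · intro _ h2
    rw [ph_add]
    by_cases h3 : n0 = n
    · subst h3
      exact hf rfl h2
    · have h4 := h.fst (lt_of_le_of_ne h.ge h3) h2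
      refine h4.trans (mul_le_mul_of_nonneg_left (pow_le_pow_left₀ (by positivity) ?_ 2)
        (mul_nonneg hG ha))
      have : 0 < w * ph S t x n := mul_pos hw0 hP
      linarith

theorem adv_step {S : Fd X} {C : Finset X} {M K ρ δ G E am : ℝ} (hB : Bas S C M K ρ)
    (hG : 1 ≤ G) (hE : 1 ≤ E) (hδ : 0 < δ) (hδ1 : δ ≤ 1)
    (hδG : G * δ * (16 * M ^ 2) ^ 2 ≤ 1) (ham : 0 < am) (ham1 : am < δ) {t : ℂ} {L : ℕ}
    (hb : Blk S M δ G E am L t) {x : X} {n0 n : ℕ} {w : ℝ} {j : ℕ}
    (h : StA S M K δ G E am L t x n0 n w j) (ha : am ≤ S.a t (orb S t x n)) :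
    ∃ n' w', n < n' ∧ StA S M K δ G E am L t x n0 n' w' (j + 1) ∧
      (δ ≤ S.a t (orb S t x n) → lm S K t x n' ≤ lm S K t x n + K * E * ph S t x n) ∧
      (S.a t (orb S t x n) < δ →
        S.a t (orb S t x n) * (lm S K t x n' - lm S K t x n) ≤ 2 * K * ph S t x n) := by
  have hM := hB.hM
  have hK : 0 < K := lt_of_lt_of_le (by positivity) hB.hK
  have hP : 0 < ph S t x n := ph_pos h.ps
  have hM2 : (1 : ℝ) ≤ M ^ 2 := by nlinarith
  have hw1 : 1 ≤ w := by
    rcases h.hw with h1 | h1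
    · exact h1.ge
    · rw [h1.1]; exact hM2
  have hw2 : w ≤ M ^ 2 := by
    rcases h.hw with h1 | h1
    · rw [h1]; exact hM2
    · exact h1.1.le
  have hw0 : 0 < w := by linarith
  have hs0 : 0 < Real.sqrt am := Real.sqrt_pos.2 ham
  have hs2 : Real.sqrt am ^ 2 = am := Real.sq_sqrt ham.le
  have hs1 : Real.sqrt am ≤ 1 := by
    rw [Real.sqrt_le_one]
    linarith
  have ha0 : 0 ≤ S.a t (orb S t x n0) := hB.a0 t _
  have hG0 : 0 ≤ G := by linarith
  -- the sum `ss`
  have key_ss : ∀ (w' Q s1 : ℝ), 16 * (w * ph S t x n) ≤ w' * (ph S t x n * Q) → s1 ≤ E / am →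
      (ph S t x n)⁻¹ * s1 ≤ 2 * E * M ^ 2 / am *
        ((w * ph S t x n)⁻¹ - (w' * (ph S t x n * Q))⁻¹) := by
    intro w' Q s1 h1 h2
    have hW : 0 < w * ph S t x n := mul_pos hw0 hP
    have h3 : (w' * (ph S t x n * Q))⁻¹ ≤ (w * ph S t x n)⁻¹ / 16 := by
      have h4 : (w' * (ph S t x n * Q))⁻¹ ≤ (16 * (w * ph S t x n))⁻¹ :=
        inv_anti₀ (by positivity) h1
      rw [mul_inv (16 : ℝ)] at h4
      linarith
    have h5 : (M ^ 2 * ph S t x n)⁻¹ ≤ (w * ph S t x n)⁻¹ :=
      inv_anti₀ hW (mul_le_mul_of_nonneg_right hw2 hP.le)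
    have h6 : 0 ≤ 2 * E * M ^ 2 / am := by positivity
    have h7 : 2 * E * M ^ 2 / am * (15 / 16 * (M ^ 2 * ph S t x n)⁻¹) ≤
        2 * E * M ^ 2 / am * ((w * ph S t x n)⁻¹ - (w' * (ph S t x n * Q))⁻¹) := by
      refine mul_le_mul_of_nonneg_left ?_ h6
      linarith
    refine le_trans ?_ h7
    have h8 : 2 * E * M ^ 2 / am * (15 / 16 * (M ^ 2 * ph S t x n)⁻¹) =
        15 / 8 * ((ph S t x n)⁻¹ * (E / am)) := by
      have hM0 : M ≠ 0 := by positivity
      field_simp
      ring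
    rw [h8]
    have h9 : (ph S t x n)⁻¹ * s1 ≤ (ph S t x n)⁻¹ * (E / am) :=
      mul_le_mul_of_nonneg_left h2 (by positivity)
    have h10 : 0 ≤ (ph S t x n)⁻¹ * (E / am) := by positivity
    linarith
  by_cases hy : δ ≤ S.a t (orb S t x n)
  · have hw : w = 1 := by
      rcases h.hw with h1 | h1
      · exact h1
      · exact absurd h1.2 (not_lt.2 hy)
    obtain ⟨m, hm1, hmL, hpm, hcl, hss, halt⟩ := hb.reg _ ha hy
    have hEam : ss S t (orb S t x n) m ≤ E / am := by
      refine hss.trans ?_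
      rw [le_div_iff₀ ham]
      nlinarith
    have hlm : K * ph S t x n * cl S t (orb S t x n) m ≤ K * E * ph S t x n := by
      have := mul_le_mul_of_nonneg_left hcl (mul_nonneg hK.le hP.le)
      linarith
    have key_lm : ∀ w' : ℝ, 16 * (w * ph S t x n) ≤
        w' * (ph S t x n * ph S t (orb S t x n) m) →
        K * ph S t x n * cl S t (orb S t x n) m ≤ 4 * K * (E + G) / Real.sqrt am *
      (w' * (ph S t x n * ph S t (orb S t x n) m) - w * ph S t x n) := by
      intro w' h1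
      rw [hw, one_mul] at h1
      rw [hw, one_mul]
      have h2 : K * E ≤ 4 * K * (E + G) / Real.sqrt am := by
        rw [le_div_iff₀ hs0]
        have h3 : K * E * Real.sqrt am ≤ K * E * 1 :=
          mul_le_mul_of_nonneg_left hs1 (by positivity)
        nlinarith [mul_nonneg hK.le hG0, mul_nonneg hK.le (by linarith : 0 ≤ E)]
      calc K * ph S t x n * cl S t (orb S t x n) m ≤ K * E * ph S t x n := hlm
        _ ≤ K * E * (w' * (ph S t x n * ph S t (orb S t x n) m) - ph S t x n) :=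
            mul_le_mul_of_nonneg_left (by linarith) (by positivity)
        _ ≤ _ := mul_le_mul_of_nonneg_right h2 (by linarith)
    rcases halt with h16 | ⟨h16, hdeep⟩
    · have hW : 16 * (w * ph S t x n) ≤ 1 * (ph S t x n * ph S t (orb S t x n) m) := by
        rw [hw, one_mul, one_mul, mul_comm]
        exact mul_le_mul_of_nonneg_left h16 hP.le
      refine ⟨n + m, 1, by omega, advd_core hw0 h hmL hpm (Or.inl rfl) hW (key_lm 1 hW)
        (key_ss 1 _ _ hW hEam) (fun _ h2 => absurd h2 (not_lt.2 hy)) hG0 ha0, fun _ => ?_,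
        fun h2 => absurd h2 (not_lt.2 hy)⟩
      rw [lm_add]
      linarith
    · have hW : 16 * (w * ph S t x n) ≤ M ^ 2 * (ph S t x n * ph S t (orb S t x n) m) := by
        rw [hw, one_mul]
        have h2 : M * 1 ≤ M * (M * ph S t (orb S t x n) m) :=
          mul_le_mul_of_nonneg_left h16 (by linarith)
        have h3 : 16 ≤ M * (M * ph S t (orb S t x n) m) := by linarith
        have h4 := mul_le_mul_of_nonneg_left h3 hP.le
        nlinarith
      refine ⟨n + m, M ^ 2, by omega, advd_core hw0 h hmL hpm (Or.inr ⟨rfl, hdeep⟩) hW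
        (key_lm _ hW) (key_ss _ _ _ hW hEam) (fun _ h2 => absurd h2 (not_lt.2 hy)) hG0 ha0,
        fun _ => ?_, fun h2 => absurd h2 (not_lt.2 hy)⟩
      rw [lm_add]
      linarith
  · push Not at hy
    obtain ⟨m, hm1, hmL, hpm, hcl, hss, hQ⟩ := hb.dee _ ha hy
    have hQ0 : 0 < ph S t (orb S t x n) m := ph_pos hpm
    have hay : 0 < S.a t (orb S t x n) := lt_of_lt_of_le ham ha
    have hQ1 : 16 * M ^ 2 ≤ ph S t (orb S t x n) m := by
      have h1 : G * S.a t (orb S t x n) * ph S t (orb S t x n) m ^ 2 ≤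
          G * δ * ph S t (orb S t x n) m ^ 2 :=
        mul_le_mul_of_nonneg_right (mul_le_mul_of_nonneg_left hy.le hG0) (sq_nonneg _)
      have h2 : G * δ * (16 * M ^ 2) ^ 2 ≤ G * δ * ph S t (orb S t x n) m ^ 2 := by linarith
      have h3 : (16 * M ^ 2) ^ 2 ≤ ph S t (orb S t x n) m ^ 2 :=
        le_of_mul_le_mul_left h2 (by positivity)
      exact (pow_le_pow_iff_left₀ (by positivity) hQ0.le two_ne_zero).1 h3
    have hW : 16 * (w * ph S t x n) ≤ 1 * (ph S t x n * ph S t (orb S t x n) m) := by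
      rw [one_mul]
      have h1 := mul_le_mul_of_nonneg_left hQ1 hP.le
      have h2 := mul_le_mul_of_nonneg_right hw2 hP.le
      linarith
    have hEam : ss S t (orb S t x n) m ≤ E / am := by
      rw [le_div_iff₀ ham]
      have h1 := ss_nonneg hB.a0 t (orb S t x n) m
      nlinarith
    have haQ : Real.sqrt am / G ≤ S.a t (orb S t x n) * ph S t (orb S t x n) m := by
      rw [div_le_iff₀ (by linarith)]
      have h1 : Real.sqrt am ^ 2 ≤
          (S.a t (orb S t x n) * ph S t (orb S t x n) m * G) ^ 2 := by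
        rw [hs2]
        have h2 : S.a t (orb S t x n) * G * 1 ≤ S.a t (orb S t x n) * G *
            (G * S.a t (orb S t x n) * ph S t (orb S t x n) m ^ 2) :=
          mul_le_mul_of_nonneg_left hQ (by positivity)
        have h3 : S.a t (orb S t x n) * 1 ≤ S.a t (orb S t x n) * G :=
          mul_le_mul_of_nonneg_left hG hay.le
        nlinarith
      exact (pow_le_pow_iff_left₀ hs0.le (by positivity) two_ne_zero).1 h1
    have hlm : K * ph S t x n * cl S t (orb S t x n) m ≤ 4 * K * (E + G) / Real.sqrt am *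
      (1 * (ph S t x n * ph S t (orb S t x n) m) - w * ph S t x n) := by
      have h1 : 15 / 16 * (ph S t x n * ph S t (orb S t x n) m) ≤
          1 * (ph S t x n * ph S t (orb S t x n) m) - w * ph S t x n := by linarith
      have hBc : 0 ≤ 4 * K * (E + G) / Real.sqrt am := by positivity
      refine le_trans ?_ (mul_le_mul_of_nonneg_left h1 hBc)
      -- multiply by `a`
      have h2 : S.a t (orb S t x n) * (K * ph S t x n * cl S t (orb S t x n) m) ≤
          S.a t (orb S t x n) * (4 * K * (E + G) / Real.sqrt am *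
            (15 / 16 * (ph S t x n * ph S t (orb S t x n) m))) := by
        have h3 : S.a t (orb S t x n) * (K * ph S t x n * cl S t (orb S t x n) m) ≤
            K * ph S t x n * 2 := by
          have := mul_le_mul_of_nonneg_left hcl (mul_nonneg hK.le hP.le)
          linarith
        have h4 : 4 * K * (E + G) / Real.sqrt am * (15 / 16 * ph S t x n) *
            (Real.sqrt am / G) ≤ 4 * K * (E + G) / Real.sqrt am * (15 / 16 * ph S t x n) *
            (S.a t (orb S t x n) * ph S t (orb S t x n) m) :=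
          mul_le_mul_of_nonneg_left haQ (by positivity)
        have h5 : 4 * K * (E + G) / Real.sqrt am * (15 / 16 * ph S t x n) *
            (Real.sqrt am / G) = 15 / 4 * (K * ph S t x n) * ((E + G) / G) := by
          have hG1 : G ≠ 0 := by positivity
          field_simp
          ring
        have h6 : 1 ≤ (E + G) / G := by
          rw [le_div_iff₀ (by linarith)]
          linarith
        have h7 : 15 / 4 * (K * ph S t x n) * 1 ≤ 15 / 4 * (K * ph S t x n) * ((E + G) / G) :=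
          mul_le_mul_of_nonneg_left h6 (by positivity)
        have h8 : 0 < K * ph S t x n := mul_pos hK hP
        rw [h5] at h4
        linarith
      exact le_of_mul_le_mul_left h2 hay
    refine ⟨n + m, 1, by omega, advd_core hw0 h hmL hpm (Or.inl rfl) hW hlm
      (key_ss 1 _ _ hW hEam) ?_ hG0 ha0, fun h2 => absurd hy (not_lt.2 h2), fun _ => ?_⟩
    · intro _ _
      rw [one_mul, mul_pow]
      have h1 := mul_le_mul_of_nonneg_left hQ (sq_nonneg (ph S t x n))
      linarith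
    · rw [lm_add]
      have := mul_le_mul_of_nonneg_left hcl (mul_nonneg hK.le hP.le)
      linarith

end Pool.Agent.H91.SF
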