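import Pool.Agent.H91.SF.ALG
import Pool.Agent.H84.SF.End

/-!
# Module BR: from the families `Fd` to the maps with an expansion rate `Dat` of SF-4d

`dat S C t` is the map `F t` with the critical values `F t c`, `c ∈ C`. The sizes `lm` are those of SF-4d with `A = K` and start value `1`.
-/

set_option autoImplicit false

open Finset Filter Topology Metric Set

namespace Pool.Agent.H91.SF

variable {X : Type}

/-- the map `F t` as a map with an expansion rate -/
def dat (S : Fd X) (C : Finset X) (t : ℂ) : Pool.Agent.H84.SF.Dat X :=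
  ⟨S.F t, S.a t, S.D, {v | ∃ c ∈ C, v = S.F t c}⟩

variable {S : Fd X} {C : Finset X} {K : ℝ} {t : ℂ} {x : X}

theorem dat_ph (k : ℕ) : Pool.Agent.H84.SF.Ph (dat S C t) k x = ph S t x k := rfl

theorem dat_lm (k : ℕ) : Pool.Agent.H84.SF.Lm (dat S C t) K 1 k x = lm S K t x k := rfl

theorem dat_cl (k : ℕ) : ∑ l ∈ range k, Pool.Agent.H84.SF.Ph (dat S C t) l x /
    (dat S C t).a ((dat S C t).f^[l] x) = cl S t x k := rfl

theorem dat_ss (k : ℕ) :
    ∑ l ∈ Ico 1 (k + 1), 1 / Pool.Agent.H84.SF.Ph (dat S C t) l x = ss S t x k := by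
  rw [Finset.sum_Ico_eq_sum_range]
  unfold ss
  refine Finset.sum_congr (by simp) fun l _ => ?_
  rw [one_div, dat_ph, Nat.add_comm 1 l]

theorem dat_pos (k : ℕ) :
    (∀ l < k, 0 < (dat S C t).a ((dat S C t).f^[l] x)) ↔ pos S t x k := Iff.rfl

/-- **Blocks.** -/
theorem blki {Ms θ M3 M4 c h Λ M G E am : ℝ} {m1 L : ℕ}
    (hs : Pool.Agent.H84.SF.Stat (dat S C t) Ms θ)
    (hg : Pool.Agent.H84.SF.Grow (dat S C t) θ M3 M4)
    (hc : Pool.Agent.H84.SF.Cst Ms θ K 1 c h)
    (hG : Pool.Agent.H84.SF.Gd (dat S C t) K 1 c h Λ) (ham : 0 < am) (hΛ : Ms / am ^ 2 < Λ)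
    (hM : M3 ≤ M) (hGc : (4 * K * Ms / c) ^ 2 ≤ G) (hm0 : 1 ≤ m1) (hm1 : 16 * M4 ≤ 2 ^ m1)
    (hE1 : m1 * Ms ^ m1 / θ ≤ E) (hE2 : m1 * M4 ≤ E) (hE3 : 8 / c ^ 2 ≤ E) (hL1 : m1 ≤ L)
    (hL2 : 1 + Ms / (c * am ^ 2) ≤ L) : Blk S M θ G E am L t := by
  classical
  have hMs := hs.hM
  have hθ := hs.hθ
  have hc0 := hc.hc
  have hM4 := hg.hM4
  have hM3 := hg.hM3
  constructor
  · intro x _ hx
    -- the first deep time, or `m1`
    obtain ⟨m, h1, h2, h3, h4⟩ : ∃ m, 1 ≤ m ∧ m ≤ m1 ∧ (∀ l < m, θ ≤ S.a t (orb S t x l)) ∧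
        (m = m1 ∨ S.a t (orb S t x m) < θ) := by
      by_cases hex : ∃ m, 1 ≤ m ∧ m ≤ m1 ∧ S.a t (orb S t x m) < θ
      · obtain ⟨h5, h6, h7⟩ := Nat.find_spec hex
        refine ⟨Nat.find hex, h5, h6, fun l hl => ?_, Or.inr h7⟩
        rcases Nat.eq_zero_or_pos l with h8 | h8
        · subst h8
          exact hx
        · by_contra h9
          exact Nat.find_min hex hl ⟨h8, by omega, not_le.1 h9⟩
      · refine ⟨m1, hm0, le_rfl, fun l hl => ?_, Or.inl rfl⟩
        rcases Nat.eq_zero_or_pos l with h8 | h8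
        · subst h8
          exact hx
        · by_contra h9
          exact hex ⟨l, h8, by omega, not_le.1 h9⟩
    have hpos : pos S t x m := fun l hl => lt_of_lt_of_le hθ (h3 l hl)
    have hup : ∀ l, ph S t x l ≤ Ms ^ l := by
      intro l
      unfold ph
      calc ∏ i ∈ Finset.range l, S.a t (orb S t x i) ≤ ∏ _i ∈ Finset.range l, Ms :=
            Finset.prod_le_prod (fun i _ => hs.a0 _) fun i _ => hs.aM _
        _ = Ms ^ l := by rw [Finset.prod_const, Finset.card_range]
    have hlow : ∀ l ≤ m, 2 ^ l / M4 ≤ ph S t x l := fun l hl =>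
      hg.gr1 x l fun i hi => h3 i (by omega)
    have hm1R : (m : ℝ) ≤ m1 := by exact_mod_cast h2
    refine ⟨m, h1, h2.trans hL1, hpos, ?_, ?_, ?_⟩
    · have h5 : ∀ l ∈ Finset.range m, ph S t x l / S.a t (orb S t x l) ≤ Ms ^ m1 / θ := by
        intro l hl
        have hl' := Finset.mem_range.1 hl
        refine div_le_div₀ (by positivity) ((hup l).trans ?_) hθ (h3 l hl')
        exact pow_le_pow_right₀ hMs (by omega)
      have h6 := Finset.sum_le_sum h5
      rw [Finset.sum_const, Finset.card_range, nsmul_eq_mul] at h6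
      refine (h6.trans ?_).trans hE1
      rw [mul_div_assoc]
      exact mul_le_mul_of_nonneg_right hm1R (by positivity)
    · have h5 : ∀ l ∈ Finset.range m, (ph S t x (l + 1))⁻¹ ≤ M4 := by
        intro l hl
        have hl' := Finset.mem_range.1 hl
        have h6 := hlow (l + 1) hl'
        have h7 : 1 / M4 ≤ ph S t x (l + 1) := by
          refine le_trans ?_ h6
          exact div_le_div_of_nonneg_right (one_le_pow₀ (by norm_num)) (by linarith)
        have h8 : (ph S t x (l + 1))⁻¹ ≤ (1 / M4)⁻¹ := inv_anti₀ (by positivity) h7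
        rwa [one_div, inv_inv] at h8
      have h6 := Finset.sum_le_sum h5
      rw [Finset.sum_const, Finset.card_range, nsmul_eq_mul] at h6
      refine (h6.trans ?_).trans hE2
      exact mul_le_mul_of_nonneg_right hm1R (by linarith)
    · by_cases h5 : S.a t (orb S t x m) < θ
      · right
        refine ⟨?_, h5⟩
        have h6 := hg.gr2 x m h3 h5
        have h7 : 1 / M3 ≤ ph S t x m := by
          refine le_trans ?_ h6
          exact div_le_div_of_nonneg_right (one_le_pow₀ (by norm_num)) (by linarith)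
        rw [div_le_iff₀ (by linarith)] at h7
        have h8 : 0 < ph S t x m := ph_pos hpos
        nlinarith
      · left
        have h6 : m = m1 := h4.resolve_right h5
        subst h6
        have h7 := hlow m le_rfl
        refine le_trans ?_ h7
        rw [le_div_iff₀ (by linarith)]
        exact hm1
  · intro x hx1 hx2
    have hax : 0 < S.a t x := lt_of_lt_of_le ham hx1
    have hsq : am ^ 2 ≤ S.a t x ^ 2 := pow_le_pow_left₀ ham.le hx1 2
    have hΛ' : Ms / (dat S C t).a x ^ 2 < Λ := by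
      refine lt_of_le_of_lt ?_ hΛ
      exact div_le_div_of_nonneg_left (by linarith) (by positivity) hsq
    obtain ⟨m, h1, h2, h3, h4, h5, -, h7⟩ :=
      Pool.Agent.H84.SF.deep_block hs hc hG (x := x) hax hx2 hΛ'
    refine ⟨m, h1, ?_, h3, ?_, ?_, ?_⟩
    · have h8 : Ms / (c * (dat S C t).a x ^ 2) ≤ Ms / (c * am ^ 2) := by
        refine div_le_div_of_nonneg_left (by linarith) (by positivity) ?_
        exact mul_le_mul_of_nonneg_left hsq hc0.le
      have h9 : (m : ℝ) ≤ L := by linarith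
      exact_mod_cast h9
    · have h8 : cl S t x m ≤ 2 / S.a t x := h4
      rw [le_div_iff₀ hax] at h8
      linarith
    · rw [dat_ss] at h5
      have h8 : ss S t x m ≤ 8 / (c ^ 2 * S.a t x) := h5
      have h9 : 8 / (c ^ 2 * S.a t x) = 8 / c ^ 2 / S.a t x := by field_simp
      rw [h9, le_div_iff₀ hax] at h8
      linarith
    · have h8 : 1 ≤ (4 * K * Ms / c) ^ 2 * S.a t x * ph S t x m ^ 2 := h7
      have h9 : 0 ≤ S.a t x * ph S t x m ^ 2 := by positivity
      calc (1 : ℝ) ≤ (4 * K * Ms / c) ^ 2 * S.a t x * ph S t x m ^ 2 := h8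
        _ = (4 * K * Ms / c) ^ 2 * (S.a t x * ph S t x m ^ 2) := by ring
        _ ≤ G * (S.a t x * ph S t x m ^ 2) := mul_le_mul_of_nonneg_right hGc h9
        _ = G * S.a t x * ph S t x m ^ 2 := by ring

end Pool.Agent.H91.SF
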