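import Pool.Agent.H84.SF.Dme

/-!
# Module DMB: the deterministic part of the late stage, with the basic assumption in the second alternative

This is helper84's `dme` with three more conclusions in the second alternative: no failure of the basic assumption, all derivatives along the critical
orbits are positive, the normalized parameter derivatives are bounded below.
-/

set_option autoImplicit false

open Finset Metric Filter Topology

namespace Pool.Agent.H91.SF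

open Pool.Agent.H84.SF (Stat Gd H3 H4 Num Cst Ev TailB Dt Lm Ph cst_of cst_A par_N par_of dt_ss det
  dt_V_finite es_up blk_all gde_of)

variable {X : Type} {S : Fd X} {C : Finset X} {M1 K Ms θ ρ c g E Kx N E3 E4 K4 : ℝ} {m0 n0 n1 : ℕ}

/-- **The deterministic part of the late stage.** -/
theorem dmb (hB : Bas S C M1 K ρ) (hs : ∀ t ∈ ball (0 : ℂ) ρ, Stat (Dt S C t) Ms θ)
    (h3' : H3 (Dt S C 0) E3 Kx n0) (h4 : ∀ t ∈ ball (0 : ℂ) ρ, H4 (Dt S C t) θ E4 K4 m0)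
    (hE3 : E3 ≤ E) (hE4 : E4 ≤ E) (hn : Num Ms θ K 1 c g E Kx N m0 n0) (hg : g ≤ 1 / 24)
    (h16 : 16 ≤ K4) (hEM : 2 * (E3 + 5) ≤ M1) (hEM4 : E4 ≤ M1) (hn1 : n1 ≤ n0)
    (hN1 : 1 + K * (n1 * (E3 * Ms ^ n1)) ≤ N)
    (hT : ∀ q ∈ C, 1 / M1 + 2 * (E3 / Kx ^ n1 + 4 / √N) ≤ S.T 0 q n1) :
    (∃ q k, Ev S C M1 K g (7 * g ^ 2) N q k) ∨
    ((∀ q ∈ C, ∀ k, N < lm S K 0 (S.F 0 q) k → lm S K 0 (S.F 0 q) k ^ (-g) ≤
        S.a 0 (orb S 0 (S.F 0 q) k)) ∧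
      (∀ q ∈ C, ∀ k, 0 < S.a 0 (orb S 0 (S.F 0 q) k)) ∧
      (∀ q ∈ C, ∀ k, n1 ≤ k → 1 / M1 ≤ S.T 0 q k) ∧
      (∀ q ∈ C, ∀ k, ss S 0 (S.F 0 q) k ≤ E3 + 4) ∧
      ∃ E', 1 ≤ E' ∧ BlkAll S M1 θ (100 * (K * Ms / c) ^ 2) E' ∧
        Gde S C M1 K (100 * (K * Ms / c) ^ 2)) := by
  have h0ρ : (0 : ℂ) ∈ ball (0 : ℂ) ρ := mem_ball_self hB.hρ
  have hs0 := hs 0 h0ρ
  have h40 := h4 0 h0ρ
  have h3 := h3'.mono hE3
  have hc := cst_of hs0 h3 hn
  have hK := cst_A hs0 hc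
  have hE := h3'.hE
  have hMs := hs0.hM
  have hN : 1 ≤ N := par_N (par_of hs0 h3 (h40.mono hE4) hn)
  have hsN : 1 ≤ √N := Real.one_le_sqrt.2 hN
  have h4N : 4 / √N ≤ 4 := div_le_self (by norm_num) hsN
  -- `ss` and `T` from the tail bounds
  have hssv : ∀ q ∈ C, ∀ k, TailB (Dt S C 0) E3 Kx N (S.F 0 q) k →
      ss S 0 (S.F 0 q) k ≤ E3 + 4 := by
    intro q hq k ht
    have h5 := ht.tail 0
    rw [pow_zero, div_one, zero_add, dt_ss] at h5
    linarith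
  have hTv : ∀ q ∈ C, ∀ k, n1 ≤ k → TailB (Dt S C 0) E3 Kx N (S.F 0 q) k →
      1 / M1 ≤ S.T 0 q k := by
    intro q hq k hk ht
    have hTk : ∀ k, n1 ≤ k →
        S.T 0 q n1 - 2 * ∑ l ∈ Ico (n1 + 1) (k + 1), 1 / Ph (Dt S C 0) l (S.F 0 q) ≤
          S.T 0 q k := by
      intro k hk
      induction k, hk using Nat.le_induction with
      | base => simp
      | succ k hk ih =>
        rw [Finset.sum_Ico_succ_top (by omega)]
        have h1 := (abs_le.1 (hB.Tt 0 h0ρ q hq k)).1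
        have h2 : (ph S 0 (S.F 0 q) (k + 1))⁻¹ =
            1 / Ph (Dt S C 0) (k + 1) (S.F 0 q) := by
          rw [one_div]
          rfl
        rw [h2] at h1
        linarith
    have h5 := hTk k hk
    have h6 := ht.tail n1
    have h7 := hT q hq
    linarith
  rcases det hs0 (dt_V_finite S C 0) h3' h40 hE3 hE4 hn with h | h
  · left
    obtain ⟨v, ⟨q, hq, rfl⟩, k, h5, h6, h7, h8, h9⟩ := h
    have hLk : 0 < Lm (Dt S C 0) K 1 k (S.F 0 q) := by linarith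
    have hnk : n1 < k := by
      by_contra hlt
      push Not at hlt
      have h10 : Lm (Dt S C 0) K 1 k (S.F 0 q) ≤ Lm (Dt S C 0) K 1 n1 (S.F 0 q) :=
        Pool.Agent.H84.SF.lm_mono hs0.a0 hK.le hlt
      have h11 := es_up hs0 h3' hK.le (v := S.F 0 q) ⟨q, hq, rfl⟩ hn1
      linarith
    refine ⟨q, k, hq, by omega, h9.pos, ?_, hTv q hq k hnk.le h9, h5, ?_, h6⟩
    · linarith [hssv q hq k h9]
    · have hph : 0 < ph S 0 (S.F 0 q) k := ph_pos h9.pos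
      have h10 : lm S K 0 (S.F 0 q) k / ph S 0 (S.F 0 q) k ≤
          lm S K 0 (S.F 0 q) k ^ (7 * g ^ 2) := h7
      have hLk' : 0 < lm S K 0 (S.F 0 q) k := hLk
      rw [div_le_iff₀ hph] at h10
      rw [sub_eq_add_neg, Real.rpow_add hLk', Real.rpow_one, Real.rpow_neg hLk'.le,
        mul_inv_le_iff₀ (Real.rpow_pos_of_pos hLk' _)]
      linarith
  · right
    obtain ⟨hG, htb, hBA, -⟩ := h
    have hss : ∀ q ∈ C, ∀ k, ss S 0 (S.F 0 q) k ≤ E3 + 4 := fun q hq k =>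
      hssv q hq k (htb _ ⟨q, hq, rfl⟩ k)
    refine ⟨fun q hq k hk => (hBA _ ⟨q, hq, rfl⟩ k hk).1,
      fun q hq k => (htb _ ⟨q, hq, rfl⟩ (k + 1)).pos k (Nat.lt_succ_self k),
      fun q hq k hk => hTv q hq k hk (htb _ ⟨q, hq, rfl⟩ k), hss, ?_⟩
    obtain ⟨E', hE', hblk⟩ := blk_all hB hs hc hG (fun q hq k => by linarith [hss q hq k])
      h4 hEM4 h16
    refine ⟨E', hE', hblk, ?_⟩
    exact gde_of hB hs0 hc (by linarith) hG (E2 := E3 + 4) (B2 := E3 / Kx ^ n1 + 4 / √N)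
      hss (by linarith) (fun q hq k => (htb _ ⟨q, hq, rfl⟩ k).tail n1) hT

end Pool.Agent.H91.SF
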