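import Pool.Agent.H91.SF.BR
import Pool.Agent.H91.SF.FRZU

/-!
# Module GDF: transfer of the information on the critical orbits from `t = 0` to the maps near `0`
-/

set_option autoImplicit false

open Finset Filter Topology Metric Set

namespace Pool.Agent.H91.SF

variable {X : Type} {S : Fd X} {C : Finset X} {M K ρ : ℝ}

theorem cl_low (hB : Bas S C M K ρ) {t0 t : ℂ} {c : X} {k : ℕ}
    (ht : t ∈ ball (0 : ℂ) ρ) (hf : Frz S M ρ K t0 c k) (hp : pos S t0 (S.F t0 c) k)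
    (hd : ‖t - t0‖ * lm S K t0 (S.F t0 c) k ≤ 1) {l : ℕ} (hl : l ≤ k) :
    9 / 16 * lm S K t0 (S.F t0 c) l ≤ lm S K t (S.F t c) l := by
  have hK : 0 ≤ K := (pow_nonneg (by linarith [hB.hM] : (0:ℝ) ≤ M) 10).trans hB.hK
  have h1 : 9 / 16 * cl S t0 (S.F t0 c) l ≤ cl S t (S.F t c) l := by
    unfold cl
    rw [Finset.mul_sum]
    refine Finset.sum_le_sum fun i hi => ?_
    have hi' := Finset.mem_range.1 hi
    have hik : i < k := by omega
    obtain ⟨h1, h2, -⟩ := hf t ht t ht hd hd i hik.le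
    have h3 := hp i hik
    have h4 := h2 hik
    have h5 : 0 < ph S t0 (S.F t0 c) i := ph_pos (pos_mono hp hik.le)
    have h6 : 0 < S.a t (orb S t (S.F t c) i) := by linarith [h4.1]
    rw [le_div_iff₀ h6]
    have h7 : ph S t0 (S.F t0 c) i / S.a t0 (orb S t0 (S.F t0 c) i) *
        S.a t0 (orb S t0 (S.F t0 c) i) = ph S t0 (S.F t0 c) i := div_mul_cancel₀ _ h3.ne'
    have h8 : 0 < ph S t0 (S.F t0 c) i / S.a t0 (orb S t0 (S.F t0 c) i) := div_pos h5 h3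
    calc 9 / 16 * (ph S t0 (S.F t0 c) i / S.a t0 (orb S t0 (S.F t0 c) i)) *
          S.a t (orb S t (S.F t c) i) ≤
        9 / 16 * (ph S t0 (S.F t0 c) i / S.a t0 (orb S t0 (S.F t0 c) i)) *
          (4 / 3 * S.a t0 (orb S t0 (S.F t0 c) i)) :=
          mul_le_mul_of_nonneg_left h4.2 (by positivity)
      _ = 3 / 4 * ph S t0 (S.F t0 c) i := by
          linear_combination ((3:ℝ) / 4) * h7
      _ ≤ ph S t (S.F t c) i := h1.1
  unfold lm
  have h2 := mul_le_mul_of_nonneg_left h1 hK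
  linarith

/-- the frozen bounds -/
theorem gd_frz (hB : Bas S C M K ρ) {t : ℂ} {c' : X} {k : ℕ} {c h : ℝ} (hc : 0 < c) (hh : 0 ≤ h)
    (hh1 : h ≤ 1 / 4)
    (ht : t ∈ ball (0 : ℂ) ρ) (hf : Frz S M ρ K 0 c' k) (hp : pos S 0 (S.F 0 c') k)
    (hd : ‖t‖ * lm S K 0 (S.F 0 c') k ≤ 1) {l : ℕ} (hl : l < k)
    (h1 : c * lm S K 0 (S.F 0 c') l ^ (-h) ≤ S.a 0 (orb S 0 (S.F 0 c') l))
    (h2 : c * lm S K 0 (S.F 0 c') l ^ (1 - h) ≤ ph S 0 (S.F 0 c') l) :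
    c / 4 * lm S K t (S.F t c') l ^ (-h) ≤ S.a t (orb S t (S.F t c') l) ∧
      c / 4 * lm S K t (S.F t c') l ^ (1 - h) ≤ ph S t (S.F t c') l := by
  have hK : 0 ≤ K := (pow_nonneg (by linarith [hB.hM] : (0:ℝ) ≤ M) 10).trans hB.hK
  have hd' : ‖t - 0‖ * lm S K 0 (S.F 0 c') k ≤ 1 := by rwa [sub_zero]
  obtain ⟨h3, h4, -⟩ := hf t ht t ht hd' hd' l hl.le
  have h5 := h4 hl
  have hdl : ‖t - 0‖ * lm S K 0 (S.F 0 c') l ≤ 1 :=
    (mul_le_mul_of_nonneg_left (lm_mono hB.a0 hK 0 (S.F 0 c') hl.le) (norm_nonneg _)).trans hd'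
  have hL0 := one_le_lm (S := S) hB.a0 hK 0 (S.F 0 c') l
  have hLt := one_le_lm (S := S) hB.a0 hK t (S.F t c') l
  have hlow := cl_low hB ht hf hp hd' hl.le
  have hfl : Frz S M ρ K 0 c' k := hf
  have hup : lm S K t (S.F t c') l ≤ 16 / 9 * lm S K 0 (S.F 0 c') l := by
    have h6 : cl S t (S.F t c') l ≤ 16 / 9 * cl S 0 (S.F 0 c') l := by
      unfold cl
      rw [Finset.mul_sum]
      refine Finset.sum_le_sum fun i hi => ?_
      have hi' := Finset.mem_range.1 hi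
      have hik : i < k := by omega
      obtain ⟨g1, g2, -⟩ := hf t ht t ht hd' hd' i hik.le
      have g3 := hp i hik
      have g4 := g2 hik
      have g5 : 0 < ph S 0 (S.F 0 c') i := ph_pos (pos_mono hp hik.le)
      have g6 : 0 < S.a t (orb S t (S.F t c') i) := by linarith [g4.1]
      rw [div_le_iff₀ g6]
      have g7 : ph S 0 (S.F 0 c') i / S.a 0 (orb S 0 (S.F 0 c') i) *
          S.a 0 (orb S 0 (S.F 0 c') i) = ph S 0 (S.F 0 c') i := div_mul_cancel₀ _ g3.ne'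
      have g8 : 0 < ph S 0 (S.F 0 c') i / S.a 0 (orb S 0 (S.F 0 c') i) := div_pos g5 g3
      calc ph S t (S.F t c') i ≤ 4 / 3 * ph S 0 (S.F 0 c') i := g1.2
        _ = 16 / 9 * (ph S 0 (S.F 0 c') i / S.a 0 (orb S 0 (S.F 0 c') i)) *
            (3 / 4 * S.a 0 (orb S 0 (S.F 0 c') i)) := by
            linear_combination (-(4:ℝ) / 3) * g7
        _ ≤ 16 / 9 * (ph S 0 (S.F 0 c') i / S.a 0 (orb S 0 (S.F 0 c') i)) *
            S.a t (orb S t (S.F t c') i) :=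
            mul_le_mul_of_nonneg_left g4.1 (by positivity)
    have h7 := mul_le_mul_of_nonneg_left h6 hK
    unfold lm
    linarith
  have h0pos : 0 < lm S K 0 (S.F 0 c') l := by linarith
  have htpos : 0 < lm S K t (S.F t c') l := by linarith
  constructor
  · -- `lm 0 ≤ 16/9 lm t`
    have h6 : lm S K 0 (S.F 0 c') l ≤ 16 / 9 * lm S K t (S.F t c') l := by linarith
    have h7 : (16 / 9 * lm S K t (S.F t c') l) ^ (-h) ≤ lm S K 0 (S.F 0 c') l ^ (-h) :=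
      Real.rpow_le_rpow_of_nonpos h0pos h6 (by linarith)
    rw [Real.mul_rpow (by norm_num) htpos.le] at h7
    have h8 : (9 / 16 : ℝ) ≤ (16 / 9 : ℝ) ^ (-h) := by
      have h9 : (16 / 9 : ℝ) ^ (-(1:ℝ)) ≤ (16 / 9 : ℝ) ^ (-h) :=
        Real.rpow_le_rpow_of_exponent_le (by norm_num) (by linarith)
      rw [Real.rpow_neg_one] at h9
      norm_num at h9 ⊢
      exact h9
    have h9 : 0 ≤ lm S K t (S.F t c') l ^ (-h) := Real.rpow_nonneg htpos.le _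
    have h10 : 9 / 16 * lm S K t (S.F t c') l ^ (-h) ≤ lm S K 0 (S.F 0 c') l ^ (-h) :=
      (mul_le_mul_of_nonneg_right h8 h9).trans h7
    nlinarith [h5.1]
  · have h6 : (9 / 16 * lm S K t (S.F t c') l) ^ (1 - h) ≤ lm S K 0 (S.F 0 c') l ^ (1 - h) :=
      Real.rpow_le_rpow (by positivity) (by linarith) (by linarith)
    rw [Real.mul_rpow (by norm_num) htpos.le] at h6
    have h8 : (9 / 16 : ℝ) ≤ (9 / 16 : ℝ) ^ (1 - h) := by
      have h9 : (9 / 16 : ℝ) ^ (1 : ℝ) ≤ (9 / 16 : ℝ) ^ (1 - h) :=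
        Real.rpow_le_rpow_of_exponent_ge (by norm_num) (by norm_num) (by linarith)
      rwa [Real.rpow_one] at h9
    have h9 : 0 ≤ lm S K t (S.F t c') l ^ (1 - h) := Real.rpow_nonneg htpos.le _
    have h10 : 9 / 16 * lm S K t (S.F t c') l ^ (1 - h) ≤ lm S K 0 (S.F 0 c') l ^ (1 - h) :=
      (mul_le_mul_of_nonneg_right h8 h9).trans h6
    nlinarith [h3.1]

/-- the step to the next scale -/
theorem lm_next (hB : Bas S C M K ρ) {x : X} {k : ℕ} {c h : ℝ} (hc : 0 < c) (hc1 : c ≤ 1)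
    (hh : 0 ≤ h) (hp : pos S 0 x k)
    (h1 : c * lm S K 0 x k ^ (-h) ≤ S.a 0 (orb S 0 x k)) :
    lm S K 0 x (k + 1) ≤ 2 * K / c * lm S K 0 x k ^ (1 + h) := by
  have hM := hB.hM
  have hK : M ^ 2 ≤ K := (pow_le_pow_right₀ (by linarith) (by norm_num)).trans hB.hK
  have hK1 : 1 ≤ K := (one_le_pow₀ (by linarith)).trans hK
  have hL := one_le_lm (S := S) (K := K) hB.a0 (by linarith) 0 x k
  have hLpos : 0 < lm S K 0 x k := by linarith
  have h0 : (0 : ℂ) ∈ ball (0 : ℂ) ρ := mem_ball_self hB.hρ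
  have h2 := ph_le_lm hB h0 hp
  have h3 : 0 < lm S K 0 x k ^ (-h) := Real.rpow_pos_of_pos hLpos _
  have h4 : 0 < S.a 0 (orb S 0 x k) := lt_of_lt_of_le (mul_pos hc h3) h1
  have h5 : ph S 0 x k / S.a 0 (orb S 0 x k) ≤ lm S K 0 x k / (c * lm S K 0 x k ^ (-h)) :=
    div_le_div₀ (by linarith) h2 (mul_pos hc h3) h1
  have h6 : lm S K 0 x k / (c * lm S K 0 x k ^ (-h)) = 1 / c * lm S K 0 x k ^ (1 + h) := by
    rw [Real.rpow_add hLpos, Real.rpow_one, Real.rpow_neg hLpos.le]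
    have h7 : lm S K 0 x k ^ h ≠ 0 := (Real.rpow_pos_of_pos hLpos h).ne'
    field_simp
  have h7 : lm S K 0 x (k + 1) = lm S K 0 x k + K * (ph S 0 x k / S.a 0 (orb S 0 x k)) := by
    unfold lm cl
    rw [Finset.sum_range_succ]
    ring
  have h8 : lm S K 0 x k ≤ K / c * lm S K 0 x k ^ (1 + h) := by
    have h9 : lm S K 0 x k ^ (1 : ℝ) ≤ lm S K 0 x k ^ (1 + h) :=
      Real.rpow_le_rpow_of_exponent_le hL (by linarith)
    rw [Real.rpow_one] at h9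
    have h10 : 1 ≤ K / c := by
      rw [le_div_iff₀ hc]
      linarith
    have h11 : 0 ≤ lm S K 0 x k ^ (1 + h) := by linarith
    nlinarith
  rw [h7]
  have h9 : K * (ph S 0 x k / S.a 0 (orb S 0 x k)) ≤ K * (1 / c * lm S K 0 x k ^ (1 + h)) :=
    mul_le_mul_of_nonneg_left (h5.trans h6.le) (by linarith)
  have h10 : K * (1 / c * lm S K 0 x k ^ (1 + h)) = K / c * lm S K 0 x k ^ (1 + h) := by ring
  have h11 : 2 * K / c * lm S K 0 x k ^ (1 + h) =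
      K / c * lm S K 0 x k ^ (1 + h) + K / c * lm S K 0 x k ^ (1 + h) := by ring
  linarith

theorem gdf_num {c K Q : ℝ} (hc : 0 < c) (hK : 0 < K) :
    ∀ᶠ r : ℝ in 𝓝[>] 0, ∀ am : ℝ, 0 < am → r ≤ am ^ 4 →
      Q / am ^ 2 ≤ 9 / 16 * (c / (2 * K * r)) ^ (4 / 5 : ℝ) := by
  have hcK : 0 < (c / (2 * K)) ^ (4 / 5 : ℝ) := Real.rpow_pos_of_pos (by positivity) _
  have h1 : Tendsto (fun r : ℝ => 16 / 9 * |Q| * r ^ (3 / 10 : ℝ)) (𝓝[>] 0) (𝓝 0) := by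
    have h2 : Tendsto (fun r : ℝ => r ^ (3 / 10 : ℝ)) (𝓝 0) (𝓝 ((0:ℝ) ^ (3 / 10 : ℝ))) :=
      (Real.continuousAt_rpow_const 0 (3 / 10) (Or.inr (by norm_num))).tendsto
    rw [Real.zero_rpow (by norm_num)] at h2
    have h3 := (h2.mono_left (nhdsWithin_le_nhds (s := Ioi 0))).const_mul (16 / 9 * |Q|)
    rwa [mul_zero] at h3
  filter_upwards [h1.eventually (ge_mem_nhds hcK), self_mem_nhdsWithin] with r hr hr0 am ham hram
  have hr0' : 0 < r := hr0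
  have h2 : √r ≤ am ^ 2 := by
    rw [Real.sqrt_le_left (by positivity)]
    calc r ≤ am ^ 4 := hram
      _ = (am ^ 2) ^ 2 := by ring
  have hsr : 0 < √r := Real.sqrt_pos.2 hr0'
  have h3 : Q / am ^ 2 ≤ |Q| / √r := by
    refine (div_le_div_of_nonneg_right (le_abs_self Q) (by positivity)).trans ?_
    exact div_le_div_of_nonneg_left (abs_nonneg Q) hsr h2
  have h4 : (c / (2 * K * r)) ^ (4 / 5 : ℝ) = (c / (2 * K)) ^ (4 / 5 : ℝ) * r ^ (-(4 / 5) : ℝ) := by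
    rw [← div_div, Real.div_rpow (by positivity) hr0'.le, Real.rpow_neg hr0'.le, div_eq_mul_inv]
  have h5 : r ^ (3 / 10 : ℝ) * r ^ (-(4 / 5) : ℝ) = 1 / √r := by
    rw [← Real.rpow_add hr0', Real.sqrt_eq_rpow, one_div (r ^ (1 / 2 : ℝ)), ← Real.rpow_neg hr0'.le]
    norm_num
  have h6 : 0 ≤ r ^ (-(4 / 5) : ℝ) := Real.rpow_nonneg hr0'.le _
  have h7 := mul_le_mul_of_nonneg_right hr h6
  rw [h4]
  have h8 : 16 / 9 * |Q| * r ^ (3 / 10 : ℝ) * r ^ (-(4 / 5) : ℝ) = 16 / 9 * (|Q| / √r) := by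
    rw [mul_assoc, h5]
    ring
  rw [h8] at h7
  linarith

theorem gdf (hB : Bas S C M K ρ) {Ms θ c h : ℝ}
    (hs : Pool.Agent.H84.SF.Stat (dat S C 0) Ms θ) (hc : Pool.Agent.H84.SF.Cst Ms θ K 1 c h)
    (hG : ∀ Λ, Pool.Agent.H84.SF.Gd (dat S C 0) K 1 c h Λ)
    (hss : ∀ c' ∈ C, ∀ k, 1 + ss S 0 (S.F 0 c') k ≤ M) (Q : ℝ) :
    ∀ᶠ r : ℝ in 𝓝[>] 0, ∀ t : ℂ, ‖t‖ ≤ r → ∀ am : ℝ, 0 < am → r ≤ am ^ 4 →
      Pool.Agent.H84.SF.Gd (dat S C t) K 1 (c / 4) h (Q / am ^ 2) := by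
  have hM := hB.hM
  have hK2 : M ^ 2 ≤ K := (pow_le_pow_right₀ (by linarith) (by norm_num)).trans hB.hK
  have hK1 : 1 ≤ K := (one_le_pow₀ (by linarith)).trans hK2
  have hK0 : 0 < K := by linarith
  have hc0 := hc.hc
  have hρ := hB.hρ
  -- smallness of `r`
  have e1 : ∀ᶠ r : ℝ in 𝓝[>] 0, r < ρ := nhdsWithin_le_nhds (gt_mem_nhds hρ)
  have e2 : ∀ᶠ r : ℝ in 𝓝[>] 0, ∀ c' ∈ C, lm S K 0 (S.F 0 c') 1 * r ≤ 1 := by
    rw [Filter.eventually_all_finset]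
    intro c' _
    have h1 : Tendsto (fun r : ℝ => lm S K 0 (S.F 0 c') 1 * r) (𝓝[>] 0) (𝓝 0) := by
      have h2 : Tendsto (fun r : ℝ => lm S K 0 (S.F 0 c') 1 * r) (𝓝 0)
          (𝓝 (lm S K 0 (S.F 0 c') 1 * 0)) := tendsto_id.const_mul _
      rw [mul_zero] at h2
      exact h2.mono_left nhdsWithin_le_nhds
    exact h1.eventually (ge_mem_nhds (by norm_num))
  have e3 : ∀ᶠ r : ℝ in 𝓝[>] 0, r ≤ c / (2 * K) :=
    nhdsWithin_le_nhds (ge_mem_nhds (by positivity))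
  have e4 : ∀ᶠ r : ℝ in 𝓝[>] 0, r ≤ 1 := nhdsWithin_le_nhds (ge_mem_nhds (by norm_num))
  filter_upwards [e1, e2, e3, e4, gdf_num (Q := Q) hc0 hK0, self_mem_nhdsWithin] with
    r h1 h2 h3 h4 h5 hr0 t ht am ham hram
  have hr0' : 0 < r := hr0
  rintro v ⟨c', hc', rfl⟩ l hl
  have hv : S.F 0 c' ∈ (dat S C 0).V := ⟨c', hc', rfl⟩
  obtain ⟨k, h6, h7⟩ := Pool.Agent.H84.SF.last_ex hs hc (hG (1 / r + 1)) hv hr0'
    (by rw [one_mul]; exact h4) (by linarith)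
  rw [dat_lm] at h6 h7
  have hk : 1 ≤ k := by
    by_contra hk
    have hk0 : k = 0 := by omega
    subst hk0
    have := h2 c' hc'
    linarith
  have hgd : ∀ l, c * lm S K 0 (S.F 0 c') l ^ (-h) ≤ S.a 0 (orb S 0 (S.F 0 c') l) ∧
      c * lm S K 0 (S.F 0 c') l ^ (1 - h) ≤ ph S 0 (S.F 0 c') l := fun l =>
    hG (lm S K 0 (S.F 0 c') l + 1) _ hv l (by rw [dat_lm]; linarith)
  have hone : ∀ l, 1 ≤ lm S K 0 (S.F 0 c') l := fun l => one_le_lm hB.a0 hK0.le 0 _ l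
  have hposall : ∀ l, 0 < S.a 0 (orb S 0 (S.F 0 c') l) := fun l =>
    lt_of_lt_of_le (mul_pos hc0 (Real.rpow_pos_of_pos (by linarith [hone l]) _)) (hgd l).1
  have hp : pos S 0 (S.F 0 c') k := fun l _ => hposall l
  have h0 : (0 : ℂ) ∈ ball (0 : ℂ) ρ := mem_ball_self hρ
  have htρ : t ∈ ball (0 : ℂ) ρ := by
    rw [mem_ball_zero_iff]
    linarith
  have hf := hB.frz 0 h0 c' hc' k hk hp (hss c' hc' k)
  have hd : ‖t‖ * lm S K 0 (S.F 0 c') k ≤ 1 := by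
    calc ‖t‖ * lm S K 0 (S.F 0 c') k ≤ r * lm S K 0 (S.F 0 c') k :=
          mul_le_mul_of_nonneg_right ht (by linarith [hone k])
      _ ≤ 1 := by linarith
  have hd' : ‖t - 0‖ * lm S K 0 (S.F 0 c') k ≤ 1 := by rwa [sub_zero]
  -- the scale at time `k`
  have h8 : (c / (2 * K * r)) ^ (4 / 5 : ℝ) < lm S K 0 (S.F 0 c') k := by
    by_contra hcon
    push Not at hcon
    have h9 : lm S K 0 (S.F 0 c') k ^ (1 + h) ≤ c / (2 * K * r) := by
      calc lm S K 0 (S.F 0 c') k ^ (1 + h) ≤ lm S K 0 (S.F 0 c') k ^ (5 / 4 : ℝ) :=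
            Real.rpow_le_rpow_of_exponent_le (hone k) (by linarith [hc.hh1])
        _ ≤ ((c / (2 * K * r)) ^ (4 / 5 : ℝ)) ^ (5 / 4 : ℝ) :=
            Real.rpow_le_rpow (by linarith [hone k]) hcon (by norm_num)
        _ = c / (2 * K * r) := by
            rw [← Real.rpow_mul (by positivity)]
            norm_num
    have h10 := lm_next hB hc0 hc.hc1 hc.hh hp (hgd k).1
    have h11 : 2 * K / c * lm S K 0 (S.F 0 c') k ^ (1 + h) ≤ 1 / r := by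
      calc 2 * K / c * lm S K 0 (S.F 0 c') k ^ (1 + h) ≤ 2 * K / c * (c / (2 * K * r)) :=
            mul_le_mul_of_nonneg_left h9 (by positivity)
        _ = 1 / r := by field_simp
    have h12 : lm S K 0 (S.F 0 c') (k + 1) * r ≤ 1 := by
      rw [← le_div_iff₀ hr0']
      linarith
    linarith
  have h9 := cl_low hB htρ hf hp hd' (le_refl k)
  have h10 := h5 am ham hram
  have h11 : Q / am ^ 2 ≤ lm S K t (S.F t c') k := by linarith
  have hlk : l < k := by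
    by_contra hcon
    have h12 := lm_mono (S := S) hB.a0 hK0.le t (S.F t c') (not_lt.1 hcon)
    rw [dat_lm] at hl
    linarith
  exact gd_frz hB hc0 hc.hh hc.hh1 htρ hf hp hd hlk (hgd l).1 (hgd l).2

end Pool.Agent.H91.SF
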