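import Pool.Agent.H91.SF.GDF
import Pool.Agent.H91.SF.NDefs

/-!
# Module GLUE: the hypotheses of the closing theorem
-/

set_option autoImplicit false

open Finset Filter Topology Metric Set

namespace Pool.Agent.H91.SF

variable {X : Type} {S : Fd X} {C : Finset X} {M K ρ : ℝ}

/-- blocks for all maps near `0` -/
theorem blkall (hB : Bas S C M K ρ) {Ms θ M3 M4 c h G E : ℝ} {m1 : ℕ}
    (hs : ∀ᶠ t : ℂ in 𝓝 0, Pool.Agent.H84.SF.Stat (dat S C t) Ms θ)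
    (hg : ∀ᶠ t : ℂ in 𝓝 0, Pool.Agent.H84.SF.Grow (dat S C t) θ M3 M4)
    (hc : Pool.Agent.H84.SF.Cst Ms θ K 1 c h)
    (hG : ∀ Λ, Pool.Agent.H84.SF.Gd (dat S C 0) K 1 c h Λ)
    (hss : ∀ c' ∈ C, ∀ k, 1 + ss S 0 (S.F 0 c') k ≤ M)
    (hM : M3 ≤ M) (hGc : (16 * K * Ms / c) ^ 2 ≤ G) (hm0 : 1 ≤ m1) (hm1 : 16 * M4 ≤ 2 ^ m1)
    (hE1 : m1 * Ms ^ m1 / θ ≤ E) (hE2 : m1 * M4 ≤ E) (hE3 : 128 / c ^ 2 ≤ E) :
    BlkAll S M θ G E := by
  have hc0 := hc.hc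
  have hs0 := hs.self_of_nhds
  have hMs := hs0.hM
  have hc' : Pool.Agent.H84.SF.Cst Ms θ K 1 (c / 4) h :=
    ⟨hc.hA, hc.hw, hc.hwθ, by positivity, by linarith [hc.hc1], hc.hh, hc.hh1⟩
  have e1 : ∀ᶠ r : ℝ in 𝓝[>] 0, ∀ t : ℂ, ‖t‖ ≤ r →
      Pool.Agent.H84.SF.Stat (dat S C t) Ms θ ∧ Pool.Agent.H84.SF.Grow (dat S C t) θ M3 M4 := by
    obtain ⟨ε, hε, h1⟩ := Metric.eventually_nhds_iff.1 (hs.and hg)
    have h2 : ∀ᶠ r : ℝ in 𝓝[>] 0, r < ε := nhdsWithin_le_nhds (gt_mem_nhds hε)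
    filter_upwards [h2] with r hr t ht
    refine h1 ?_
    rw [dist_zero_right]
    linarith
  filter_upwards [e1, gdf hB hs0 hc hG hss (2 * Ms), self_mem_nhdsWithin] with r h1 h2 hr0
  have hr0' : 0 < r := hr0
  have hsr : 0 < √r := Real.sqrt_pos.2 hr0'
  obtain ⟨L0, hL0⟩ := exists_nat_ge (1 + Ms / (c / 4 * √r))
  refine ⟨max m1 L0, fun t ht am ham hram => ?_⟩
  obtain ⟨h3, h4⟩ := h1 t ht
  have h5 : √r ≤ am ^ 2 := by
    rw [Real.sqrt_le_left (by positivity)]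
    calc r ≤ am ^ 4 := hram
      _ = (am ^ 2) ^ 2 := by ring
  refine blki h3 h4 hc' (h2 t ht am ham hram) ham ?_ hM ?_ hm0 hm1 hE1 hE2 ?_ (le_max_left _ _) ?_
  · refine div_lt_div_of_pos_right ?_ (by positivity)
    linarith
  · have h6 : 4 * K * Ms / (c / 4) = 16 * K * Ms / c := by
      field_simp
      ring
    rw [h6]
    exact hGc
  · have h6 : 8 / (c / 4) ^ 2 = 128 / c ^ 2 := by
      field_simp
      ring
    rw [h6]
    exact hE3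
  · have h6 : Ms / (c / 4 * am ^ 2) ≤ Ms / (c / 4 * √r) := by
      refine div_le_div_of_nonneg_left (by linarith) (by positivity) ?_
      exact mul_le_mul_of_nonneg_left h5 (by positivity)
    have h7 : (L0 : ℝ) ≤ (max m1 L0 : ℕ) := by exact_mod_cast le_max_right _ _
    linarith

/-- the initial times -/
theorem gde {Ms θ c h G : ℝ} (ha : ∀ t x, 0 ≤ S.a t x)
    (hs : Pool.Agent.H84.SF.Stat (dat S C 0) Ms θ) (hc : Pool.Agent.H84.SF.Cst Ms θ K 1 c h)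
    (hh : h ≤ 1 / 8) (hG : ∀ Λ, Pool.Agent.H84.SF.Gd (dat S C 0) K 1 c h Λ)
    (hGc : 2 * K / c ≤ G) (hss : ∀ c' ∈ C, ∀ k, 1 + ss S 0 (S.F 0 c') k ≤ M / 2)
    (hT : ∀ c' ∈ C, ∃ k0, ∀ k, k0 ≤ k → 1 / M ≤ S.T 0 c' k) : Gde S C M K G := by
  have hK := Pool.Agent.H84.SF.cst_A hs hc
  have hc0 := hc.hc
  unfold Gde
  have e1 : ∀ᶠ R : ℝ in atTop, ∀ c' ∈ C, ∃ k0, 1 ≤ k0 ∧ (∀ k, k0 ≤ k → 1 / M ≤ S.T 0 c' k) ∧
      lm S K 0 (S.F 0 c') k0 ≤ R := by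
    rw [Filter.eventually_all_finset]
    intro c' hc'
    obtain ⟨k0, hk0⟩ := hT c' hc'
    filter_upwards [eventually_ge_atTop (lm S K 0 (S.F 0 c') (max 1 k0))] with R hR
    exact ⟨max 1 k0, le_max_left _ _, fun k hk => hk0 k ((le_max_right _ _).trans hk), hR⟩
  filter_upwards [e1, eventually_ge_atTop (1 : ℝ)] with R hR hR1 c' hc'
  obtain ⟨k0, h1, h2, h3⟩ := hR c' hc'
  have hv : S.F 0 c' ∈ (dat S C 0).V := ⟨c', hc', rfl⟩
  obtain ⟨p, h4, h5, h6⟩ := Pool.Agent.H84.SF.gvy hs hc (hG (R + 1)) hv hR1 (by linarith)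
  rw [dat_lm] at h4 h5
  rw [dat_ph] at h6
  have hkp : k0 ≤ p := by
    by_contra hcon
    have h7 := lm_mono (S := S) ha hK.le 0 (S.F 0 c') (show p + 1 ≤ k0 by omega)
    linarith
  have hone : ∀ l, 1 ≤ lm S K 0 (S.F 0 c') l := fun l => one_le_lm ha hK.le 0 _ l
  have hgd : ∀ l, c * lm S K 0 (S.F 0 c') l ^ (-h) ≤ S.a 0 (orb S 0 (S.F 0 c') l) := fun l =>
    (hG (lm S K 0 (S.F 0 c') l + 1) _ hv l (by rw [dat_lm]; linarith)).1
  have hposall : ∀ l, 0 < S.a 0 (orb S 0 (S.F 0 c') l) := fun l =>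
    lt_of_lt_of_le (mul_pos hc0 (Real.rpow_pos_of_pos (by linarith [hone l]) _)) (hgd l)
  refine ⟨p, h1.trans hkp, fun l _ => hposall l, h4, ?_, hss c' hc' p, h2 p hkp⟩
  have h7 : R ^ (1 - h) ≤ G * ph S 0 (S.F 0 c') p := by
    have h8 : 0 < ph S 0 (S.F 0 c') p := ph_pos fun l _ => hposall l
    calc R ^ (1 - h) = 2 * K / c * (c / (2 * K) * R ^ (1 - h)) := by field_simp
      _ ≤ 2 * K / c * ph S 0 (S.F 0 c') p := mul_le_mul_of_nonneg_left h6 (by positivity)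
      _ ≤ G * ph S 0 (S.F 0 c') p := mul_le_mul_of_nonneg_right hGc h8.le
  have h8 : R ^ 7 ≤ (R ^ (1 - h)) ^ 8 := by
    rw [← Real.rpow_natCast, ← Real.rpow_natCast, ← Real.rpow_mul (by linarith)]
    refine Real.rpow_le_rpow_of_exponent_le hR1 ?_
    push_cast
    linarith
  exact h8.trans (pow_le_pow_left₀ (Real.rpow_nonneg (by linarith) _) h7 8)

end Pool.Agent.H91.SF
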