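import Pool.Agent.H91.SF.ALG
import Pool.Agent.H91.SF.NUM

/-!
# Module PIG: choice of the next base parameter (pigeonhole)

PROOF. Let `q = C.card`, `J = q ^ 2 + 2` (so `J ≤ M^2 + 2`), `t_j = t + (r / 2) * ((j + 1) / J)` for `j : Fin J`; `‖t_j - t‖ ≤ r / 2`, `‖t_i - t_j‖ ≥ r / (2 J)` for `i ≠ j`. Suppose that no `t_j` works. Then for
each `j` either `‖t_j - e‖ < r / M^4`, or there is `c ∈ C` with `a t_j (x_j) < η σ`, `x_j = orb S t_j (S.F t_j c) (n c)`, `σ = r * ph S t (S.F t c) (n c)`, and then by `Bas.near` there is `c' ∈ C` with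
`D x_j c' ≤ M a t_j x_j < M η σ`. This gives a map from `Fin J` to the disjoint union of a point and `C × C` (`q^2 + 1` elements), which is not injective (`Finset.exists_ne_map_eq_of_card_lt_of_maps_to` or
`Fintype.exists_ne_map_eq_of_card_lt`, with values in `Option (C × C)`, `C` as a subtype). If `i ≠ j` both have `‖t_i - e‖, ‖t_j - e‖ < r / M^4` then `r / (2 J) < 2 r / M^4`, `M^4 < 4 J ≤ 4 M^2 + 8`: contradiction.
If `i ≠ j` have the same `(c, c')` then `D x_i x_j ≤ 2 M η σ = 2 σ / M^5` (`Dt`, `Ds`), and by `Frz` (base `t`, time `n c`: `Bas.frz` with `Stg.one`, `Stg.ps`, `Stg.ssb` at `s = t`; `‖t_i - t‖ * lm ≤ r * lm ≤ 1` by `Stg.lmr`)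
with `l = n c`: `‖t_i - t_j‖ * (T - 1/(4M)) * ph ≤ 2 D x_i x_j`, `T ≥ 1 / (2M)` (`Stg.ttb`), so `(r / (2J)) * (1/(4M)) * ph ≤ 4 r ph / M^5`, i.e. `M^4 ≤ 32 J ≤ 32 M^2 + 64`: contradiction (`M ≥ 16`).
-/

set_option autoImplicit false

open Finset Filter Topology Metric Set

namespace Pool.Agent.H91.SF

variable {X : Type} {S : Fd X} {C : Finset X} {M K ρ : ℝ}

theorem pig {δ G E b θ η bK am Bs r0 : ℝ} (hB : Bas S C M K ρ)
    (hN : Nm M K δ G E b θ η bK am Bs r0) (hr0 : r0 < ρ) {t : ℂ} {r : ℝ} {n : X → ℕ}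
    (hs : Stg S C M K δ b bK Bs r0 t r n) (e : ℂ) :
    ∃ t' : ℂ, ‖t' - t‖ ≤ r / 2 ∧ r / M ^ 4 ≤ ‖t' - e‖ ∧ ∀ c ∈ C,
      η * (r * ph S t (S.F t c) (n c)) ≤ S.a t' (orb S t' (S.F t' c) (n c)) := by
  classical
  have hM16 := hB.hM
  have hM0 : 0 < M := by linarith
  have hK0 : 0 ≤ K := (pow_nonneg hM0.le 10).trans hB.hK
  have hBs0 : 0 ≤ Bs * r := by
    obtain ⟨-, -, -, -, -, -, -, -, -, -, -, hBs, -⟩ := nm_pos hN
    exact (mul_pos hBs hs.hr).le
  have hη : η = 1 / M ^ 6 := hN.eη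
  have hr := hs.hr
  set q : ℕ := C.card with hq
  set J : ℕ := q ^ 2 + 2 with hJ
  have hJ0 : (0 : ℝ) < J := by
    rw [hJ]
    push_cast
    positivity
  have hJM : (J : ℝ) ≤ M ^ 2 + 2 := by
    rw [hJ]
    push_cast
    have h1 : (q : ℝ) ≤ M := hB.card
    have h2 : (q : ℝ) ^ 2 ≤ M ^ 2 := pow_le_pow_left₀ (Nat.cast_nonneg _) h1 2
    linarith
  have hM4 : 4 * (J : ℝ) < M ^ 4 ∧ 32 * (J : ℝ) < M ^ 4 := by
    have h1 : (256 : ℝ) ≤ M ^ 2 := by nlinarith
    have h2 : M ^ 4 = M ^ 2 * M ^ 2 := by ring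
    have h3 : 256 * M ^ 2 ≤ M ^ 4 := by
      rw [h2]
      exact mul_le_mul_of_nonneg_right h1 (by positivity)
    constructor
    · linarith
    · linarith
  set τ : Fin J → ℂ := fun j => t + (((r / 2) * (((j : ℕ) + 1 : ℝ) / J) : ℝ) : ℂ) with hτ
  have hτ1 : ∀ j, ‖τ j - t‖ ≤ r / 2 := by
    intro j
    rw [hτ]
    dsimp only
    rw [add_sub_cancel_left, Complex.norm_real, Real.norm_of_nonneg (by positivity)]
    have h1 : ((j : ℕ) + 1 : ℝ) / J ≤ 1 := by
      rw [div_le_one hJ0]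
      have h2 : (j : ℕ) + 1 ≤ J := j.2
      exact_mod_cast h2
    exact mul_le_of_le_one_right (by positivity) h1
  have hτ2 : ∀ i j, i ≠ j → r / (2 * J) ≤ ‖τ i - τ j‖ := by
    intro i j hij
    have h1 : τ i - τ j = (((r / (2 * J)) * (((i : ℕ) : ℝ) - ((j : ℕ) : ℝ)) : ℝ) : ℂ) := by
      rw [hτ]
      dsimp only
      rw [add_sub_add_left_eq_sub, ← Complex.ofReal_sub]
      congr 1
      field_simp
      ring
    rw [h1, Complex.norm_real, Real.norm_eq_abs, abs_mul, abs_of_nonneg (by positivity)]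
    have h2 : 1 ≤ |((i : ℕ) : ℝ) - ((j : ℕ) : ℝ)| := by
      have h3 : ((i : ℕ) : ℤ) - ((j : ℕ) : ℤ) ≠ 0 := by
        intro h4
        apply hij
        apply Fin.ext
        omega
      have h4 := Int.one_le_abs h3
      exact_mod_cast h4
    exact le_mul_of_one_le_right (by positivity) h2
  have hball : ∀ s, ‖s - t‖ ≤ r / 2 → s ∈ ball (0 : ℂ) ρ := by
    intro s hs'
    have h1 : s ∈ closedBall t r := by
      rw [mem_closedBall_iff_norm]
      linarith
    have h2 := hs.sub h1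
    rw [mem_closedBall_zero_iff] at h2
    rw [mem_ball_zero_iff]
    linarith
  have htball : t ∈ ball (0 : ℂ) ρ := hball t (by rw [sub_self, norm_zero]; positivity)
  have htt : t ∈ closedBall t r := mem_closedBall_self hr.le
  by_contra hcon
  push Not at hcon
  have hex : ∀ j : Fin J, ∃ o : Option (C × C),
      (o = none → ‖τ j - e‖ < r / M ^ 4) ∧ ∀ p : C × C, o = some p →
        S.D (orb S (τ j) (S.F (τ j) p.1) (n p.1)) p.2 ≤
          M * (η * (r * ph S t (S.F t p.1) (n p.1))) := by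
    intro j
    by_cases h1 : r / M ^ 4 ≤ ‖τ j - e‖
    · obtain ⟨c, hc, h2⟩ := hcon (τ j) (hτ1 j) h1
      obtain ⟨c', hc', h3⟩ := hB.near (τ j) (hball _ (hτ1 j))
        (orb S (τ j) (S.F (τ j) c) (n c))
      refine ⟨some (⟨c, hc⟩, ⟨c', hc'⟩), fun h => absurd h (by simp), fun p hp => ?_⟩
      obtain rfl := Option.some.inj hp
      exact h3.trans (mul_le_mul_of_nonneg_left h2.le hM0.le)
    · exact ⟨none, fun _ => not_le.1 h1, fun p hp => absurd hp (by simp)⟩
  choose f hf1 hf2 using hex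
  obtain ⟨i, j, hij, hfij⟩ := Fintype.exists_ne_map_eq_of_card_lt f (by
    rw [Fintype.card_option, Fintype.card_prod, Fintype.card_coe, Fintype.card_fin, hJ, ← hq]
    nlinarith)
  have hd := hτ2 i j hij
  rcases ho : f i with _ | ⟨c, c'⟩
  · have h1 := hf1 i ho
    have h2 := hf1 j (by rw [← hfij, ho])
    have h3 : ‖τ i - τ j‖ ≤ ‖τ i - e‖ + ‖τ j - e‖ := by
      have := norm_sub_le (τ i - e) (τ j - e)
      rwa [sub_sub_sub_cancel_right] at this
    have h4 : r / (2 * J) < 2 * (r / M ^ 4) := by linarith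
    rw [← mul_div_assoc, div_lt_div_iff₀ (by positivity) (by positivity)] at h4
    have h5 : r * M ^ 4 < r * (4 * J) := by linarith
    have h6 := lt_of_mul_lt_mul_left h5 hr.le
    linarith [hM4.1]
  · have h1 := hf2 i _ ho
    have h2 := hf2 j _ (by rw [← hfij, ho])
    dsimp only at h1 h2
    have hc := c.2
    set xi := orb S (τ i) (S.F (τ i) c) (n c) with hxi
    set xj := orb S (τ j) (S.F (τ j) c) (n c) with hxj
    have h3 : S.D xi xj ≤ S.D xi c' + S.D xj c' := by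
      have := hB.Dt xi c' xj
      rwa [hB.Ds (c' : X) xj] at this
    have hph : 0 < ph S t (S.F t c) (n c) := ph_pos (hs.ps c hc)
    have hlm1 : 1 ≤ lm S K t (S.F t c) (n c) := one_le_lm hB.a0 hK0 t _ _
    have hlm := hs.lmr c hc
    have hcond : ∀ s, ‖s - t‖ ≤ r / 2 → ‖s - t‖ * lm S K t (S.F t c) (n c) ≤ 1 := by
      intro s hs'
      refine le_trans (mul_le_mul_of_nonneg_right (by linarith) (by linarith)) hlm
    have hss : 1 + ss S t (S.F t c) (n c) ≤ M := by
      have := hs.ssb c hc t htt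
      linarith
    have hfrz := hB.frz t htball c hc (n c) (hs.one c hc) (hs.ps c hc) hss
    obtain ⟨-, -, -, h4, -⟩ := hfrz (τ i) (hball _ (hτ1 i)) (τ j) (hball _ (hτ1 j))
      (hcond _ (hτ1 i)) (hcond _ (hτ1 j)) (n c) le_rfl
    have h5 : 1 / (4 * M) ≤ S.T t c (n c) - 1 / (4 * M) := by
      have := hs.ttb c hc t htt
      have h6 : 1 / (2 * M) = 1 / (4 * M) + 1 / (4 * M) := by
        field_simp
        norm_num
      linarith
    have h6 : r / (2 * J) * (1 / (4 * M)) * ph S t (S.F t c) (n c) ≤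
        2 * (2 * (M * (η * (r * ph S t (S.F t c) (n c))))) := by
      refine le_trans (mul_le_mul_of_nonneg_right (mul_le_mul hd h5 (by positivity)
        (norm_nonneg _)) hph.le) (h4.trans ?_)
      linarith
    have h7 : (r * ph S t (S.F t c) (n c)) * M ^ 4 ≤
        (r * ph S t (S.F t c) (n c)) * (32 * J) := by
      rw [hη] at h6
      have e1 : r / (2 * J) * (1 / (4 * M)) * ph S t (S.F t c) (n c) =
          (r * ph S t (S.F t c) (n c)) / (8 * J * M) := by
        field_simp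
        ring
      have e2 : 2 * (2 * (M * (1 / M ^ 6 * (r * ph S t (S.F t c) (n c))))) =
          (4 * (r * ph S t (S.F t c) (n c))) / M ^ 5 := by
        field_simp
        ring
      rw [e1, e2, div_le_div_iff₀ (by positivity) (by positivity)] at h6
      have h8 : M * ((r * ph S t (S.F t c) (n c)) * M ^ 4) ≤
          M * ((r * ph S t (S.F t c) (n c)) * (32 * J)) := by
        nlinarith
      exact le_of_mul_le_mul_left h8 hM0
    have h8 := le_of_mul_le_mul_left h7 (mul_pos hr hph)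
    linarith [hM4.2]

end Pool.Agent.H91.SF
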