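import Pool.Agent.H91.SF.PIG
import Pool.Agent.H91.SF.ADV
import Pool.Agent.H91.SF.NUM
import Pool.Agent.H91.SF.FRZU

/-!
# Module STG: one stage

PROOF. `N = L * ⌈(4/3) M^2 / (θ bK)⌉₊`. `pig` gives `t'` (with `e`). `closedBall t' (θ r) ⊆ closedBall t r` (`r/2 + θ r ≤ r`), `e ∉ closedBall t' (θ r)` since `θ r < r / M^4` (`θ K^2 E = 1`, `K ≥ M^10`). All parameters are in `closedBall 0 r0 ⊆ ball 0 ρ`. Fix `c ∈ C`, `n = n c`, `v = S.F t' c`, `R = 1 / (θ r)`,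
`σ = r ph t n ≥ bK` (`siz`, `bK ≤ b`). `Frz` at the base `t`, time `n` (`Bas.frz`, `one`, `ps`, `ssb` at `s = t`), applied to `t'` (`‖t' - t‖ lm ≤ r lm ≤ 1`): `3/4 ph t n ≤ ph t' n ≤ 4/3 ph t n`, `lm t' n ≤ (16/9)/r ≤ R/4`. `K E ph t' n ≤ (4/3) K E ph t n ≤ (4/3) K E lm t n ≤ (4/3) K E / r ≤ R/4` (`ph_le_lm`).
`a0 := a t' (orb t' v n) ≥ η σ ≥ η bK = am`, and `a0 R ≥ η r ph t n R ≥ η (3/4) ph t' n / θ ≥ 8 K ph t' n` (`θ 12 K M^6 ≤ 1`). So `adv` applies: `n'`, `j`.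
`ssb`: `1 + ss t' n' ≤ 1 + ss t' n + (2 E M^2 / am) (ph t' n)⁻¹ ≤ M - Bs r + (8/3) E M^2 r / (am bK) = M - Bs r + (2/9) Bs r ≤ M` (`(ph t' n)⁻¹ ≤ (4/3) (ph t n)⁻¹ ≤ (4/3) r / bK`, `Bs = 12 E M^2 / (am bK)`). So `Frz` holds at the base `t'`, time `n'`; for `s ∈ closedBall t' (θ r)` (`θ r lm ≤ θ r R = 1`) `frz_ss`
(with `n ≤ n'`): `ss s n' - ss s n ≤ (4/3)(2/9) Bs r ≤ 0.3 Bs r`, so `1 + ss s n' ≤ M - Bs r + 0.3 Bs r ≤ M - Bs θ r`. `ttb`: `T_sub` at `s`: `T s n' ≥ T s n - 0.6 Bs r ≥ 1/(2M) + 0.4 Bs r`.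
`siz`: alternatives of `adv`: (1) `θ r ph ≥ √am / (16 K (E+G) M^2) ≥ b` by `n2`. (2) `θ r ph ≥ 1 / (2 K E) ≥ b` by `n3`. (3) deep: `a := a t' (orb n') < δ`. Claim `bK ≤ θ r ph t' n'`. If `b ≤ σ`: `θ r ph t' n' ≥ θ r ph t' n / M^2 ≥ (3/4) θ b / M^2 ≥ bK`. If conflict at `t`: `a t (orb t n) ≤ 4 K σ`;
`a0 ≤ 4 K σ + K (D + ‖t' - t‖)` (`lip`), `D ≤ 2 ‖t' - t‖ (T t n + 1/(4M)) ph t n ≤ (2M + 1) σ` (`T_le`, `1 + ss ≤ M`), `‖t' - t‖ ≤ r/2 ≤ M σ / 2` (`ph_inv_le`: `r = σ (ph t n)⁻¹ ≤ M σ`), so `a0 ≤ K^2 σ`. If `a0 < δ`: `(3/4 σ / r)^2 ≤ (ph t' n)^2 ≤ G a0 (M^2 ph t' n')^2 ≤ G K^2 σ M^4 (ph t' n')^2`, so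
`(θ r ph t' n')^2 ≥ (9/16) θ^2 σ / (G K^2 M^4) ≥ bK^2` by `n4` and `σ ≥ bK`. If `a0 ≥ δ`: `σ ≥ δ / K^2` and `θ r ph t' n' ≥ (3/4) θ σ / M^2 ≥ bK` by `n5`. Finally `a ≤ 4 K θ r ph t' n'`: if `a R ≤ 4 K ph` clear, if `a < am` use `am ≤ bK ≤ θ r ph`.
Length: `16^j (3/4) bK / r ≤ 16^j ph t' n ≤ M^2 ph t' n' ≤ M^2 lm ≤ M^2 R`, so `j ≤ 16^j ≤ (4/3) M^2 / (θ bK)`.
(Split into private lemmas.)
-/

set_option autoImplicit false

open Finset Filter Topology Metric Set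

namespace Pool.Agent.H91.SF

variable {X : Type} {S : Fd X} {C : Finset X} {M K ρ : ℝ}

/-- real inequalities for the sizes of a deep point -/
private theorem stg_deep {M K δ G E b θ η bK am Bs r0 r P p p' a0 : ℝ}
    (hN : Nm M K δ G E b θ η bK am Bs r0) (hr : 0 < r) (hP : 0 < P) (hp : 3 / 4 * P ≤ p)
    (hp' : 0 < p') (h1 : p ≤ M ^ 2 * p')
    (hσ : b ≤ r * P ∨ (bK ≤ r * P ∧ a0 ≤ K ^ 2 * (r * P)))
    (h2 : a0 < δ → p ^ 2 ≤ G * a0 * (M ^ 2 * p') ^ 2) : bK ≤ θ * r * p' := by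
  obtain ⟨hM0, hK0, hK1, hθ0, hθ1, hη0, hη1, hbK0, hbKb, ham0, hamb, hBs0, hr00, hθs⟩ := nm_pos hN
  have hG := hN.hG
  have hrP : 0 < r * P := mul_pos hr hP
  have hM2 : 0 < M ^ 2 := by positivity
  have key : 3 / 4 * (θ * (r * P)) ≤ M ^ 2 * (θ * r * p') := by
    have h3 : 3 / 4 * P ≤ M ^ 2 * p' := hp.trans h1
    have h4 := mul_le_mul_of_nonneg_left h3 (mul_pos hθ0 hr).le
    linarith
  rcases hσ with h3 | ⟨h3, h4⟩
  · have h5 : M ^ 2 * bK = θ * b / 2 := by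
      rw [hN.ebK]
      field_simp
    have h6 : θ * b ≤ θ * (r * P) := mul_le_mul_of_nonneg_left h3 hθ0.le
    have h7 : 0 < θ * b := mul_pos hθ0 hN.hb
    have h8 : M ^ 2 * bK ≤ M ^ 2 * (θ * r * p') := by linarith
    exact le_of_mul_le_mul_left h8 hM2
  · by_cases h5 : a0 < δ
    · have h6 := h2 h5
      have h7 : (3 / 4 * P) ^ 2 ≤ G * (K ^ 2 * (r * P)) * (M ^ 2 * p') ^ 2 := by
        refine (pow_le_pow_left₀ (by positivity) hp 2).trans (h6.trans ?_)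
        exact mul_le_mul_of_nonneg_right (mul_le_mul_of_nonneg_left h4 (by linarith))
          (sq_nonneg _)
      have h8 : (θ * r) ^ 2 * (3 / 4 * P) ^ 2 ≤
          (θ * r) ^ 2 * (G * (K ^ 2 * (r * P)) * (M ^ 2 * p') ^ 2) :=
        mul_le_mul_of_nonneg_left h7 (sq_nonneg _)
      have h9 : (r * P) * (9 / 16 * θ ^ 2 * (r * P)) ≤
          (r * P) * (G * K ^ 2 * M ^ 4 * (θ * r * p') ^ 2) := by
        nlinarith
      have h10 := le_of_mul_le_mul_left h9 hrP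
      have h11 := hN.n4
      have h12 : G * K ^ 2 * M ^ 4 * bK ^ 2 ≤ 9 / 16 * θ ^ 2 * (r * P) := by
        have h13 : (2 * M ^ 2 * K) ^ 2 * G * bK * bK ≤ θ ^ 2 * bK :=
          mul_le_mul_of_nonneg_right h11 hbK0.le
        have h14 : θ ^ 2 * bK ≤ θ ^ 2 * (r * P) :=
          mul_le_mul_of_nonneg_left h3 (sq_nonneg _)
        have h15 : 0 ≤ θ ^ 2 * (r * P) := by positivity
        nlinarith
      have h16 : G * K ^ 2 * M ^ 4 * bK ^ 2 ≤ G * K ^ 2 * M ^ 4 * (θ * r * p') ^ 2 :=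
        h12.trans h10
      have h17 : 0 < G * K ^ 2 * M ^ 4 := by positivity
      have h18 := le_of_mul_le_mul_left h16 h17
      exact (pow_le_pow_iff_left₀ hbK0.le (by positivity) two_ne_zero).1 h18
    · push Not at h5
      have h6 : δ ≤ K ^ 2 * (r * P) := h5.trans h4
      have h7 := hN.n5
      have h8 : θ * δ ≤ θ * (K ^ 2 * (r * P)) := mul_le_mul_of_nonneg_left h6 hθ0.le
      have h9 : K ^ 2 * (M ^ 2 * bK) ≤ K ^ 2 * (M ^ 2 * (θ * r * p')) := by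
        have h10 := mul_le_mul_of_nonneg_left key (sq_nonneg K)
        have h11 : 0 ≤ θ * (K ^ 2 * (r * P)) := by positivity
        nlinarith
      exact le_of_mul_le_mul_left (le_of_mul_le_mul_left h9 (by positivity)) hM2

/-- the derivative at the new base in a conflict -/
private theorem stg_a0 {M K σ at1 a0 D d T r P : ℝ} (hM : 16 ≤ M) (hK : M ^ 10 ≤ K)
    (hσ : 0 < σ) (hP : 0 < P) (hr : σ = r * P) (h1 : at1 ≤ 4 * K * σ)
    (h2 : a0 - at1 ≤ K * (D + d)) (h3 : D ≤ 2 * d * (T + 1 / (4 * M)) * P) (hd0 : 0 ≤ d)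
    (hd : d ≤ r / 2) (hT : T ≤ 2 * M) (hT0 : 0 ≤ T + 1 / (4 * M)) (hi : P⁻¹ ≤ M) :
    a0 ≤ K ^ 2 * σ := by
  have hM0 : 0 < M := by linarith
  have hMK : M ^ 2 ≤ K := le_trans (pow_le_pow_right₀ (by linarith) (by norm_num)) hK
  have hK0 : 0 < K := lt_of_lt_of_le (by positivity) hMK
  have h4 : 1 / (4 * M) ≤ 1 := by
    rw [div_le_one (by positivity)]
    linarith
  have h5 : D ≤ (2 * M + 1) * σ := by
    refine h3.trans ?_
    have h6 : 2 * d * (T + 1 / (4 * M)) * P ≤ r * (T + 1 / (4 * M)) * P :=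
      mul_le_mul_of_nonneg_right (mul_le_mul_of_nonneg_right (by linarith) hT0) hP.le
    refine h6.trans ?_
    rw [hr]
    have h7 : T + 1 / (4 * M) ≤ 2 * M + 1 := by linarith
    have h8 : 0 < r * P := by rw [← hr]; exact hσ
    have h9 := mul_le_mul_of_nonneg_right h7 h8.le
    linarith
  have h6 : r ≤ M * σ := by
    rw [hr]
    have h7 : 1 ≤ M * P := by
      rw [inv_le_iff_one_le_mul₀ hP] at hi
      exact hi
    have hr0 : 0 < r := by
      by_contra hc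
      push Not at hc
      have : r * P ≤ 0 := mul_nonpos_of_nonpos_of_nonneg hc hP.le
      linarith
    nlinarith
  have h7 : a0 ≤ K * σ * (5 + 3 * M) := by
    have h8 : K * (D + d) ≤ K * ((2 * M + 1) * σ + M * σ / 2) :=
      mul_le_mul_of_nonneg_left (by linarith) hK0.le
    have h9 : 0 ≤ K * (M * σ) := by positivity
    nlinarith
  have h8 : 5 + 3 * M ≤ K := by nlinarith
  have h9 : K * σ * (5 + 3 * M) ≤ K * σ * K :=
    mul_le_mul_of_nonneg_left h8 (mul_pos hK0 hσ).le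
  nlinarith

/-- one critical point -/
private theorem stg_one {δ G E b θ η bK am Bs r0 : ℝ} (hB : Bas S C M K ρ)
    (hN : Nm M K δ G E b θ η bK am Bs r0) (hr0 : r0 < ρ) {L : ℕ}
    (hblk : ∀ t : ℂ, ‖t‖ ≤ r0 → Blk S M δ G E am L t) {t : ℂ} {r : ℝ} {n : X → ℕ}
    (hs : Stg S C M K δ b bK Bs r0 t r n) {t' : ℂ} (htt : ‖t' - t‖ ≤ r / 2) {c : X} (hc : c ∈ C)
    (hpig : η * (r * ph S t (S.F t c) (n c)) ≤ S.a t' (orb S t' (S.F t' c) (n c))) :
    ∃ k : ℕ, (n c < k ∧ k ≤ n c + L * ⌈4 / 3 * M ^ 2 / (θ * bK)⌉₊) ∧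
      pos S t' (S.F t' c) k ∧ θ * r * lm S K t' (S.F t' c) k ≤ 1 ∧
      (∀ s ∈ closedBall t' (θ * r), 1 + ss S s (S.F s c) k ≤ M - Bs * (θ * r)) ∧
      (∀ s ∈ closedBall t' (θ * r), 1 / (2 * M) + Bs * (θ * r) ≤ S.T s c k) ∧
      (b ≤ θ * r * ph S t' (S.F t' c) k ∨
        (bK ≤ θ * r * ph S t' (S.F t' c) k ∧ S.a t' (orb S t' (S.F t' c) k) < δ ∧
          S.a t' (orb S t' (S.F t' c) k) ≤ 4 * K * (θ * r * ph S t' (S.F t' c) k))) := by
  obtain ⟨hM0, hK0, hK1, hθ0, hθ1, hη0, hη1, hbK0, hbKb, ham0, hamb, hBs0, hr00, hθs⟩ := nm_pos hN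
  have hM := hN.hM
  have hG := hN.hG
  have hE := hN.hE
  have hr := hs.hr
  have hθr : 0 < θ * r := mul_pos hθ0 hr
  have hsub : ∀ s ∈ closedBall t r, s ∈ ball (0 : ℂ) ρ ∧ ‖s‖ ≤ r0 := by
    intro s hsr
    have h1 := hs.sub hsr
    rw [mem_closedBall, dist_zero_right] at h1
    exact ⟨by rw [mem_ball, dist_zero_right]; linarith, h1⟩
  have htc : t ∈ closedBall t r := mem_closedBall_self hr.le
  have ht'c : t' ∈ closedBall t r := by
    rw [mem_closedBall, dist_eq_norm]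
    linarith
  obtain ⟨ht, _⟩ := hsub t htc
  obtain ⟨ht', ht'0⟩ := hsub t' ht'c
  obtain ⟨P, hPe⟩ : ∃ P, P = ph S t (S.F t c) (n c) := ⟨_, rfl⟩
  obtain ⟨p, hpe⟩ : ∃ p, p = ph S t' (S.F t' c) (n c) := ⟨_, rfl⟩
  have hps := hs.ps c hc
  have hP : 0 < P := by rw [hPe]; exact ph_pos hps
  have hlmr := hs.lmr c hc
  have hlm1 : 1 ≤ lm S K t (S.F t c) (n c) := one_le_lm hB.a0 hK0.le _ _ _
  have hss1 := hs.ssb c hc t htc
  have hBsr : 0 < Bs * r := mul_pos hBs0 hr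
  have hf : Frz S M ρ K t c (n c) := hB.frz t ht c hc (n c) (hs.one c hc) hps (by linarith)
  have hd : ‖t' - t‖ * lm S K t (S.F t c) (n c) ≤ 1 := by
    refine le_trans ?_ hlmr
    exact mul_le_mul_of_nonneg_right (by linarith) (by linarith)
  have hd0 : ‖t - t‖ * lm S K t (S.F t c) (n c) ≤ 1 := by
    rw [sub_self, norm_zero, zero_mul]
    exact zero_le_one
  obtain ⟨⟨hp1, hp2⟩, -, -, -, -⟩ := hf t' ht' t' ht' hd hd (n c) le_rfl
  rw [← hPe, ← hpe] at hp1 hp2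
  have hp : 0 < p := by linarith
  have hPr : P ≤ 1 / r := by
    have h1 := ph_le_lm hB ht hps
    rw [← hPe] at h1
    rw [le_div_iff₀ hr]
    have := mul_le_mul_of_nonneg_left h1 hr.le
    linarith
  have hσ : bK ≤ r * P := by
    rcases hs.siz c hc with h | h
    · rw [← hPe] at h
      linarith
    · rw [← hPe] at h
      exact h.1
  obtain ⟨R, hR⟩ : ∃ R, R = 1 / (θ * r) := ⟨_, rfl⟩
  have hRr : θ * r * R = 1 := by
    rw [hR]
    field_simp
  have hR0 : 0 < R := by rw [hR]; positivity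
  have hps' : pos S t' (S.F t' c) (n c) := frz_pos hB ht' hf hps hd
  have hlm' := frz_lm hB ht' hf hps hd
  have hθ2 : θ * (K * M ^ 6) * 12 ≤ 1 ∧ θ * (K * E) * 8 ≤ 1 := by
    have h1 : 0 ≤ θ * (K * M ^ 6) := by positivity
    have h2 : 0 ≤ θ * (K * E) := by positivity
    constructor <;> nlinarith
  have hL : lm S K t' (S.F t' c) (n c) ≤ R / 4 := by
    have h1 : θ * r * lm S K t' (S.F t' c) (n c) ≤ θ * r * (R / 4) := by
      have h2 : θ * r * lm S K t' (S.F t' c) (n c) ≤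
          θ * r * (16 / 9 * lm S K t (S.F t c) (n c)) :=
        mul_le_mul_of_nonneg_left hlm' hθr.le
      have h3 : θ * (16 / 9 * (r * lm S K t (S.F t c) (n c))) ≤ θ * (16 / 9 * 1) :=
        mul_le_mul_of_nonneg_left (by linarith) hθ0.le
      have h4 : θ * r * (R / 4) = 1 / 4 := by
        have : θ * r * (R / 4) = θ * r * R / 4 := by ring
        rw [this, hRr]
      rw [h4]
      linarith
    exact le_of_mul_le_mul_left h1 hθr
  have hc2 : K * E * ph S t' (S.F t' c) (n c) ≤ R / 4 := by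
    rw [← hpe]
    have h1 : θ * r * (K * E * p) ≤ θ * r * (R / 4) := by
      have h2 : r * p ≤ 4 / 3 := by
        have h3 : r * P ≤ 1 := by
          rw [le_div_iff₀ hr] at hPr
          linarith
        have h4 := mul_le_mul_of_nonneg_left hp2 hr.le
        linarith
      have h3 : θ * (K * E) * (r * p) ≤ θ * (K * E) * (4 / 3) :=
        mul_le_mul_of_nonneg_left h2 (by positivity)
      have h4 : θ * r * (R / 4) = 1 / 4 := by
        have : θ * r * (R / 4) = θ * r * R / 4 := by ring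
        rw [this, hRr]
      rw [h4]
      linarith [hθ2.2]
    exact le_of_mul_le_mul_left h1 hθr
  obtain ⟨a0, ha0e⟩ : ∃ a0, a0 = S.a t' (orb S t' (S.F t' c) (n c)) := ⟨_, rfl⟩
  rw [← hPe, ← ha0e] at hpig
  have ha0 : am ≤ a0 := by
    rw [hN.eam]
    exact (mul_le_mul_of_nonneg_left hσ hη0.le).trans hpig
  have hc1 : 8 * K * ph S t' (S.F t' c) (n c) ≤ S.a t' (orb S t' (S.F t' c) (n c)) * R := by
    rw [← hpe, ← ha0e]
    have h1 : η * (r * P) * R ≤ a0 * R := mul_le_mul_of_nonneg_right hpig hR0.le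
    refine le_trans ?_ h1
    -- multiply by `θ M^6`
    have h2 : θ * M ^ 6 * (8 * K * p) ≤ θ * M ^ 6 * (η * (r * P) * R) := by
      have h3 : θ * M ^ 6 * (η * (r * P) * R) = (M ^ 6 * η) * (θ * r * R) * P := by ring
      have h4 : M ^ 6 * η = 1 := by
        rw [hN.eη]
        field_simp
      rw [h3, h4, hRr, one_mul, one_mul]
      have h5 : θ * (K * M ^ 6) * 12 * P ≤ 1 * P := mul_le_mul_of_nonneg_right hθ2.1 hP.le
      have h6 : θ * M ^ 6 * (8 * K * p) ≤ θ * M ^ 6 * (8 * K * (4 / 3 * P)) := by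
        refine mul_le_mul_of_nonneg_left (mul_le_mul_of_nonneg_left hp2 ?_) ?_ <;> positivity
      have h7 : 0 ≤ θ * (K * M ^ 6) * P := by positivity
      linarith
    exact le_of_mul_le_mul_left h2 (by positivity)
  obtain ⟨k, j, hnk, hpk, hlk, hlen, h16, hssk, halt⟩ := adv hB hG hE hN.hδ hN.hδ1 hN.hδG ham0
    hN.n7 ht' (hblk t' ht'0) hps' (by rw [← ha0e]; exact ha0) hL hc1 hc2
  obtain ⟨q, hqe⟩ : ∃ q, q = ph S t' (S.F t' c) k := ⟨_, rfl⟩
  have hq : 0 < q := by rw [hqe]; exact ph_pos hpk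
  rw [← hpe, ← hqe] at h16
  have hqR : q ≤ R := by
    rw [hqe]
    exact (ph_le_lm hB ht' hpk).trans hlk
  -- the length
  have hj : j ≤ ⌈4 / 3 * M ^ 2 / (θ * bK)⌉₊ := by
    have h1 : (j : ℝ) ≤ 4 / 3 * M ^ 2 / (θ * bK) := by
      have h2 : (j : ℝ) ≤ 16 ^ j := by
        exact_mod_cast (Nat.lt_pow_self (by norm_num : 1 < 16) (n := j)).le
      refine h2.trans ?_
      rw [le_div_iff₀ (mul_pos hθ0 hbK0)]
      have h3 : M ^ 2 * q ≤ M ^ 2 * R := mul_le_mul_of_nonneg_left hqR (by positivity)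
      have h4 : θ * r * (16 ^ j * p) ≤ θ * r * (M ^ 2 * R) :=
        mul_le_mul_of_nonneg_left (h16.trans h3) hθr.le
      have h5 : θ * r * (M ^ 2 * R) = M ^ 2 := by
        have : θ * r * (M ^ 2 * R) = M ^ 2 * (θ * r * R) := by ring
        rw [this, hRr, mul_one]
      rw [h5] at h4
      have h6 : bK ≤ 4 / 3 * (r * p) := by
        have := mul_le_mul_of_nonneg_left hp1 hr.le
        linarith
      have h7 : 16 ^ j * θ * bK ≤ 16 ^ j * θ * (4 / 3 * (r * p)) :=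
        mul_le_mul_of_nonneg_left h6 (by positivity)
      linarith
    exact_mod_cast h1.trans (Nat.le_ceil _)
  -- the sum `ss` at `t'`
  have hpinv : p⁻¹ ≤ 4 / 3 * (r / bK) := by
    rw [inv_le_iff_one_le_mul₀ hp]
    have h1 : bK ≤ 4 / 3 * (r * p) := by
      have := mul_le_mul_of_nonneg_left hp1 hr.le
      linarith
    have h2 : 4 / 3 * (r / bK) * p = 4 / 3 * (r * p) / bK := by ring
    rw [h2, le_div_iff₀ hbK0]
    linarith
  have hinc : ss S t' (S.F t' c) k - ss S t' (S.F t' c) (n c) ≤ 2 / 9 * (Bs * r) := by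
    rw [← hpe] at hssk
    have h1 : 2 * E * M ^ 2 / am * p⁻¹ ≤ 2 * E * M ^ 2 / am * (4 / 3 * (r / bK)) :=
      mul_le_mul_of_nonneg_left hpinv (by positivity)
    have h2 : 2 * E * M ^ 2 / am * (4 / 3 * (r / bK)) = 2 / 9 * (Bs * r) := by
      rw [hN.eBs]
      field_simp
      ring
    linarith
  have hss' := hs.ssb c hc t' ht'c
  have hf' : Frz S M ρ K t' c k := hB.frz t' ht' c hc k (by omega) hpk (by linarith)
  have hball : ∀ s ∈ closedBall t' (θ * r), s ∈ closedBall t r := by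
    intro s hs1
    rw [mem_closedBall, dist_eq_norm] at hs1 ⊢
    have h1 : ‖s - t‖ ≤ ‖s - t'‖ + ‖t' - t‖ := by
      have h2 : s - t = (s - t') + (t' - t) := by ring
      rw [h2]
      exact norm_add_le _ _
    have h3 : θ * r ≤ 1 / 256 * r := mul_le_mul_of_nonneg_right hθ1 hr.le
    linarith
  have hincs : ∀ s ∈ closedBall t' (θ * r),
      ss S s (S.F s c) k - ss S s (S.F s c) (n c) ≤ 3 / 10 * (Bs * r) := by
    intro s hs1
    have hsb := hsub s (hball s hs1)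
    have hds : ‖s - t'‖ * lm S K t' (S.F t' c) k ≤ 1 := by
      rw [mem_closedBall, dist_eq_norm] at hs1
      rw [← hRr]
      have h1 : 0 ≤ lm S K t' (S.F t' c) k := by
        have := one_le_lm hB.a0 hK0.le t' (S.F t' c) k
        linarith
      exact mul_le_mul hs1 hlk h1 hθr.le
    have h1 := frz_ss hB hnk.le hsb.1 hf' hpk hds
    linarith
  have hθB : Bs * (θ * r) ≤ 1 / 256 * (Bs * r) := by
    have := mul_le_mul_of_nonneg_right hθ1 hBsr.le
    linarith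
  refine ⟨k, ⟨hnk, hlen.trans (by gcongr)⟩, hpk, ?_, ?_, ?_, ?_⟩
  · rw [← hRr]
    exact mul_le_mul_of_nonneg_left hlk hθr.le
  · intro s hs1
    have h1 := hincs s hs1
    have h2 := hs.ssb c hc s (hball s hs1)
    linarith
  · intro s hs1
    have h1 := hincs s hs1
    have h2 := hs.ttb c hc s (hball s hs1)
    have h3 := T_sub hB (hsub s (hball s hs1)).1 hc hnk.le
    have h4 := (abs_le.1 h3).1
    linarith
  · rw [← hqe]
    rw [← hqe] at halt
    rcases halt with h1 | h1 | ⟨h1, h2, h3, h4⟩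
    · left
      have h2 : θ * r * (R * Real.sqrt am) ≤ θ * r * (16 * K * (E + G) * M ^ 2 * q) :=
        mul_le_mul_of_nonneg_left h1 hθr.le
      have h3 : θ * r * (R * Real.sqrt am) = Real.sqrt am := by
        rw [← mul_assoc, hRr, one_mul]
      rw [h3] at h2
      have h4 : 16 * K * (E + G) * M ^ 2 * b ≤ Real.sqrt am := by
        apply Real.le_sqrt_of_sq_le
        have := hN.n2
        nlinarith
      have h5 : 16 * K * (E + G) * M ^ 2 * b ≤ 16 * K * (E + G) * M ^ 2 * (θ * r * q) := by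
        linarith
      exact le_of_mul_le_mul_left h5 (by positivity)
    · left
      have h2 : θ * r * R ≤ θ * r * (2 * K * E * q) := mul_le_mul_of_nonneg_left h1 hθr.le
      rw [hRr] at h2
      have h3 := hN.n3
      have h4 : 2 * K * E * b ≤ 2 * K * E * (θ * r * q) := by linarith
      exact le_of_mul_le_mul_left h4 (by positivity)
    · right
      rw [← hpe] at h3 h4
      rw [← ha0e] at h4
      have hbk : bK ≤ θ * r * q := by
        refine stg_deep hN hr hP hp1 hq h3 ?_ h4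
        rcases hs.siz c hc with h5 | ⟨h5, h6, h7⟩
        · left
          rw [hPe]
          exact h5
        · right
          refine ⟨hσ, ?_⟩
          rw [← hPe] at h7
          obtain ⟨-, -, -, -, hD⟩ := hf t ht t' ht' hd0 hd (n c) le_rfl
          rw [← hPe] at hD
          have hT := T_le hB ht hc (n c)
          have hlip := hB.lip t' ht' t ht (orb S t' (S.F t' c) (n c)) (orb S t (S.F t c) (n c))
          have hlip2 := (abs_le.1 hlip).2
          rw [← ha0e, hB.Ds] at hlip2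
          have hTt := hs.ttb c hc t htc
          have hinv := ph_inv_le hB (hs.one c hc)
            (by linarith : 1 + ss S t (S.F t c) (n c) ≤ M)
          rw [← hPe] at hinv
          have hM4 : 0 ≤ 1 / (2 * M) := by positivity
          have hM5 : 0 ≤ 1 / (4 * M) := by positivity
          exact stg_a0 hM hN.hK (mul_pos hr hP) hP rfl h7 hlip2
            (by rw [norm_sub_rev t' t]; exact hD) (norm_nonneg _) htt (by linarith) (by linarith) hinv
      refine ⟨hbk, h1, ?_⟩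
      rcases h2 with h2 | h2
      · have h5 : θ * r * q ≤ 4 * K * (θ * r * q) :=
          le_mul_of_one_le_left (by positivity) (by linarith)
        linarith
      · have h5 := mul_le_mul_of_nonneg_left h2 hθr.le
        have h6 : θ * r * (S.a t' (orb S t' (S.F t' c) k) * R) =
            S.a t' (orb S t' (S.F t' c) k) * (θ * r * R) := by ring
        rw [h6, hRr, mul_one] at h5
        linarith

theorem stage {δ G E b θ η bK am Bs r0 : ℝ} (hB : Bas S C M K ρ)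
    (hN : Nm M K δ G E b θ η bK am Bs r0) (hr0 : r0 < ρ) {L : ℕ}
    (hblk : ∀ t : ℂ, ‖t‖ ≤ r0 → Blk S M δ G E am L t) :
    ∃ N : ℕ, ∀ (t : ℂ) (r : ℝ) (n : X → ℕ), Stg S C M K δ b bK Bs r0 t r n → ∀ e : ℂ,
      ∃ (t' : ℂ) (n' : X → ℕ), Stg S C M K δ b bK Bs r0 t' (θ * r) n' ∧ ‖t' - t‖ ≤ r / 2 ∧
        e ∉ closedBall t' (θ * r) ∧ ∀ c ∈ C, n c < n' c ∧ n' c ≤ n c + N := by
  refine ⟨L * ⌈4 / 3 * M ^ 2 / (θ * bK)⌉₊, fun t r n hs e => ?_⟩
  obtain ⟨hM0, hK0, hK1, hθ0, hθ1, hη0, hη1, hbK0, hbKb, ham0, hamb, hBs0, hr00, hθs⟩ := nm_pos hN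
  obtain ⟨t', htt, hte, hpig⟩ := pig hB hN hr0 hs e
  have hr := hs.hr
  have key : ∀ c ∈ C, ∃ k : ℕ, (n c < k ∧ k ≤ n c + L * ⌈4 / 3 * M ^ 2 / (θ * bK)⌉₊) ∧
      pos S t' (S.F t' c) k ∧ θ * r * lm S K t' (S.F t' c) k ≤ 1 ∧
      (∀ s ∈ closedBall t' (θ * r), 1 + ss S s (S.F s c) k ≤ M - Bs * (θ * r)) ∧
      (∀ s ∈ closedBall t' (θ * r), 1 / (2 * M) + Bs * (θ * r) ≤ S.T s c k) ∧
      (b ≤ θ * r * ph S t' (S.F t' c) k ∨
        (bK ≤ θ * r * ph S t' (S.F t' c) k ∧ S.a t' (orb S t' (S.F t' c) k) < δ ∧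
          S.a t' (orb S t' (S.F t' c) k) ≤ 4 * K * (θ * r * ph S t' (S.F t' c) k))) :=
    fun c hc => stg_one hB hN hr0 hblk hs htt hc (hpig c hc)
  choose! n' h1 h2 h3 h4 h5 h6 using key
  refine ⟨t', n', ⟨mul_pos hθ0 hr, ?_, fun c hc => ?_, h2, h3, h4, h5, h6⟩, htt, ?_, h1⟩
  · intro s hs1
    apply hs.sub
    rw [mem_closedBall, dist_eq_norm] at hs1 ⊢
    have h7 : ‖s - t‖ ≤ ‖s - t'‖ + ‖t' - t‖ := by
      have h8 : s - t = (s - t') + (t' - t) := by ring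
      rw [h8]
      exact norm_add_le _ _
    have h9 : θ * r ≤ 1 / 256 * r := mul_le_mul_of_nonneg_right hθ1 hr.le
    linarith
  · have := (h1 c hc).1
    omega
  · intro he
    rw [mem_closedBall, dist_eq_norm, norm_sub_rev] at he
    have h7 := hte.trans he
    have h8 : r / M ^ 4 ≤ θ * r := h7
    rw [div_le_iff₀ (by positivity)] at h8
    have h9 : θ * M ^ 4 < 1 := by
      have hθe : θ * (K ^ 2 * E) = 1 := by
        rw [hN.eθ]
        have := hN.hE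
        field_simp
      have h10 : M ^ 4 < K ^ 2 * E := by
        have hM := hN.hM
        have h11 : M ^ 4 < M ^ 10 := pow_lt_pow_right₀ (by linarith) (by norm_num)
        have h12 : K ≤ K ^ 2 := by nlinarith
        have h13 : K ^ 2 ≤ K ^ 2 * E := le_mul_of_one_le_right (by positivity) hN.hE
        have h14 := hN.hK
        linarith
      have h15 := mul_lt_mul_of_pos_left h10 hθ0
      linarith
    have h10 : θ * r * M ^ 4 < r := by
      have h11 := mul_lt_mul_of_pos_right h9 hr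
      linarith
    linarith

end Pool.Agent.H91.SF
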